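import Mathlib
import Pool.Agent.D0H33.FB.A09
import Pool.Agent.D0H33.FB.A22

set_option autoImplicit false

open Set Metric Filter Topology MeasureTheory
open ExtStar (lap)
open Pool.Agent.D0H33.FB

namespace Pool.Agent.D0H33.FC

noncomputable section

variable {D : Set V} {u : V → ℝ} {f : V → ℝ}

/-- the axis -/
def ax : V := ee 2

lemma ax_norm : ‖ax‖ = 1 := by
  unfold ax ee; simp

/-- distance to the axis -/
def Nx (x : V) : ℝ := ‖x - (inner ℝ ax x) • ax‖

lemma Nx_nonneg (x : V) : 0 ≤ Nx x := norm_nonneg _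

lemma Nx_cont : Continuous Nx := by
  unfold Nx; fun_prop

lemma Nx_sq (x : V) : Nx x ^ 2 = ‖x‖ ^ 2 - (inner ℝ ax x) ^ 2 := by
  unfold Nx
  rw [norm_sub_sq_real, inner_smul_right, norm_smul, ax_norm, real_inner_comm, Real.norm_eq_abs,
    mul_one, sq_abs]
  ring

lemma Nx_le (x : V) : Nx x ≤ ‖x‖ := by
  have h := Nx_sq x
  have : Nx x ^ 2 ≤ ‖x‖ ^ 2 := by rw [h]; nlinarith [sq_nonneg (inner ℝ ax x)]
  exact (pow_le_pow_iff_left₀ (Nx_nonneg x) (norm_nonneg _) (by norm_num)).1 this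

lemma ax_inner_le (x : V) : |inner ℝ ax x| ≤ ‖x‖ := by
  have := abs_real_inner_le_norm ax x
  rwa [ax_norm, one_mul] at this

lemma Nx_smul (r : ℝ) (x : V) : Nx (r • x) = |r| * Nx x := by
  unfold Nx
  rw [inner_smul_right, mul_smul, ← smul_sub, norm_smul, Real.norm_eq_abs]

lemma Nx_rsmul {r : ℝ} (hr : 0 < r) (x : V) : Nx (r • x) = r * Nx x := by
  rw [Nx_smul, abs_of_pos hr]

lemma Nx_add_ax (z : ℝ) (x : V) : Nx (z • ax + x) = Nx x := by
  unfold Nx
  rw [inner_add_right, inner_smul_right, real_inner_self_eq_norm_sq, ax_norm]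
  congr 1
  module

lemma Nx_sub_le (x y : V) : Nx (x - y) ≤ ‖x - y‖ := Nx_le _

lemma Nx_tri (x y : V) : Nx x ≤ Nx y + ‖x - y‖ := by
  have h : x - (inner ℝ ax x) • ax = (y - (inner ℝ ax y) • ax) +
      ((x - y) - (inner ℝ ax (x - y)) • ax) := by
    rw [inner_sub_right]; module
  have h2 : Nx x ≤ Nx y + Nx (x - y) := by
    unfold Nx
    rw [h]
    exact norm_add_le _ _
  exact h2.trans (by linarith [Nx_le (x - y)])

lemma Nx_abs (x y : V) : |Nx x - Nx y| ≤ ‖x - y‖ := by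
  rw [abs_le]
  constructor
  · have := Nx_tri y x
    rw [norm_sub_rev] at this
    linarith
  · linarith [Nx_tri x y]

/-- decomposition of an inner product along the axis -/
lemma inner_dec (ν x : V) : inner ℝ ν x = inner ℝ ν ((inner ℝ ax x) • ax) +
    inner ℝ ν (x - (inner ℝ ax x) • ax) := by
  rw [← inner_add_right]; congr 1; abel

lemma inner_perp {ν : V} (hν : ‖ν‖ = 1) (x : V) :
    |inner ℝ ν x - inner ℝ ν ((inner ℝ ax x) • ax)| ≤ Nx x := by
  have h := inner_dec ν x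
  have h2 := abs_real_inner_le_norm ν (x - (inner ℝ ax x) • ax)
  rw [hν, one_mul] at h2
  have e : inner ℝ ν x - inner ℝ ν ((inner ℝ ax x) • ax) = inner ℝ ν (x - (inner ℝ ax x) • ax) := by
    linarith
  rw [e]; exact h2

/-- regions outside the cylinder, in a ball -/
def ann (a b : ℝ) : Set V := {x | a < Nx x ∧ ‖x‖ < b}

lemma ann_open (a b : ℝ) : IsOpen (ann a b) :=
  (isOpen_lt continuous_const Nx_cont).inter (isOpen_lt continuous_norm continuous_const)

lemma ann_meas (a b : ℝ) : MeasurableSet (ann a b) := (ann_open a b).measurableSet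

lemma ann_fin (a b : ℝ) : volume (ann a b) < ⊤ := by
  have : ann a b ⊆ ball (0 : V) b := fun x hx => by
    rw [mem_ball, dist_zero_right]; exact hx.2
  exact (measure_mono this).trans_lt measure_ball_lt_top

lemma ann_vol {a b : ℝ} (hb : 0 ≤ b) : (volume : Measure V).real (ann a b) ≤ om * b ^ 3 := by
  rw [← vol_ball (0 : V) hb]
  apply measureReal_mono _ measure_ball_lt_top.ne
  intro x hx
  rw [mem_ball, dist_zero_right]; exact hx.2

/-- local regions around a point of the axis -/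
def loc (z a b : ℝ) : Set V := {x | a < Nx x ∧ ‖x - z • ax‖ < b}

lemma loc_open (z a b : ℝ) : IsOpen (loc z a b) := by
  have h1 : Continuous (fun x : V => ‖x - z • ax‖) := by fun_prop
  exact (isOpen_lt continuous_const Nx_cont).inter (isOpen_lt h1 continuous_const)

lemma loc_meas (z a b : ℝ) : MeasurableSet (loc z a b) := (loc_open z a b).measurableSet

/-- a solution with a hole of radius `δ`, at unit scale -/
structure Cfg (L c κ δ : ℝ) (D : Set V) (u : V → ℝ) : Prop where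
  sol : Sol D u
  δ0 : 0 < δ
  sub : ∀ x : V, δ < Nx x → ‖x‖ < 1 → x ∈ D
  lip : ∀ x ∈ NN D u, δ < Nx x → ‖x‖ < 1 → ‖gr u x‖ ≤ L
  bd : ∀ x : V, δ < Nx x → ‖x‖ < 1 → u x ≤ L * Nx x
  dens : ∀ z t : ℝ, |z| ≤ 7 / 8 → κ * δ ≤ t → t ≤ 1 / 16 →
    c * t ^ 3 ≤ (volume : Measure V).real (NN D u ∩ loc z (t / κ) t)

/-- the excess -/
def exc (δ : ℝ) (D : Set V) (u : V → ℝ) (ν : V) (c : ℝ) : ℝ :=
  ∫ x in NN D u ∩ ann δ 1, vv u ν c x ^ 2

lemma exc_nonneg (δ : ℝ) (D : Set V) (u : V → ℝ) (ν : V) (c : ℝ) : 0 ≤ exc δ D u ν c :=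
  integral_nonneg fun _ => sq_nonneg _

section cfg

variable {L c κ δ : ℝ} {ν : V} {c' : ℝ}

lemma Cfg.vv_bd (h : Cfg L c κ δ D u) (hL : 0 ≤ L) (hν : ‖ν‖ = 1) {x : V} (hx : x ∈ ann δ 1) :
    |vv u ν c' x| ≤ (L + 1) * ‖x‖ + |c'| := by
  have h0 := h.bd x hx.1 hx.2
  have h00 := Nx_le x
  have h000 := Nx_nonneg x
  have h2 := h.sol.nonneg x (h.sub x hx.1 hx.2)
  have h1 : u x ≤ L * ‖x‖ := h0.trans (mul_le_mul_of_nonneg_left h00 hL)
  have h3 := abs_le.1 (abs_real_inner_le_norm ν x)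
  rw [hν, one_mul] at h3
  have h4 := abs_le.1 (le_refl |c'|)
  unfold vv
  rw [abs_le]
  constructor
  · nlinarith [norm_nonneg x, h3.2, h4.2]
  · linarith [h3.1, h4.1]

lemma Cfg.vv_bd1 (h : Cfg L c κ δ D u) (hL : 0 ≤ L) (hν : ‖ν‖ = 1) {x : V} (hx : x ∈ ann δ 1) :
    |vv u ν c' x| ≤ L + 1 + |c'| := by
  have := h.vv_bd (c' := c') hL hν hx
  nlinarith [hx.2, norm_nonneg x]

lemma Cfg.exc_int (h : Cfg L c κ δ D u) (hL : 0 ≤ L) (hν : ‖ν‖ = 1) :
    IntegrableOn (fun x => vv u ν c' x ^ 2) (NN D u ∩ ann δ 1) := by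
  apply h.sol.int_bdd (ann_meas _ _) (ann_fin _ _)
  · exact ((vv_cont h.sol ν c').mono fun x hx => hx.1).pow 2
  · intro x hx hxa
    rw [abs_of_nonneg (sq_nonneg _), ← sq_abs]
    exact pow_le_pow_left₀ (abs_nonneg _) (h.vv_bd1 hL hν hxa) 2

/-- lower bound for the excess from a set where `v` is large -/
lemma Cfg.exc_lower (h : Cfg L c κ δ D u) (hL : 0 ≤ L) (hν : ‖ν‖ = 1) {S : Set V}
    (hS : MeasurableSet S) (hSa : S ⊆ ann δ 1) {m : ℝ} (hm : 0 ≤ m)
    (hv : ∀ x ∈ NN D u, x ∈ S → m ≤ |vv u ν c' x|) :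
    m ^ 2 * (volume : Measure V).real (NN D u ∩ S) ≤ exc δ D u ν c' := by
  have hfin : volume (NN D u ∩ S) < ⊤ :=
    (measure_mono (inter_subset_right.trans hSa)).trans_lt (ann_fin _ _)
  have hsub : NN D u ∩ S ⊆ NN D u ∩ ann δ 1 := inter_subset_inter_right _ hSa
  have hint := h.exc_int (c' := c') hL hν
  calc m ^ 2 * (volume : Measure V).real (NN D u ∩ S)
      = ∫ x in NN D u ∩ S, m ^ 2 := by simp [mul_comm, Measure.real]
    _ ≤ ∫ x in NN D u ∩ S, vv u ν c' x ^ 2 := by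
        apply setIntegral_mono_on (integrableOn_const (hs := hfin.ne)) (hint.mono_set hsub)
          (h.sol.meas_NN.inter hS)
        intro x hx
        rw [← sq_abs (vv u ν c' x)]
        exact pow_le_pow_left₀ hm (hv x hx.1 hx.2) 2
    _ ≤ exc δ D u ν c' := by
        unfold exc
        apply setIntegral_mono_set hint
        · filter_upwards with x
          exact sq_nonneg _
        · exact hsub.eventuallyLE

end cfg

end

end Pool.Agent.D0H33.FC
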