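import Mathlib
import Pool.Agent.D0H33.FC.C08
import Pool.Agent.D0H33.FB.A10

set_option autoImplicit false

open Set Metric Filter Topology MeasureTheory
open ExtStar (lap)
open Pool.Agent.D0H33.FB

namespace Pool.Agent.D0H33.FC

noncomputable section

variable {D : Set V} {u : V → ℝ}

/-- the axis is close to the plane -/
lemma height_c (L c κ : ℝ) (hL : 1 ≤ L) (hc : 0 < c) (hκ : 1 ≤ κ) : ∃ M ε : ℝ, 0 < M ∧ 0 < ε ∧
    ∀ (δ : ℝ) (D : Set V) (u : V → ℝ) (ν : V) (c' : ℝ), Cfg L c κ δ D u → ‖ν‖ = 1 →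
      exc δ D u ν c' + δ ≤ ε → ∀ z : ℝ, |z| ≤ 7 / 8 →
        |inner ℝ ν (z • ax) + c'| ^ 5 ≤ M * (exc δ D u ν c' + δ) := by
  set a := 1 / (8 * (L + 1)) with ha
  have ha0 : 0 < a := by positivity
  have haL : 8 * (L + 1) * a = 1 := by rw [ha]; field_simp
  refine ⟨(κ / a) ^ 5 + 4 / (c * a ^ 3), min (min 1 (c / 32768)) (1 / (32 * κ)), by positivity,
    by positivity, ?_⟩
  intro δ D u ν c' h hν hE z hz
  set E := exc δ D u ν c' + δ with hEdef
  have hexc := exc_nonneg δ D u ν c'
  have hδ := h.δ0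
  have hE1 : E ≤ 1 := hE.trans ((min_le_left _ _).trans (min_le_left _ _))
  have hE2 : E ≤ c / 32768 := hE.trans ((min_le_left _ _).trans (min_le_right _ _))
  have hE3 : E ≤ 1 / (32 * κ) := hE.trans (min_le_right _ _)
  have hδE : δ ≤ E := by linarith
  have hexcE : exc δ D u ν c' ≤ E := by linarith
  have hE0 : 0 < E := by linarith
  set t := |inner ℝ ν (z • ax) + c'| with ht
  have ht0 : 0 ≤ t := abs_nonneg _
  have hzn : ‖z • ax‖ ≤ 7 / 8 := by rw [norm_smul, ax_norm, mul_one, Real.norm_eq_abs]; exact hz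
  have lower : ∀ r : ℝ, κ * δ ≤ r → r ≤ 1 / 16 → (L + 1) * r ≤ t / 2 →
      (t / 2) ^ 2 * (c * r ^ 3) ≤ E := by
    intro r hr1 hr2 hr3
    have hr0 : 0 < r := lt_of_lt_of_le (by positivity) hr1
    have hsub : loc z (r / κ) r ⊆ ann δ 1 := by
      intro x hx
      refine ⟨lt_of_le_of_lt ?_ hx.1, ?_⟩
      · rw [le_div_iff₀ (by positivity)]
        linarith
      · have h1 := hx.2
        have h2 : ‖x‖ ≤ ‖z • ax‖ + ‖x - z • ax‖ := by
          have := norm_add_le (z • ax) (x - z • ax)
          rwa [add_sub_cancel] at this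
        linarith
    have h1 := h.exc_lower (c' := c') (by linarith) hν (loc_meas _ _ _) hsub (m := t / 2)
      (by positivity) (by
        intro x hx hxa
        have h2 := h.bd x (hsub hxa).1 (hsub hxa).2
        have h3 := hx.2
        have h4 := abs_le.1 (abs_real_inner_le_norm ν (x - z • ax))
        rw [hν, one_mul] at h4
        have h5 : ‖x - z • ax‖ ≤ r := hxa.2.le
        have h50 : Nx x ≤ ‖x - z • ax‖ := by
          have e : x = z • ax + (x - z • ax) := by abel
          have h51 := Nx_add_ax z (x - z • ax)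
          rw [← e] at h51
          rw [h51]; exact Nx_le _
        have h6 : |u x - inner ℝ ν (x - z • ax)| ≤ (L + 1) * r := by
          rw [abs_le]
          constructor <;> nlinarith [h4.1, h4.2, norm_nonneg (x - z • ax), Nx_nonneg x]
        have h7 : t ≤ |vv u ν c' x| + |u x - inner ℝ ν (x - z • ax)| := by
          have : inner ℝ ν (z • ax) + c' = (u x - inner ℝ ν (x - z • ax)) - vv u ν c' x := by
            unfold vv; rw [inner_sub_right]; ring
          rw [ht]
          calc |inner ℝ ν (z • ax) + c'| = |(u x - inner ℝ ν (x - z • ax)) - vv u ν c' x| := by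
                rw [← this]
            _ ≤ |u x - inner ℝ ν (x - z • ax)| + |vv u ν c' x| := abs_sub _ _
            _ = _ := by ring
        linarith)
    refine le_trans ?_ (h1.trans hexcE)
    exact mul_le_mul_of_nonneg_left (h.dens z r hz hr1 hr2) (by positivity)
  have hE5 : δ ^ 5 ≤ E := by
    have : δ ^ 5 ≤ δ ^ 1 := pow_le_pow_of_le_one hδ.le (by linarith) (by norm_num)
    rw [pow_one] at this
    linarith
  by_cases hA : a * t ≤ 1 / 16
  · by_cases hB : a * t < κ * δ
    · have h1 : t ≤ κ / a * δ := by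
        rw [div_mul_eq_mul_div, le_div_iff₀ ha0]
        linarith
      calc t ^ 5 ≤ (κ / a * δ) ^ 5 := pow_le_pow_left₀ ht0 h1 5
        _ = (κ / a) ^ 5 * δ ^ 5 := by ring
        _ ≤ (κ / a) ^ 5 * E := by gcongr
        _ ≤ ((κ / a) ^ 5 + 4 / (c * a ^ 3)) * E := by
            have : 0 ≤ 4 / (c * a ^ 3) * E := by positivity
            linarith
    · push Not at hB
      have h1 := lower (a * t) hB hA (by nlinarith)
      have h2 : t ^ 5 ≤ 4 / (c * a ^ 3) * E := by
        rw [div_mul_eq_mul_div, le_div_iff₀ (by positivity)]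
        nlinarith
      have : 0 ≤ (κ / a) ^ 5 * E := by positivity
      linarith
  · exfalso
    push Not at hA
    have h0 : (L + 1) / 2 ≤ t := by
      have : (L + 1) / 2 * a = 1 / 16 := by linarith
      by_contra hcon
      push Not at hcon
      have := mul_lt_mul_of_pos_right hcon ha0
      linarith
    have h1 := lower (1 / 16) (by
      have : κ * δ ≤ κ * (1 / (32 * κ)) := by gcongr; linarith
      have e : κ * (1 / (32 * κ)) = 1 / 32 := by field_simp
      linarith) (le_refl _) (by linarith)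
    have h2 : (1 / 2 : ℝ) ^ 2 ≤ (t / 2) ^ 2 := by
      apply pow_le_pow_left₀ (by norm_num)
      linarith
    have h3 : (1 / 2 : ℝ) ^ 2 * (c * (1 / 16) ^ 3) ≤ E :=
      le_trans (mul_le_mul_of_nonneg_right h2 (by positivity)) h1
    norm_num at h3
    linarith

/-- the free boundary is close to a plane -/
lemma height_F (L c κ : ℝ) (hL : 1 ≤ L) (hc : 0 < c) (hκ : 1 ≤ κ) : ∃ M ε : ℝ, 1 ≤ M ∧ 0 < ε ∧
    ∀ (δ : ℝ) (D : Set V) (u : V → ℝ) (ν : V) (c' : ℝ), Cfg L c κ δ D u → ‖ν‖ = 1 →
      exc δ D u ν c' + δ ≤ ε →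
      (∀ z : ℝ, |z| ≤ 7 / 8 → |inner ℝ ν (z • ax) + c'| ^ 5 ≤ M * (exc δ D u ν c' + δ)) ∧
      ∀ p ∈ FF D u, δ < Nx p → ‖p‖ ≤ 7 / 8 →
        |inner ℝ ν p + c'| ^ 5 ≤ M * (exc δ D u ν c' + δ) := by
  obtain ⟨M1, ε1, hM1, hε1, hc1⟩ := height_c L c κ hL hc hκ
  obtain ⟨cd, hcd, hdens⟩ := density L (by linarith)
  set a := 1 / (8 * (L + 1)) with ha
  have ha0 : 0 < a := by positivity
  have haL : 8 * (L + 1) * a = 1 := by rw [ha]; field_simp
  refine ⟨1 + M1 + 512 * (M1 + 1) + 4 / (cd * a ^ 3), min ε1 (min 1 (cd / 32768)),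
    by have : 0 ≤ 4 / (cd * a ^ 3) := by positivity
       linarith, by positivity, ?_⟩
  intro δ D u ν c' h hν hE
  have hcc := hc1 δ D u ν c' h hν (hE.trans (min_le_left _ _))
  set E := exc δ D u ν c' + δ with hEdef
  have hexc := exc_nonneg δ D u ν c'
  have hδ := h.δ0
  have hE1 : E ≤ 1 := hE.trans ((min_le_right _ _).trans (min_le_left _ _))
  have hE2 : E ≤ cd / 32768 := hE.trans ((min_le_right _ _).trans (min_le_right _ _))
  have hδE : δ ≤ E := by linarith
  have hexcE : exc δ D u ν c' ≤ E := by linarith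
  have hE0 : 0 < E := by linarith
  have hq : 0 ≤ 4 / (cd * a ^ 3) * E := by positivity
  refine ⟨fun z hz => (hcc z hz).trans (by nlinarith), ?_⟩
  intro p hp hp1 hp2
  set t := |inner ℝ ν p + c'| with ht
  have ht0 : 0 ≤ t := abs_nonneg _
  set r := min (a * t) (1 / 16) with hr
  have hr1 : r ≤ a * t := min_le_left _ _
  have hr2 : r ≤ 1 / 16 := min_le_right _ _
  have hδ5 : δ ^ 5 ≤ E := by
    have : δ ^ 5 ≤ δ ^ 1 := pow_le_pow_of_le_one hδ.le (by linarith) (by norm_num)
    rw [pow_one] at this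
    linarith
  set zp : ℝ := inner ℝ ax p with hzp
  have hzp1 : |zp| ≤ 7 / 8 := (ax_inner_le p).trans hp2
  have hcz := hcc zp hzp1
  set cz := inner ℝ ν (zp • ax) + c' with hcz'
  by_cases hA : Nx p < δ + 2 * r
  · have h1 := inner_perp hν p
    rw [← hzp] at h1
    have h2 : t ≤ Nx p + |cz| := by
      have e : inner ℝ ν p + c' = (inner ℝ ν p - inner ℝ ν (zp • ax)) + cz := by rw [hcz']; ring
      rw [ht, e]
      exact (abs_add_le _ _).trans (by linarith)
    have h3 : 16 * a ≤ 1 := by nlinarith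
    have h4 : t ≤ 2 * (|cz| + δ) := by nlinarith
    calc t ^ 5 ≤ (2 * (|cz| + δ)) ^ 5 := pow_le_pow_left₀ ht0 h4 5
      _ = 32 * (|cz| + δ) ^ 5 := by ring
      _ ≤ 32 * (16 * (|cz| ^ 5 + δ ^ 5)) := by
          gcongr
          exact pow5_add (abs_nonneg _) hδ.le
      _ ≤ 32 * (16 * (M1 * E + E)) := by gcongr
      _ ≤ (1 + M1 + 512 * (M1 + 1) + 4 / (cd * a ^ 3)) * E := by nlinarith
  · push Not at hA
    rcases eq_or_lt_of_le ht0 with ht00 | htpos
    · rw [← ht00]
      have : 0 ≤ (1 + M1 + 512 * (M1 + 1) + 4 / (cd * a ^ 3)) * E := by positivity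
      simpa using this
    have hr0 : 0 < r := lt_min (by positivity) (by norm_num)
    have hsub : closedBall p r ⊆ ann δ 1 := by
      intro x hx
      rw [mem_closedBall, dist_eq_norm] at hx
      have h1 : Nx p ≤ Nx x + ‖x - p‖ := by
        have := Nx_tri p x
        rwa [norm_sub_rev] at this
      have h2 : ‖x‖ ≤ ‖p‖ + ‖x - p‖ := by
        have := norm_add_le p (x - p)
        rwa [add_sub_cancel] at this
      exact ⟨by linarith, by linarith⟩
    have hsubD : closedBall p r ⊆ D := fun x hx => h.sub x (hsub hx).1 (hsub hx).2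
    have hLip : ∀ x ∈ NN D u, x ∈ closedBall p r → ‖gr u x‖ ≤ L := fun x hx hxb =>
      h.lip x hx (hsub hxb).1 (hsub hxb).2
    have hd := hdens D u p r h.sol hr0 hsubD hLip (frontier_subset_closure hp.2)
    have hup : u p = 0 := h.sol.zero_of_FF hp
    have h1 := h.exc_lower (c' := c') (by linarith) hν (S := ball p r) measurableSet_ball
      (ball_subset_closedBall.trans hsub) (m := t / 2) (by positivity) (by
        intro x hx hxa
        have hxb := ball_subset_closedBall hxa
        have h2 := h.sol.lip_convex (by linarith) (convex_closedBall p r) hsubD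
          (fun z hz hzb => hLip z hz hzb) hxb (mem_closedBall_self hr0.le)
        rw [hup, sub_zero] at h2
        have h3 : ‖x - p‖ ≤ r := by rw [mem_closedBall, dist_eq_norm] at hxb; exact hxb
        have h4 := abs_real_inner_le_norm ν (x - p)
        rw [hν, one_mul] at h4
        have h7 : t ≤ |vv u ν c' x| + (|u x| + |inner ℝ ν (x - p)|) := by
          have e : inner ℝ ν p + c' = (u x - inner ℝ ν (x - p)) - vv u ν c' x := by
            unfold vv; rw [inner_sub_right]; ring
          rw [ht]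
          calc |inner ℝ ν p + c'| = |(u x - inner ℝ ν (x - p)) - vv u ν c' x| := by rw [← e]
            _ ≤ |u x - inner ℝ ν (x - p)| + |vv u ν c' x| := abs_sub _ _
            _ ≤ (|u x| + |inner ℝ ν (x - p)|) + |vv u ν c' x| := by
                have := abs_sub (u x) (inner ℝ ν (x - p))
                linarith
            _ = _ := by ring
        have h8 : |u x| + |inner ℝ ν (x - p)| ≤ (L + 1) * r := by nlinarith
        have h9 : (L + 1) * r ≤ t / 8 := by nlinarith
        linarith)
    have h2 : (t / 2) ^ 2 * (cd * r ^ 3) ≤ E :=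
      (mul_le_mul_of_nonneg_left hd (by positivity)).trans (h1.trans hexcE)
    by_cases hB : a * t ≤ 1 / 16
    · have hre : r = a * t := min_eq_left hB
      rw [hre] at h2
      have h3 : t ^ 5 ≤ 4 / (cd * a ^ 3) * E := by
        rw [div_mul_eq_mul_div, le_div_iff₀ (by positivity)]
        nlinarith
      have : 0 ≤ (1 + M1 + 512 * (M1 + 1)) * E := by positivity
      linarith
    · exfalso
      push Not at hB
      have hre : r = 1 / 16 := min_eq_right hB.le
      rw [hre] at h2
      have h0 : 1 ≤ t := by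
        by_contra hcon
        push Not at hcon
        nlinarith
      have h3 : (1 / 2 : ℝ) ^ 2 ≤ (t / 2) ^ 2 := by
        apply pow_le_pow_left₀ (by norm_num)
        linarith
      have h4 : (1 / 2 : ℝ) ^ 2 * (cd * (1 / 16) ^ 3) ≤ E :=
        le_trans (mul_le_mul_of_nonneg_right h3 (by positivity)) h2
      norm_num at h4
      linarith


end

end Pool.Agent.D0H33.FC
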