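import Mathlib
import Pool.Agent.D0H33.FC.C11
import Pool.Agent.D0H33.FB.A13

set_option autoImplicit false

open Set Metric Filter Topology MeasureTheory
open ExtStar (lap)
open Pool.Agent.D0H33.FB

namespace Pool.Agent.D0H33.FC

noncomputable section

variable {D : Set V} {u : V → ℝ}

/-- cut off near the axis -/
def hol (δ : ℝ) (x : V) : ℝ := chi (Nx x ^ 2 / (4 * δ ^ 2))

lemma Nxsq_smooth {n : WithTop ℕ∞} : ContDiff ℝ n (fun x : V => Nx x ^ 2) := by
  have : (fun x : V => Nx x ^ 2) = fun x : V => ‖x - (inner ℝ ax x) • ax‖ ^ 2 := rfl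
  rw [this]
  have h1 : ContDiff ℝ n (fun x : V => x - (inner ℝ ax x) • ax) :=
    contDiff_id.sub ((contDiff_const.inner ℝ contDiff_id).smul contDiff_const)
  exact (contDiff_norm_sq ℝ).comp h1

lemma hol_smooth (δ : ℝ) {n : ℕ∞} : ContDiff ℝ n (hol δ) := by
  unfold hol
  exact chi_smooth.comp (Nxsq_smooth.div_const _)

lemma hol_nonneg (δ : ℝ) (x : V) : 0 ≤ hol δ x := chi_nonneg _

lemma hol_le_one (δ : ℝ) (x : V) : hol δ x ≤ 1 := chi_le_one _

lemma hol_zero {δ : ℝ} (hδ : 0 < δ) {x : V} (hx : Nx x ≤ 2 * δ) : hol δ x = 0 := by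
  unfold hol
  apply chi_zero
  rw [div_le_one (by positivity)]
  have := pow_le_pow_left₀ (Nx_nonneg x) hx 2
  linarith

lemma hol_one {δ : ℝ} (hδ : 0 < δ) {x : V} (hx : 3 * δ ≤ Nx x) : hol δ x = 1 := by
  unfold hol
  apply chi_one
  rw [le_div_iff₀ (by positivity)]
  have := pow_le_pow_left₀ (by positivity) hx 2
  nlinarith [sq_nonneg δ]

lemma hol_grad : ∃ C : ℝ, 0 < C ∧ ∀ (δ : ℝ), 0 < δ → ∀ x : V,
    ‖fderiv ℝ (hol δ) x‖ ≤ C / δ ∧ (3 * δ ≤ Nx x → fderiv ℝ (hol δ) x = 0) := by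
  obtain ⟨C, hC, hd⟩ := dchi_bd
  refine ⟨3 / 2 * C, by positivity, fun δ hδ x => ?_⟩
  have h1 : HasFDerivAt (fun x : V => Nx x ^ 2) (fderiv ℝ (fun x : V => Nx x ^ 2) x) x :=
    (Nxsq_smooth (n := 1)).differentiable (by norm_num) x |>.hasFDerivAt
  have hb : ∀ w : V, |fderiv ℝ (fun x : V => Nx x ^ 2) x w| ≤ 2 * Nx x * ‖w‖ := by
    intro w
    have h2 : HasFDerivAt (fun x : V => x - (inner ℝ ax x) • ax)
        (ContinuousLinearMap.id ℝ V - (innerSL ℝ ax).smulRight ax) x :=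
      (hasFDerivAt_id x).sub ((innerSL ℝ ax).hasFDerivAt.smul_const ax)
    have h3 : HasFDerivAt (fun x : V => ‖x - (inner ℝ ax x) • ax‖ ^ 2) _ x := h2.norm_sq
    have h4 : fderiv ℝ (fun x : V => Nx x ^ 2) x w =
        2 * inner ℝ (x - (inner ℝ ax x) • ax) (w - (inner ℝ ax w) • ax) := by
      have e : (fun x : V => Nx x ^ 2) = fun x : V => ‖x - (inner ℝ ax x) • ax‖ ^ 2 := rfl
      rw [e, h3.fderiv]
      simp [inner_sub_left, inner_sub_right, inner_smul_left, inner_smul_right]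
      ring
    rw [h4, abs_mul, abs_of_pos (by norm_num : (0:ℝ) < 2), mul_assoc]
    apply mul_le_mul_of_nonneg_left _ (by norm_num)
    refine (abs_real_inner_le_norm _ _).trans ?_
    exact mul_le_mul_of_nonneg_left (Nx_le w) (norm_nonneg _)
  have h5 : HasFDerivAt (fun x : V => Nx x ^ 2 / (4 * δ ^ 2))
      ((4 * δ ^ 2)⁻¹ • fderiv ℝ (fun x : V => Nx x ^ 2) x) x := by
    have := h1.mul_const (4 * δ ^ 2)⁻¹
    simpa [div_eq_mul_inv] using this
  have h6 : HasFDerivAt (hol δ) _ x := (chi_diff (Nx x ^ 2 / (4 * δ ^ 2))).hasDerivAt.comp_hasFDerivAt x h5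
  rw [h6.fderiv]
  constructor
  · apply ContinuousLinearMap.opNorm_le_bound _ (by positivity)
    intro w
    rw [_root_.smul_apply, _root_.smul_apply, smul_eq_mul, smul_eq_mul, Real.norm_eq_abs, abs_mul,
      abs_mul, abs_of_pos (by positivity : 0 < (4 * δ ^ 2)⁻¹)]
    by_cases h7 : 2 ≤ Nx x ^ 2 / (4 * δ ^ 2)
    · rw [dchi_zero' h7, abs_zero, zero_mul]; positivity
    · push Not at h7
      rw [div_lt_iff₀ (by positivity)] at h7
      have h8 : Nx x ≤ 3 * δ := by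
        by_contra hn
        push Not at hn
        have := pow_le_pow_left₀ (by positivity) hn.le 2
        nlinarith [sq_nonneg δ]
      have h9 := Nx_nonneg x
      calc |deriv chi (Nx x ^ 2 / (4 * δ ^ 2))| * ((4 * δ ^ 2)⁻¹ * |fderiv ℝ (fun x => Nx x ^ 2) x w|)
          ≤ C * ((4 * δ ^ 2)⁻¹ * (2 * (3 * δ) * ‖w‖)) := by
            apply mul_le_mul (hd _) _ (by positivity) hC.le
            apply mul_le_mul_of_nonneg_left _ (by positivity)
            exact (hb w).trans (by gcongr)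
        _ = 3 / 2 * C / δ * ‖w‖ := by field_simp; ring
  · intro h7
    rw [dchi_zero' (by
      rw [le_div_iff₀ (by positivity)]
      have := pow_le_pow_left₀ (by positivity) h7 2
      nlinarith [sq_nonneg δ]), zero_smul]

/-- the volume of a thin cylinder -/
lemma tube_vol : ∃ C : ℝ, 0 < C ∧ ∀ r : ℝ, 0 < r → r ≤ 3 →
    (volume : Measure V).real {x | Nx x ≤ r ∧ ‖x‖ < 1} ≤ C * r ^ 2 := by
  have hom := om_pos
  refine ⟨64 * om, by positivity, fun r hr hr3 => ?_⟩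
  set n : ℕ := ⌊2 / r⌋₊ + 1 with hn
  have hsub : {x : V | Nx x ≤ r ∧ ‖x‖ < 1} ⊆
      ⋃ k ∈ Finset.range n, closedBall ((-1 + (k : ℝ) * r) • ax) (2 * r) := by
    intro x hx
    set z : ℝ := inner ℝ ax x with hz
    have hz1 := abs_le.1 ((ax_inner_le x).trans hx.2.le)
    rw [← hz] at hz1
    have h0 : 0 ≤ (z + 1) / r := div_nonneg (by linarith) hr.le
    set k := ⌊(z + 1) / r⌋₊ with hk
    have hk1 : (k : ℝ) ≤ (z + 1) / r := Nat.floor_le h0
    have hk2 : (z + 1) / r < k + 1 := Nat.lt_floor_add_one _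
    rw [le_div_iff₀ hr] at hk1
    rw [div_lt_iff₀ hr] at hk2
    have hkn : k < n := by
      rw [hn, Nat.lt_succ_iff]
      apply Nat.floor_le_floor
      exact div_le_div_of_nonneg_right (by linarith) hr.le
    rw [mem_iUnion₂]
    refine ⟨k, Finset.mem_range.2 hkn, ?_⟩
    rw [mem_closedBall, dist_eq_norm]
    have e : x - (-1 + (k : ℝ) * r) • ax = (x - z • ax) + (z - (-1 + (k : ℝ) * r)) • ax := by
      module
    rw [e]
    refine (norm_add_le _ _).trans ?_
    rw [norm_smul, ax_norm, mul_one, Real.norm_eq_abs]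
    have h1 : ‖x - z • ax‖ ≤ r := hx.1
    have h2 : |z - (-1 + (k : ℝ) * r)| ≤ r := abs_le.2 ⟨by linarith, by linarith⟩
    linarith
  have hfin : ∀ k ∈ Finset.range n,
      (volume : Measure V) (closedBall ((-1 + (k : ℝ) * r) • ax) (2 * r)) ≠ ⊤ := fun k _ =>
    measure_closedBall_lt_top.ne
  have hfinU : (volume : Measure V) (⋃ k ∈ Finset.range n,
      closedBall ((-1 + (k : ℝ) * r) • ax) (2 * r)) ≠ ⊤ := by
    apply ne_top_of_le_ne_top _ (measure_biUnion_finset_le _ _)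
    exact (ENNReal.sum_lt_top.2 fun k hk => (hfin k hk).lt_top).ne
  refine (measureReal_mono hsub hfinU).trans ?_
  refine (measureReal_biUnion_finset_le _ _).trans ?_
  have h1 : ∀ k ∈ Finset.range n, (volume : Measure V).real
      (closedBall ((-1 + (k : ℝ) * r) • ax) (2 * r)) = om * (2 * r) ^ 3 := fun k _ =>
    vol_closedBall _ (by positivity)
  rw [Finset.sum_congr rfl h1, Finset.sum_const, Finset.card_range, nsmul_eq_mul]
  have h2 : (n : ℝ) ≤ 2 / r + 1 := by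
    rw [hn, Nat.cast_add, Nat.cast_one]
    have := Nat.floor_le (show 0 ≤ 2 / r by positivity)
    linarith
  calc (n : ℝ) * (om * (2 * r) ^ 3) ≤ (2 / r + 1) * (om * (2 * r) ^ 3) := by gcongr
    _ = om * (16 + 8 * r) * r ^ 2 := by field_simp; ring
    _ ≤ 64 * om * r ^ 2 := by
      have : om * (16 + 8 * r) ≤ 64 * om := by nlinarith
      exact mul_le_mul_of_nonneg_right this (by positivity)

lemma tube_meas (r : ℝ) : MeasurableSet {x : V | Nx x ≤ r ∧ ‖x‖ < 1} :=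
  (isClosed_le Nx_cont continuous_const).measurableSet.inter
    (isOpen_lt continuous_norm continuous_const).measurableSet

lemma tube_fin (r : ℝ) : (volume : Measure V) {x : V | Nx x ≤ r ∧ ‖x‖ < 1} < ⊤ := by
  have : {x : V | Nx x ≤ r ∧ ‖x‖ < 1} ⊆ ball (0 : V) 1 := fun x hx => by
    rw [mem_ball, dist_zero_right]; exact hx.2
  exact (measure_mono this).trans_lt measure_ball_lt_top

/-- integrals of the gradient of the cut off -/
lemma hol_int : ∃ C : ℝ, 0 < C ∧ ∀ (δ : ℝ) (S : Set V), 0 < δ → δ ≤ 1 → MeasurableSet S →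
    S ⊆ ball (0 : V) 1 →
    IntegrableOn (fun x => ‖fderiv ℝ (hol δ) x‖) S ∧
    ∫ x in S, ‖fderiv ℝ (hol δ) x‖ ≤ C * δ := by
  obtain ⟨C, hC, hgr⟩ := hol_grad
  obtain ⟨Ct, hCt, htube⟩ := tube_vol
  refine ⟨C * (Ct * 9), by positivity, ?_⟩
  intro δ S hδ hδ1 hS hSb
  have hSf : (volume : Measure V) S < ⊤ := (measure_mono hSb).trans_lt measure_ball_lt_top
  have hcont : Continuous (fun x => ‖fderiv ℝ (hol δ) x‖) :=
    ((hol_smooth δ (n := 1)).continuous_fderiv (by norm_num)).norm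
  have hi : IntegrableOn (fun x => ‖fderiv ℝ (hol δ) x‖) S := by
    have h0 : IntegrableOn (fun _ : V => C / δ) S := integrableOn_const (hs := hSf.ne)
    refine h0.mono' hcont.aestronglyMeasurable ?_
    filter_upwards with x
    rw [norm_norm]
    exact (hgr δ hδ x).1
  refine ⟨hi, ?_⟩
  set T : Set V := {x : V | Nx x ≤ 3 * δ ∧ ‖x‖ < 1} with hT
  have hz : ∀ x ∈ S \ (S ∩ T), ‖fderiv ℝ (hol δ) x‖ = 0 := by
    intro x hx
    have hxT : x ∉ T := fun hn => hx.2 ⟨hx.1, hn⟩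
    have hx1 : ‖x‖ < 1 := by
      have := hSb hx.1
      rwa [mem_ball, dist_zero_right] at this
    have h3 : 3 * δ ≤ Nx x := by
      by_contra hn
      push Not at hn
      exact hxT ⟨hn.le, hx1⟩
    rw [(hgr δ hδ x).2 h3, norm_zero]
  rw [setIntegral_eq_of_subset_of_forall_sdiff_eq_zero hS inter_subset_left hz]
  have hSTf : (volume : Measure V) (S ∩ T) < ⊤ := (measure_mono inter_subset_left).trans_lt hSf
  have h1 : ∫ x in S ∩ T, ‖fderiv ℝ (hol δ) x‖ ≤ ∫ x in S ∩ T, C / δ := by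
    apply setIntegral_mono_on (hi.mono_set inter_subset_left)
    · exact integrableOn_const (hs := hSTf.ne)
    · exact hS.inter (tube_meas _)
    · intro x _
      exact (hgr δ hδ x).1
  refine h1.trans ?_
  rw [setIntegral_const, smul_eq_mul]
  have h2 : (volume : Measure V).real (S ∩ T) ≤ Ct * (3 * δ) ^ 2 :=
    (measureReal_mono inter_subset_right (tube_fin _).ne).trans (htube (3 * δ) (by positivity) (by linarith))
  calc (volume : Measure V).real (S ∩ T) * (C / δ) ≤ Ct * (3 * δ) ^ 2 * (C / δ) :=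
        mul_le_mul_of_nonneg_right h2 (by positivity)
    _ = C * (Ct * 9) * δ := by field_simp; ring

/-- the compact sets carrying the test functions -/
def Kc (δ : ℝ) : Set V := {x | 2 * δ ≤ Nx x ∧ ‖x‖ ≤ 7 / 8}

lemma Kc_compact (δ : ℝ) : IsCompact (Kc δ) := by
  have h1 : IsClosed (Kc δ) :=
    (isClosed_le continuous_const Nx_cont).inter (isClosed_le continuous_norm continuous_const)
  have h2 : Kc δ ⊆ closedBall (0 : V) (7 / 8) := fun x hx => by
    rw [mem_closedBall, dist_zero_right]; exact hx.2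
  exact (isCompact_closedBall _ _).of_isClosed_subset h1 h2

lemma Kc_ann {δ : ℝ} (hδ : 0 < δ) : Kc δ ⊆ ann δ 1 := fun x hx =>
  ⟨by linarith [hx.1], by linarith [hx.2]⟩

section cfg

variable {L c κ δ : ℝ} {ν : V} {c' h : ℝ}

lemma Cfg.KcD (hc : Cfg L c κ δ D u) : Kc δ ⊆ D := fun x hx =>
  hc.sub x (Kc_ann hc.δ0 hx).1 (Kc_ann hc.δ0 hx).2

/-- smooth functions of compact support times the hole cut off are test functions -/
lemma Cfg.test (hc : Cfg L c κ δ D u) {P : V → ℝ} (hP : ContDiff ℝ 1 P)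
    (hP0 : ∀ x, 7 / 8 ≤ ‖x‖ → P x = 0) : TF D u (Kc δ) (fun x => P x * hol δ x) where
  toBF := BF.of_contDiff (Kc_compact δ) (hP.mul (hol_smooth δ (n := 1)))
  supp := fun x _ hx => by
    have : Nx x < 2 * δ ∨ 7 / 8 < ‖x‖ := by
      by_contra hn
      push Not at hn
      exact hx ⟨hn.1, hn.2⟩
    rcases this with h1 | h1
    · rw [hol_zero hc.δ0 h1.le, mul_zero]
    · rw [hP0 x h1.le, zero_mul]

lemma Cfg.a_le (hc : Cfg L c κ δ D u) (hν : ‖ν‖ = 1) {x : V} (hx : x ∈ NN D u) (hxa : x ∈ ann δ 1) :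
    ‖gr u x - ν‖ ≤ L + 1 := by
  have h1 := hc.lip x hx hxa.1 hxa.2
  have h2 := norm_sub_le (gr u x) ν
  rw [hν] at h2
  linarith

lemma Cfg.int_eq (hc : Cfg L c κ δ D u) {F : V → ℝ} (hF : ∀ x ∈ NN D u, x ∉ Kc δ → F x = 0) :
    ∫ x in NN D u, F x = ∫ x in NN D u ∩ ann δ 1, F x := by
  apply setIntegral_eq_of_subset_of_forall_sdiff_eq_zero hc.sol.meas_NN inter_subset_left
  intro x hx
  apply hF x hx.1
  intro hxK
  exact hx.2 ⟨hx.1, Kc_ann hc.δ0 hxK⟩

end cfg

lemma ann_ball {a b : ℝ} (hb : b ≤ 1) : ann a b ⊆ ball (0 : V) 1 := fun x hx => by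
  rw [mem_ball, dist_zero_right]
  exact lt_of_lt_of_le hx.2 hb

end

end Pool.Agent.D0H33.FC
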