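import Mathlib
import Pool.Agent.D0H33.FC.C12

set_option autoImplicit false

open Set Metric Filter Topology MeasureTheory
open ExtStar (lap)
open Pool.Agent.D0H33.FB

namespace Pool.Agent.D0H33.FC

noncomputable section

variable {D : Set V} {u : V → ℝ}

/-- thin cylinders -/
def tub (r : ℝ) : Set V := {x : V | Nx x ≤ r ∧ ‖x‖ < 1}

/-- energy estimate -/
theorem energy (L c κ : ℝ) (hL : 1 ≤ L) : ∃ C : ℝ, 0 < C ∧
    ∀ (δ : ℝ) (D : Set V) (u : V → ℝ) (ν : V) (c' h : ℝ), Cfg L c κ δ D u → ‖ν‖ = 1 →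
      Cln h δ D u ν c' →
      ∫ x in NN D u ∩ ann δ (3 / 4), ‖gr u x - ν‖ ^ 2 ≤ C * (exc δ D u ν c' + δ + h ^ 5) := by
  obtain ⟨Cc, hCc, hcut⟩ := cut_grad
  obtain ⟨Ch, hCh, hhol⟩ := hol_int
  obtain ⟨Ct, hCt, htube⟩ := tube_vol
  set P0 := 8 * Cc with hP0
  have hP00 : 0 < P0 := by positivity
  have hom := om_pos
  set C1 := 25 * P0 ^ 2 + (5 * (L + 2) * (L + 1) + 15 * (L + 1) ^ 2) * Ch +
    256 * (15 * P0) ^ 5 * (L + 1) ^ 2 * om with hC1
  refine ⟨2 * C1 + (L + 1) ^ 2 * (Ct * 9), by positivity, ?_⟩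
  intro δ D u ν c' h hc hν hcl
  have hδ := hc.δ0
  have hδ1 : δ ≤ 1 := by linarith [hcl.hδ, hcl.hs]
  have hh0 := hcl.h0
  have hh1 : h ≤ 1 := by linarith [hcl.hs]
  set φ := cut (0 : V) (3 / 4) (7 / 8) with hφ
  have hφs : ContDiff ℝ 1 φ := cut_smooth _ _ _ (n := 1)
  have hφ0 : ∀ x : V, 7 / 8 ≤ ‖x‖ → φ x = 0 := fun x hx =>
    cut_zero (by norm_num) (by norm_num) (by rwa [sub_zero])
  set χ : V → ℝ := fun x => φ x * hol δ x with hχ
  have hχT : TF D u (Kc δ) χ := hc.test hφs hφ0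
  have hχs : ContDiff ℝ 1 χ := hφs.mul (hol_smooth δ (n := 1))
  have hχ01 : ∀ x, 0 ≤ χ x ∧ χ x ≤ 1 := fun x => ⟨mul_nonneg (cut_nonneg _ _ _ _) (hol_nonneg _ _),
    mul_le_one₀ (cut_le_one _ _ _ _) (hol_nonneg _ _) (hol_le_one _ _)⟩
  have hχg : ∀ x, ‖fderiv ℝ χ x‖ ≤ P0 + ‖fderiv ℝ (hol δ) x‖ := by
    intro x
    have h1 : HasFDerivAt χ (φ x • fderiv ℝ (hol δ) x + hol δ x • fderiv ℝ φ x) x :=
      (hφs.differentiable (by norm_num) x).hasFDerivAt.mul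
        ((hol_smooth δ (n := 1)).differentiable (by norm_num) x).hasFDerivAt
    rw [h1.fderiv]
    refine (norm_add_le _ _).trans ?_
    rw [norm_smul, norm_smul, Real.norm_eq_abs, Real.norm_eq_abs,
      abs_of_nonneg (cut_nonneg _ _ _ _), abs_of_nonneg (hol_nonneg _ _)]
    have h2 : φ x * ‖fderiv ℝ (hol δ) x‖ ≤ ‖fderiv ℝ (hol δ) x‖ :=
      mul_le_of_le_one_left (norm_nonneg _) (cut_le_one _ _ _ _)
    have h3 : hol δ x * ‖fderiv ℝ φ x‖ ≤ ‖fderiv ℝ φ x‖ :=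
      mul_le_of_le_one_left (norm_nonneg _) (hol_le_one _ _)
    have h4 := (hcut 0 (3 / 4) (7 / 8) (by norm_num) (by norm_num) x).1
    have h5 : Cc / (7 / 8 - 3 / 4) = P0 := by rw [hP0]; norm_num; ring
    rw [h5] at h4
    linarith
  set f : V → ℝ := fun x => χ x ^ 5 with hf
  have hfT : TF D u (Kc δ) f :=
    { toBF := BF.of_contDiff (Kc_compact δ) (hχs.pow 5)
      supp := fun x hx hxK => by simp only [hf]; rw [hχT.supp x hx hxK]; norm_num }
  have hfg : ∀ x, fderiv ℝ f x = (5 * χ x ^ 4) • fderiv ℝ χ x := by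
    intro x
    have h1 : HasFDerivAt f ((5 * χ x ^ 4) • fderiv ℝ χ x) x := by
      have := (hχs.differentiable (by norm_num) x).hasFDerivAt.pow 5
      simpa using this
    exact h1.fderiv
  have hfn : ∀ x, ‖fderiv ℝ f x‖ = 5 * χ x ^ 4 * ‖fderiv ℝ χ x‖ := by
    intro x
    rw [hfg, norm_smul, Real.norm_eq_abs, abs_of_nonneg (by positivity)]
  have hf0 : ∀ x, 0 ≤ f x := fun x => pow_nonneg (hχ01 x).1 5
  have hca := hfT.cacc hc.sol (Kc_compact δ) hc.KcD (fun x _ => hf0 x) hν hh0 (c := c') (by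
    intro p hp hpK
    exact hcl.F p hp (Kc_ann hδ hpK).1 hpK.2)
  -- integrability
  have bA : BC D u (Kc δ) (fun x => f x * ‖gr u x - ν‖ ^ 2) :=
    hfT.toBC.mul ((hc.sol.a_cont ν).norm.pow 2) (hc.sol.a2_bd (Kc_compact δ) hc.KcD ν)
  have bB : BC D u (Kc δ) (fun x => ‖fderiv ℝ f x‖ * ‖gr u x - ν‖ ^ 2) :=
    (hfT.BC_norm hc.sol (Kc_compact δ)).mul ((hc.sol.a_cont ν).norm.pow 2)
      (hc.sol.a2_bd (Kc_compact δ) hc.KcD ν)
  have bC : BC D u (Kc δ) (fun x => |vv u ν c' x| * (‖fderiv ℝ f x‖ * ‖gr u x - ν‖)) := by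
    have b5 := ((hfT.BC_norm hc.sol (Kc_compact δ)).mul (hc.sol.a_cont ν).norm (by
      obtain ⟨C, hC⟩ := hc.sol.a_bd (Kc_compact δ) hc.KcD ν
      exact ⟨C, fun x hx hxK => by rw [abs_of_nonneg (norm_nonneg _)]; exact hC x hx hxK⟩)).mul
      (g := fun x => |vv u ν c' x|) (vv_BF hc.sol (Kc_compact δ) hc.KcD ν c').smooth.continuousOn.abs (by
      obtain ⟨C, hC⟩ := (vv_BF hc.sol (Kc_compact δ) hc.KcD ν c').bd
      exact ⟨C, fun x hx hxK => by rw [abs_abs]; exact (hC x hx hxK).1⟩)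
    have e : (fun x => |vv u ν c' x| * (‖fderiv ℝ f x‖ * ‖gr u x - ν‖)) =
      fun x => (‖fderiv ℝ f x‖ * ‖gr u x - ν‖) * |vv u ν c' x| := by funext x; ring
    rw [e]; exact b5
  have iA := (bA.integrable hc.sol (Kc_compact δ)).mono_set (inter_subset_left (t := ann δ 1))
  have iB := (bB.integrable hc.sol (Kc_compact δ)).mono_set (inter_subset_left (t := ann δ 1))
  have iC := (bC.integrable hc.sol (Kc_compact δ)).mono_set (inter_subset_left (t := ann δ 1))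
  rw [hc.int_eq bA.supp, hc.int_eq bB.supp, hc.int_eq bC.supp] at hca
  have hSm : MeasurableSet (NN D u ∩ ann δ 1) := hc.sol.meas_NN.inter (ann_meas _ _)
  have hSf : volume (NN D u ∩ ann δ 1) < ⊤ :=
    (measure_mono inter_subset_right).trans_lt (ann_fin _ _)
  obtain ⟨iZ, hZ⟩ := hhol δ (NN D u ∩ ann δ 1) hδ hδ1 hSm
    (inter_subset_right.trans (ann_ball (le_refl _)))
  have iv := hc.exc_int (c' := c') (by linarith) hν
  -- pointwise estimate
  set Z : V → ℝ := fun x => ‖fderiv ℝ (hol δ) x‖ with hZdef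
  set G : V → ℝ := fun x => 25 * P0 ^ 2 * vv u ν c' x ^ 2 +
    ((5 * (L + 2) * (L + 1) + 15 * (L + 1) ^ 2) * Z x +
      256 * (15 * P0) ^ 5 * (L + 1) ^ 2 * h ^ 5) with hG
  have iG : IntegrableOn G (NN D u ∩ ann δ 1) :=
    (iv.const_mul _).add ((iZ.const_mul _).add
      (integrableOn_const (hs := hSf.ne)))
  have pt : ∀ x ∈ NN D u ∩ ann δ 1, |vv u ν c' x| * (‖fderiv ℝ f x‖ * ‖gr u x - ν‖) +
      3 * h * (‖fderiv ℝ f x‖ * ‖gr u x - ν‖ ^ 2) ≤
      1 / 2 * (f x * ‖gr u x - ν‖ ^ 2) + G x := by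
    intro x hx
    have hA := hc.a_le hν hx.1 hx.2
    have hv := hc.vv_bd1 (c' := c') (by linarith) hν hx.2
    set A := ‖gr u x - ν‖ with hAdef
    set v := |vv u ν c' x| with hvdef
    have hv2 : vv u ν c' x ^ 2 = v ^ 2 := by rw [hvdef, sq_abs]
    have hA0 : 0 ≤ A := norm_nonneg _
    have hv0 : 0 ≤ v := abs_nonneg _
    have hZ0 : 0 ≤ Z x := norm_nonneg _
    have hg := hχg x
    have hg0 : 0 ≤ ‖fderiv ℝ χ x‖ := norm_nonneg _
    set X := ‖fderiv ℝ χ x‖ with hX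
    have hχ0 := (hχ01 x).1
    have hχ1 := (hχ01 x).2
    set t := χ x with htdef
    have hvL : v ≤ L + 2 := by
      have := hcl.hc
      linarith [hcl.hs]
    rw [hfn]
    simp only [hG, hf]
    rw [hv2]
    have ht3 : t ^ 3 ≤ 1 := pow_le_one₀ hχ0 hχ1
    have ht4 : t ^ 4 ≤ 1 := pow_le_one₀ hχ0 hχ1
    -- first term
    have s1 : v * (5 * t ^ 4 * X * A) ≤ 1 / 4 * (t ^ 5 * A ^ 2) + 25 * (P0 ^ 2 * v ^ 2) +
        5 * (L + 2) * (L + 1) * Z x := by
      have e0 : v * (5 * t ^ 4 * X * A) ≤ v * (5 * t ^ 4 * (P0 + Z x) * A) := by gcongr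
      have e1 : v * (5 * t ^ 4 * (P0 + Z x) * A) =
          t ^ 3 * (2 * (t * A / 2) * (5 * (v * P0))) + 5 * (v * A) * (t ^ 4 * Z x) := by ring
      have e2 : 2 * (t * A / 2) * (5 * (v * P0)) ≤ (t * A / 2) ^ 2 + (5 * (v * P0)) ^ 2 :=
        two_mul_le_add_sq _ _
      have e3 : t ^ 3 * (2 * (t * A / 2) * (5 * (v * P0))) ≤
          1 / 4 * (t ^ 5 * A ^ 2) + 25 * (P0 ^ 2 * v ^ 2) := by
        calc t ^ 3 * (2 * (t * A / 2) * (5 * (v * P0)))
            ≤ t ^ 3 * ((t * A / 2) ^ 2 + (5 * (v * P0)) ^ 2) :=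
              mul_le_mul_of_nonneg_left e2 (by positivity)
          _ = 1 / 4 * (t ^ 5 * A ^ 2) + t ^ 3 * (25 * (P0 ^ 2 * v ^ 2)) := by ring
          _ ≤ 1 / 4 * (t ^ 5 * A ^ 2) + 1 * (25 * (P0 ^ 2 * v ^ 2)) := by gcongr
          _ = _ := by ring
      have e4 : 5 * (v * A) * (t ^ 4 * Z x) ≤ 5 * ((L + 2) * (L + 1)) * (1 * Z x) := by gcongr
      linarith
    -- second term
    have s4 : 15 * h * P0 * t ^ 4 ≤ t ^ 5 / 4 + 256 * (15 * h * P0) ^ 5 :=
      young5 (by positivity) hχ0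
    have hA2 : A ^ 2 ≤ (L + 1) ^ 2 := pow_le_pow_left₀ hA0 hA 2
    have s5 : 3 * h * (5 * t ^ 4 * X * A ^ 2) ≤ 1 / 4 * (t ^ 5 * A ^ 2) +
        256 * (15 * P0) ^ 5 * (L + 1) ^ 2 * h ^ 5 + 15 * (L + 1) ^ 2 * Z x := by
      calc 3 * h * (5 * t ^ 4 * X * A ^ 2) ≤ 3 * h * (5 * t ^ 4 * (P0 + Z x) * A ^ 2) := by gcongr
        _ = (15 * h * P0 * t ^ 4) * A ^ 2 + 15 * (h * t ^ 4) * Z x * A ^ 2 := by ring
        _ ≤ (t ^ 5 / 4 + 256 * (15 * h * P0) ^ 5) * A ^ 2 + 15 * (1 * 1) * Z x * A ^ 2 := by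
            gcongr
        _ = 1 / 4 * (t ^ 5 * A ^ 2) + 256 * (15 * P0) ^ 5 * h ^ 5 * A ^ 2 + 15 * Z x * A ^ 2 := by
            ring
        _ ≤ 1 / 4 * (t ^ 5 * A ^ 2) + 256 * (15 * P0) ^ 5 * h ^ 5 * (L + 1) ^ 2 +
            15 * Z x * (L + 1) ^ 2 := by gcongr
        _ = _ := by ring
    nlinarith
  have hint : (∫ x in NN D u ∩ ann δ 1, |vv u ν c' x| * (‖fderiv ℝ f x‖ * ‖gr u x - ν‖)) +
      3 * h * ∫ x in NN D u ∩ ann δ 1, ‖fderiv ℝ f x‖ * ‖gr u x - ν‖ ^ 2 ≤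
      1 / 2 * (∫ x in NN D u ∩ ann δ 1, f x * ‖gr u x - ν‖ ^ 2) +
        ∫ x in NN D u ∩ ann δ 1, G x := by
    rw [← integral_const_mul, ← integral_const_mul, ← integral_add iC (iB.const_mul _),
      ← integral_add (iA.const_mul _) iG]
    exact setIntegral_mono_on (iC.add (iB.const_mul _)) ((iA.const_mul _).add iG) hSm pt
  have hGint : ∫ x in NN D u ∩ ann δ 1, G x ≤ C1 * (exc δ D u ν c' + δ + h ^ 5) := by
    have e0 : ∫ x in NN D u ∩ ann δ 1, G x = 25 * P0 ^ 2 * exc δ D u ν c' +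
        ((5 * (L + 2) * (L + 1) + 15 * (L + 1) ^ 2) * (∫ x in NN D u ∩ ann δ 1, Z x) +
          256 * (15 * P0) ^ 5 * (L + 1) ^ 2 * h ^ 5 *
          (volume : Measure V).real (NN D u ∩ ann δ 1)) := by
      have j1 : IntegrableOn (fun x => 25 * P0 ^ 2 * vv u ν c' x ^ 2) (NN D u ∩ ann δ 1) :=
        iv.const_mul _
      have j3 : IntegrableOn (fun x => (5 * (L + 2) * (L + 1) + 15 * (L + 1) ^ 2) * Z x)
        (NN D u ∩ ann δ 1) := iZ.const_mul _
      have j4 : IntegrableOn (fun _ : V => 256 * (15 * P0) ^ 5 * (L + 1) ^ 2 * h ^ 5)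
        (NN D u ∩ ann δ 1) := integrableOn_const (hs := hSf.ne)
      have j34 : IntegrableOn (fun x => (5 * (L + 2) * (L + 1) + 15 * (L + 1) ^ 2) * Z x +
        256 * (15 * P0) ^ 5 * (L + 1) ^ 2 * h ^ 5) (NN D u ∩ ann δ 1) := j3.add j4
      simp only [hG]
      rw [integral_add j1 j34, integral_add j3 j4, integral_const_mul,
        integral_const_mul, setIntegral_const, smul_eq_mul]
      unfold exc
      ring
    have hvol : (volume : Measure V).real (NN D u ∩ ann δ 1) ≤ om := by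
      have h1 := ann_vol (a := δ) (b := 1) (by norm_num)
      have h2 : (volume : Measure V).real (NN D u ∩ ann δ 1) ≤ (volume : Measure V).real (ann δ 1) :=
        measureReal_mono inter_subset_right (ann_fin _ _).ne
      linarith
    rw [e0]
    have hexc := exc_nonneg δ D u ν c'
    have t2 : (5 * (L + 2) * (L + 1) + 15 * (L + 1) ^ 2) * (∫ x in NN D u ∩ ann δ 1, Z x) ≤
        (5 * (L + 2) * (L + 1) + 15 * (L + 1) ^ 2) * (Ch * δ) :=
      mul_le_mul_of_nonneg_left hZ (by positivity)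
    have t3 : 256 * (15 * P0) ^ 5 * (L + 1) ^ 2 * h ^ 5 *
        (volume : Measure V).real (NN D u ∩ ann δ 1) ≤
        256 * (15 * P0) ^ 5 * (L + 1) ^ 2 * h ^ 5 * om :=
      mul_le_mul_of_nonneg_left hvol (by positivity)
    have u1 : 0 ≤ 25 * P0 ^ 2 * (δ + h ^ 5) := by positivity
    have u2 : 0 ≤ (5 * (L + 2) * (L + 1) + 15 * (L + 1) ^ 2) * Ch * (exc δ D u ν c' + h ^ 5) := by
      positivity
    have u3 : 0 ≤ 256 * (15 * P0) ^ 5 * (L + 1) ^ 2 * om * (exc δ D u ν c' + δ) := by positivity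
    rw [hC1]
    nlinarith
  have hmain : ∫ x in NN D u ∩ ann δ 1, f x * ‖gr u x - ν‖ ^ 2 ≤
      2 * C1 * (exc δ D u ν c' + δ + h ^ 5) := by linarith
  -- remove the cut off
  have hsub : NN D u ∩ ann δ (3 / 4) ⊆ NN D u ∩ ann δ 1 := fun x hx =>
    ⟨hx.1, hx.2.1, by linarith [hx.2.2]⟩
  have hTm : MeasurableSet (NN D u ∩ ann δ (3 / 4)) := hc.sol.meas_NN.inter (ann_meas _ _)
  have hbf : volume (tub (3 * δ)) < ⊤ := tube_fin _
  have hTubm : MeasurableSet (tub (3 * δ)) := tube_meas _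
  have iI : Integrable ((tub (3 * δ)).indicator (fun _ => (L + 1) ^ 2))
      (volume : Measure V) := by
    rw [integrable_indicator_iff hTubm]
    exact integrableOn_const (hs := hbf.ne)
  have hpt2 : ∀ x ∈ NN D u ∩ ann δ (3 / 4), ‖gr u x - ν‖ ^ 2 ≤ f x * ‖gr u x - ν‖ ^ 2 +
      (tub (3 * δ)).indicator (fun _ => (L + 1) ^ 2) x := by
    intro x hx
    have hxa := (hsub hx).2
    by_cases hb : x ∈ tub (3 * δ)
    · rw [indicator_of_mem hb]
      have h1 := pow_le_pow_left₀ (norm_nonneg _) (hc.a_le hν hx.1 hxa) 2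
      have h2 : 0 ≤ f x * ‖gr u x - ν‖ ^ 2 := mul_nonneg (hf0 x) (by positivity)
      linarith
    · rw [indicator_of_notMem hb]
      have hb : 3 * δ ≤ Nx x := by
        by_contra hn
        push Not at hn
        exact hb ⟨hn.le, hxa.2⟩
      have h1 : f x = 1 := by
        simp only [hf, hχ, hφ]
        rw [cut_one (by norm_num) (by norm_num) (by rw [sub_zero]; exact hx.2.2.le),
          hol_one hδ hb]
        norm_num
      rw [h1]; linarith
  have iA2 : IntegrableOn (fun x => ‖gr u x - ν‖ ^ 2) (NN D u ∩ ann δ (3 / 4)) := by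
    apply hc.sol.int_bdd (ann_meas _ _) (ann_fin _ _) ((hc.sol.a_cont ν).norm.pow 2)
      (C := (L + 1) ^ 2)
    intro x hx hxa
    rw [abs_of_nonneg (sq_nonneg _)]
    exact pow_le_pow_left₀ (norm_nonneg _) (hc.a_le hν hx ⟨hxa.1, by linarith [hxa.2]⟩) 2
  calc ∫ x in NN D u ∩ ann δ (3 / 4), ‖gr u x - ν‖ ^ 2
      ≤ ∫ x in NN D u ∩ ann δ (3 / 4), (f x * ‖gr u x - ν‖ ^ 2 +
        (tub (3 * δ)).indicator (fun _ => (L + 1) ^ 2) x) :=
        setIntegral_mono_on iA2 ((iA.mono_set hsub).add iI.integrableOn) hTm hpt2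
    _ = (∫ x in NN D u ∩ ann δ (3 / 4), f x * ‖gr u x - ν‖ ^ 2) +
        ∫ x in NN D u ∩ ann δ (3 / 4), (tub (3 * δ)).indicator (fun _ => (L + 1) ^ 2) x :=
        integral_add (iA.mono_set hsub) iI.integrableOn
    _ ≤ (∫ x in NN D u ∩ ann δ 1, f x * ‖gr u x - ν‖ ^ 2) +
        ∫ x, (tub (3 * δ)).indicator (fun _ => (L + 1) ^ 2) x := by
        apply add_le_add
        · apply setIntegral_mono_set iA
          · filter_upwards with x
            exact mul_nonneg (hf0 x) (by positivity)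
          · exact hsub.eventuallyLE
        · apply setIntegral_le_integral iI
          filter_upwards with x
          apply indicator_nonneg
          intro _ _
          positivity
    _ ≤ 2 * C1 * (exc δ D u ν c' + δ + h ^ 5) + (L + 1) ^ 2 * (Ct * 9) * δ := by
        apply add_le_add hmain
        rw [integral_indicator hTubm, setIntegral_const, smul_eq_mul]
        have h5 := htube (3 * δ) (by positivity) (by linarith)
        have : δ ^ 2 ≤ δ := by nlinarith [sq_nonneg δ]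
        calc (volume : Measure V).real (tub (3 * δ)) * (L + 1) ^ 2
            ≤ Ct * (3 * δ) ^ 2 * (L + 1) ^ 2 := mul_le_mul_of_nonneg_right h5 (by positivity)
          _ = (L + 1) ^ 2 * (Ct * 9) * δ ^ 2 := by ring
          _ ≤ (L + 1) ^ 2 * (Ct * 9) * δ := by gcongr
    _ ≤ (2 * C1 + (L + 1) ^ 2 * (Ct * 9)) * (exc δ D u ν c' + δ + h ^ 5) := by
        have hexc := exc_nonneg δ D u ν c'
        have : 0 ≤ (L + 1) ^ 2 * (Ct * 9) * (exc δ D u ν c' + h ^ 5) := by positivity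
        nlinarith

end

end Pool.Agent.D0H33.FC
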