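import Mathlib
import Pool.Agent.D0H33.FC.C12b
import Pool.Agent.D0H33.FB.A16

set_option autoImplicit false

open Set Metric Filter Topology MeasureTheory
open ExtStar (lap)
open Pool.Agent.D0H33.FB

namespace Pool.Agent.D0H33.FC

noncomputable section

variable {D : Set V} {u : V → ℝ}

/-- weak Neumann condition -/
theorem weakN (L c κ : ℝ) (hL : 1 ≤ L) : ∃ C : ℝ, 0 < C ∧
    ∀ (δ : ℝ) (D : Set V) (u : V → ℝ) (ν : V) (c' h : ℝ), Cfg L c κ δ D u → ‖ν‖ = 1 →
      Cln h δ D u ν c' → ∀ (P : V → ℝ) (B : ℝ), ContDiff ℝ 1 P → (∀ x, 1 / 2 ≤ ‖x‖ → P x = 0) →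
        0 ≤ B → (∀ x, |P x| ≤ B) → (∀ x, ‖fderiv ℝ P x‖ ≤ B) →
      |∫ x in NN D u, hol δ x * fderiv ℝ P x (gr u x - ν)| ≤
        C * B * (exc δ D u ν c' + δ + h ^ 5) := by
  obtain ⟨Ch, hCh, hhol⟩ := hol_int
  obtain ⟨Ce, hCe, hen⟩ := energy L c κ hL
  refine ⟨(L + 1) * Ch + 3 / 2 * (Ce + (L + 1) ^ 2 * Ch), by positivity, ?_⟩
  intro δ D u ν c' h hc hν hcl P B hP hPs hB hPB hPg
  have hδ := hc.δ0
  have hδ1 : δ ≤ 1 := by linarith [hcl.hδ, hcl.hs]
  have hh0 := hcl.h0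
  have hexc := exc_nonneg δ D u ν c'
  set f : V → ℝ := fun x => P x * hol δ x with hf
  have hfT : TF D u (Kc δ) f := hc.test hP (fun x hx => hPs x (by linarith))
  have hKc := Kc_compact δ
  -- derivative
  have hfd : ∀ x, fderiv ℝ f x = P x • fderiv ℝ (hol δ) x + hol δ x • fderiv ℝ P x := by
    intro x
    exact ((hP.differentiable (by norm_num) x).hasFDerivAt.mul
      ((hol_smooth δ (n := 1)).differentiable (by norm_num) x).hasFDerivAt).fderiv
  set Z : V → ℝ := fun x => ‖fderiv ℝ (hol δ) x‖ with hZdef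
  have hP0 : ∀ x, 1 / 2 < ‖x‖ → P x = 0 ∧ fderiv ℝ P x = 0 := by
    intro x hx
    refine ⟨hPs x hx.le, ?_⟩
    have : P =ᶠ[𝓝 x] fun _ => 0 := by
      filter_upwards [(isOpen_lt continuous_const continuous_norm).mem_nhds hx] with y hy
      exact hPs y (le_of_lt hy)
    rw [this.fderiv_eq]; simp
  have hfn : ∀ x, ‖fderiv ℝ f x‖ ≤ B * Z x + B * (ball (0 : V) (3 / 4)).indicator (fun _ => 1) x := by
    intro x
    rw [hfd]
    refine (norm_add_le _ _).trans ?_
    rw [norm_smul, norm_smul, Real.norm_eq_abs, Real.norm_eq_abs, abs_of_nonneg (hol_nonneg _ _)]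
    apply add_le_add
    · exact mul_le_mul_of_nonneg_right (hPB x) (norm_nonneg _)
    · by_cases hx : x ∈ ball (0 : V) (3 / 4)
      · rw [indicator_of_mem hx, mul_one]
        calc hol δ x * ‖fderiv ℝ P x‖ ≤ 1 * B :=
              mul_le_mul (hol_le_one _ _) (hPg x) (norm_nonneg _) zero_le_one
          _ = B := one_mul _
      · rw [indicator_of_notMem hx]
        rw [mem_ball, dist_zero_right, not_lt] at hx
        rw [(hP0 x (by linarith)).2]; simp
  have hIV := hfT.IVn hc.sol hKc hc.KcD hν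
  -- the right hand side
  have hSm : MeasurableSet (NN D u ∩ ann δ 1) := hc.sol.meas_NN.inter (ann_meas _ _)
  obtain ⟨iZ, hZ⟩ := hhol δ (NN D u ∩ ann δ 1) hδ hδ1 hSm
    (inter_subset_right.trans (ann_ball (le_refl _)))
  have iA2 : IntegrableOn (fun x => ‖gr u x - ν‖ ^ 2) (NN D u ∩ ann δ 1) := by
    apply hc.sol.int_bdd (ann_meas _ _) (ann_fin _ _) ((hc.sol.a_cont ν).norm.pow 2)
      (C := (L + 1) ^ 2)
    intro x hx hxa
    rw [abs_of_nonneg (sq_nonneg _)]
    exact pow_le_pow_left₀ (norm_nonneg _) (hc.a_le hν hx hxa) 2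
  have bB : BC D u (Kc δ) (fun x => ‖fderiv ℝ f x‖ * ‖gr u x - ν‖ ^ 2) :=
    (hfT.BC_norm hc.sol hKc).mul ((hc.sol.a_cont ν).norm.pow 2) (hc.sol.a2_bd hKc hc.KcD ν)
  have hδ2 : δ ^ 2 ≤ δ := by nlinarith
  have hZ' : ∫ x in NN D u ∩ ann δ 1, Z x ≤ Ch * δ := hZ
  have hR : ∫ x in NN D u, ‖fderiv ℝ f x‖ * ‖gr u x - ν‖ ^ 2 ≤
      B * (Ce + (L + 1) ^ 2 * Ch) * (exc δ D u ν c' + δ + h ^ 5) := by
    rw [hc.int_eq bB.supp]
    have j1 : IntegrableOn (fun x => B * (L + 1) ^ 2 * Z x) (NN D u ∩ ann δ 1) := iZ.const_mul _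
    have j2 : IntegrableOn (fun x => B * (ball (0 : V) (3 / 4)).indicator
        (fun x => ‖gr u x - ν‖ ^ 2) x) (NN D u ∩ ann δ 1) :=
      (iA2.indicator measurableSet_ball).const_mul _
    have j12 : IntegrableOn (fun x => B * (L + 1) ^ 2 * Z x + B * (ball (0 : V) (3 / 4)).indicator
        (fun x => ‖gr u x - ν‖ ^ 2) x) (NN D u ∩ ann δ 1) := j1.add j2
    refine (setIntegral_mono_on ((bB.integrable hc.sol hKc).mono_set inter_subset_left) j12 hSm ?_).trans ?_
    · intro x hx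
      have hA := hc.a_le hν hx.1 hx.2
      have hA0 := norm_nonneg (gr u x - ν)
      have hA2 : ‖gr u x - ν‖ ^ 2 ≤ (L + 1) ^ 2 := pow_le_pow_left₀ hA0 hA 2
      have hZ0 : 0 ≤ Z x := norm_nonneg _
      have h1 := mul_le_mul_of_nonneg_right (hfn x) (by positivity : 0 ≤ ‖gr u x - ν‖ ^ 2)
      refine h1.trans ?_
      have h2 : B * Z x * ‖gr u x - ν‖ ^ 2 ≤ B * (L + 1) ^ 2 * Z x := by
        calc B * Z x * ‖gr u x - ν‖ ^ 2 ≤ B * Z x * (L + 1) ^ 2 := by gcongr
          _ = _ := by ring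
      by_cases hxb : x ∈ ball (0 : V) (3 / 4)
      · rw [indicator_of_mem hxb, indicator_of_mem hxb]; linarith
      · rw [indicator_of_notMem hxb, indicator_of_notMem hxb]; linarith
    · rw [integral_add j1 j2, integral_const_mul, integral_const_mul]
      have e2 : ∫ x in NN D u ∩ ann δ 1, (ball (0 : V) (3 / 4)).indicator
          (fun x => ‖gr u x - ν‖ ^ 2) x = ∫ x in NN D u ∩ ann δ (3 / 4), ‖gr u x - ν‖ ^ 2 := by
        rw [setIntegral_indicator measurableSet_ball]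
        congr 2
        ext x
        constructor
        · rintro ⟨⟨a1, a2⟩, a3⟩
          rw [mem_ball, dist_zero_right] at a3
          exact ⟨a1, a2.1, a3⟩
        · rintro ⟨a1, a3⟩
          exact ⟨⟨a1, a3.1, by linarith [a3.2]⟩, by rw [mem_ball, dist_zero_right]; exact a3.2⟩
      rw [e2]
      have h1 := hen δ D u ν c' h hc hν hcl
      have h2 : B * (∫ x in NN D u ∩ ann δ (3 / 4), ‖gr u x - ν‖ ^ 2) ≤
          B * (Ce * (exc δ D u ν c' + δ + h ^ 5)) := mul_le_mul_of_nonneg_left h1 hB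
      have h3 : B * (L + 1) ^ 2 * (∫ x in NN D u ∩ ann δ 1, Z x) ≤ B * (L + 1) ^ 2 * (Ch * δ) :=
        mul_le_mul_of_nonneg_left hZ' (by positivity)
      have u2 : 0 ≤ B * ((L + 1) ^ 2 * Ch) * (exc δ D u ν c' + h ^ 5) := by positivity
      nlinarith
  -- the left hand side
  have b1 : BC D u (Kc δ) (fun x => fderiv ℝ f x (gr u x - ν)) :=
    hfT.BC_any hc.sol hKc (hc.sol.a_cont ν) (hc.sol.a_bd hKc hc.KcD ν)
  have hsup2 : ∀ x ∈ NN D u, x ∉ Kc δ → P x * fderiv ℝ (hol δ) x (gr u x - ν) = 0 := by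
    intro x _ hx
    have : Nx x < 2 * δ ∨ 7 / 8 < ‖x‖ := by
      by_contra hn
      push Not at hn
      exact hx ⟨hn.1, hn.2⟩
    rcases this with h1 | h1
    · have : hol δ =ᶠ[𝓝 x] fun _ => 0 := by
        filter_upwards [(isOpen_lt Nx_cont continuous_const).mem_nhds h1] with y hy
        exact hol_zero hδ (le_of_lt hy)
      rw [this.fderiv_eq]; simp
    · rw [hPs x (by linarith), zero_mul]
  have b2 : BC D u (Kc δ) (fun x => P x * fderiv ℝ (hol δ) x (gr u x - ν)) := by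
    refine ⟨?_, ?_, hsup2⟩
    · exact hP.continuous.continuousOn.mul
        (((hol_smooth δ (n := 1)).continuous_fderiv (by norm_num)).continuousOn.clm_apply
          (hc.sol.a_cont ν))
    · obtain ⟨C1, hC1⟩ := hc.sol.a_bd hKc hc.KcD ν
      obtain ⟨C2, hC2⟩ := hKc.exists_bound_of_continuousOn (f := fderiv ℝ (hol δ))
        ((hol_smooth δ (n := 1)).continuous_fderiv (by norm_num)).continuousOn
      refine ⟨B * (C2 * C1), fun x hx hxK => ?_⟩
      rw [abs_mul]
      have h1 := le_op (fderiv ℝ (hol δ) x) (gr u x - ν)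
      have h2 := mul_le_mul (hC2 x hxK) (hC1 x hx hxK) (norm_nonneg _)
        ((norm_nonneg _).trans (hC2 x hxK))
      exact mul_le_mul (hPB x) (h1.trans h2) (abs_nonneg _) hB
  have e3 : ∫ x in NN D u, hol δ x * fderiv ℝ P x (gr u x - ν) =
      (∫ x in NN D u, fderiv ℝ f x (gr u x - ν)) -
        ∫ x in NN D u, P x * fderiv ℝ (hol δ) x (gr u x - ν) := by
    rw [← integral_sub (b1.integrable hc.sol hKc) (b2.integrable hc.sol hKc)]
    congr 1
    funext x
    rw [hfd]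
    simp only [_root_.add_apply, _root_.smul_apply, smul_eq_mul]
    ring
  have h4 : |∫ x in NN D u, P x * fderiv ℝ (hol δ) x (gr u x - ν)| ≤ B * (L + 1) * (Ch * δ) := by
    rw [hc.int_eq b2.supp]
    have i2 := (b2.integrable hc.sol hKc).mono_set (inter_subset_left (t := ann δ 1))
    have j1 : IntegrableOn (fun x => B * (L + 1) * Z x) (NN D u ∩ ann δ 1) := iZ.const_mul _
    calc |∫ x in NN D u ∩ ann δ 1, P x * fderiv ℝ (hol δ) x (gr u x - ν)|
        ≤ ∫ x in NN D u ∩ ann δ 1, |P x * fderiv ℝ (hol δ) x (gr u x - ν)| :=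
          abs_integral_le_integral_abs
      _ ≤ ∫ x in NN D u ∩ ann δ 1, B * (L + 1) * Z x := by
          apply setIntegral_mono_on i2.abs j1 hSm
          intro x hx
          rw [abs_mul]
          have h1 := le_op (fderiv ℝ (hol δ) x) (gr u x - ν)
          have h2 := mul_le_mul_of_nonneg_left (hc.a_le hν hx.1 hx.2)
            (norm_nonneg (fderiv ℝ (hol δ) x))
          calc |P x| * |fderiv ℝ (hol δ) x (gr u x - ν)| ≤ B * (‖fderiv ℝ (hol δ) x‖ * (L + 1)) :=
                mul_le_mul (hPB x) (h1.trans h2) (abs_nonneg _) hB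
            _ = B * (L + 1) * Z x := by ring
      _ ≤ B * (L + 1) * (Ch * δ) := by
          rw [integral_const_mul]
          exact mul_le_mul_of_nonneg_left hZ' (by positivity)
  rw [e3]
  refine (abs_sub _ _).trans ?_
  have u1 : 0 ≤ B * (L + 1) * Ch * (exc δ D u ν c' + h ^ 5) := by positivity
  nlinarith

end

end Pool.Agent.D0H33.FC
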