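import Mathlib
import Pool.Agent.D0H33.FC.C18
import Pool.Agent.D0H33.FB.A19

set_option autoImplicit false

open Set Metric Filter Topology MeasureTheory
open ExtStar (lap)
open Pool.Agent.D0H33.FB

namespace Pool.Agent.D0H33.FC

noncomputable section

variable {D : Set V} {u : V → ℝ}

/-- far from the plane means far from the axis -/
lemma Cln.Nx_far {h δ : ℝ} {ν : V} {c' τ : ℝ} (hc : Cln h δ D u ν c') (hν : ‖ν‖ = 1)
    (hδ : 0 < δ) (hhτ : 4 * h ≤ τ) {y : V} (hy : ‖y‖ ≤ 3 / 4) (hy2 : τ ≤ inner ℝ ν y) :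
    3 * δ ≤ Nx y ∧ δ < Nx y := by
  have h1 := hc.Nx_lb hν (x := y) (by linarith)
  have h2 := (abs_le.1 h1).2
  have h3 := (abs_le.1 hc.hc).1
  have h4 := hc.hδ
  have h5 := hc.h0
  have h6 : h / 4 ≤ h := by linarith
  have := le_abs_self (inner ℝ ν y + c')
  constructor <;> linarith [le_abs_self (inner ℝ ν y + c'), h1]

/-- the even kernel term: the boundary contribution is small -/
theorem even_term (L c κ : ℝ) (hL : 1 ≤ L) : ∃ C : ℝ, 0 < C ∧
    ∀ (δ : ℝ) (D : Set V) (u : V → ℝ) (ν : V) (c' h τ : ℝ), Cfg L c κ δ D u → ‖ν‖ = 1 →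
      Cln h δ D u ν c' → 4 * h ≤ τ → τ ≤ 1 / 8 → ∀ (P F : V → ℝ) (M : ℝ), ContDiff ℝ 2 P →
      (∀ y, ‖y‖ ≤ 3 / 4 → inner ℝ ν y < τ → gr P y = 0) →
      (∀ y, ‖y‖ ≤ 3 / 4 → τ ≤ inner ℝ ν y → gr P y = chi (inner ℝ ν y / τ) • gr (vv u ν c') y +
          (vv u ν c' y * (deriv chi (inner ℝ ν y / τ) / τ)) • ν) →
      ContDiff ℝ 1 F → (∀ y, 1 / 2 ≤ ‖y‖ → F y = 0) → 0 ≤ M → (∀ y, |F y| ≤ M) →
      (∀ y, ‖fderiv ℝ F y‖ ≤ M) → (∀ y, |fderiv ℝ F y ν| ≤ M * |inner ℝ ν y|) →
      |∫ y, fderiv ℝ F y (gr P y)| ≤ C * M * (exc δ D u ν c' + δ + h ^ 5 +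
        Real.sqrt τ * Real.sqrt (exc δ D u ν c' + δ + h ^ 5)) := by
  obtain ⟨Cχ, hCχ, hdchi⟩ := dchi_bd
  obtain ⟨Cs, hCs, hslab⟩ := slab_vol
  obtain ⟨Ce, hCe, hen⟩ := energy L c κ hL
  obtain ⟨Cw, hCw, hweak⟩ := weakN L c κ hL
  refine ⟨Cw + Real.sqrt (3 * Cs) * Real.sqrt Ce + 2 * Cχ * Real.sqrt (3 * Cs), by positivity, ?_⟩
  intro δ D u ν c' h τ hc hν hcl hhτ hτ8 P F M hP hP0 hP1 hF hF0 hM hFM hFg hFν
  have hδ := hc.δ0
  have hh0 := hcl.h0
  have hτ0 : 0 < τ := by linarith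
  have hδτ : 3 * δ ≤ τ := by linarith [hcl.hδ]
  have hexc := exc_nonneg δ D u ν c'
  set E := exc δ D u ν c' + δ + h ^ 5 with hE
  have hE0 : 0 < E := by positivity
  have hin : ∀ x : V, |inner ℝ ν x| ≤ ‖x‖ := fun x => by
    have := abs_real_inner_le_norm ν x
    rwa [hν, one_mul] at this
  have hN : ∀ y : V, ‖y‖ ≤ 3 / 4 → τ ≤ inner ℝ ν y → y ∈ NN D u := by
    intro y hy1 hy2
    apply hcl.pos y (by linarith)
    have := (abs_le.1 hcl.hc).1
    linarith
  have hdF0 : ∀ y : V, 1 / 2 < ‖y‖ → fderiv ℝ F y = 0 := fun y hy => fderiv_far hF0 hy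
  set η : V → ℝ := fun y => chi (inner ℝ ν y / τ) with hη
  -- pointwise decomposition
  have hSm : MeasurableSet (NN D u ∩ ann δ 1) := hc.sol.meas_NN.inter (ann_meas _ _)
  have hlinm : Continuous (fun y : V => inner ℝ ν y) := by fun_prop
  have hz : ∀ y, y ∉ NN D u ∩ ann δ 1 → fderiv ℝ F y (gr P y) = 0 := by
    intro y hy
    by_cases h1 : 1 / 2 < ‖y‖
    · rw [hdF0 y h1]; simp
    · push Not at h1
      have h2 : inner ℝ ν y < τ := by
        by_contra hn
        push Not at hn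
        apply hy
        exact ⟨hN y (by linarith) hn, (hcl.Nx_far hν hδ hhτ (by linarith) hn).2, by linarith⟩
      rw [hP0 y (by linarith) h2]; simp
  have hpt : ∀ y ∈ NN D u ∩ ann δ 1, fderiv ℝ F y (gr P y) =
      hol δ y * fderiv ℝ F y (gr u y - ν) - (hol δ y * (1 - η y) * fderiv ℝ F y (gr u y - ν) -
        vv u ν c' y * (deriv chi (inner ℝ ν y / τ) / τ) * fderiv ℝ F y ν) := by
    intro y hy
    by_cases h1 : 1 / 2 < ‖y‖
    · rw [hdF0 y h1]; simp
    · push Not at h1
      by_cases h2 : inner ℝ ν y < τ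
      · rw [hP0 y (by linarith) h2]
        have h3 : inner ℝ ν y / τ ≤ 1 := (div_le_one hτ0).2 h2.le
        simp only [hη]
        rw [chi_zero h3, dchi_zero h3]
        simp
      · push Not at h2
        rw [hP1 y (by linarith) h2, gr_vv hc.sol ν c' hy.1, map_add, map_smul, map_smul]
        have h3 : hol δ y = 1 := hol_one hδ (hcl.Nx_far hν hδ hhτ (by linarith) h2).1
        rw [h3]
        simp only [hη, smul_eq_mul]
        ring
  -- the thin region
  set S : Set V := NN D u ∩ (ann δ (3 / 4) ∩ {y | inner ℝ ν y < 2 * τ}) with hS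
  have hSS : MeasurableSet S := hc.sol.meas_NN.inter ((ann_meas _ _).inter
    (isOpen_lt hlinm continuous_const).measurableSet)
  have hSsub : S ⊆ NN D u ∩ ann δ 1 := fun y hy => ⟨hy.1, hy.2.1.1, by linarith [hy.2.1.2]⟩
  have hSfin : volume S ≠ ⊤ :=
    ((measure_mono (hSsub.trans inter_subset_right)).trans_lt (ann_fin _ _)).ne
  have hSvol : (volume : Measure V).real S ≤ Real.sqrt (3 * Cs * τ) ^ 2 := by
    rw [Real.sq_sqrt (by positivity)]
    refine (Cfg.slabN hCs hslab hν hcl (t := 2 * τ) (by positivity)).trans ?_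
    nlinarith
  have iv := hc.vv_int (c' := c') (by linarith) hν
  have iA : IntegrableOn (fun y => ‖gr u y - ν‖) (NN D u ∩ ann δ 1) := by
    apply hc.sol.int_bdd (ann_meas _ _) (ann_fin _ _) (hc.sol.a_cont ν).norm (C := L + 1)
    intro x hx hxa
    rw [abs_of_nonneg (norm_nonneg _)]
    exact hc.a_le hν hx hxa
  have iA2 : IntegrableOn (fun y => ‖gr u y - ν‖ ^ 2) (NN D u ∩ ann δ 1) := by
    apply hc.sol.int_bdd (ann_meas _ _) (ann_fin _ _) ((hc.sol.a_cont ν).norm.pow 2)
      (C := (L + 1) ^ 2)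
    intro x hx hxa
    rw [abs_of_nonneg (sq_nonneg _)]
    exact pow_le_pow_left₀ (norm_nonneg _) (hc.a_le hν hx hxa) 2
  have hdFc : Continuous (fun y => fderiv ℝ F y) := hF.continuous_fderiv (by norm_num)
  have hηc : Continuous η := (chi_smooth (n := 0)).continuous.comp (hlinm.div_const τ)
  have hdηc : Continuous (fun y : V => deriv chi (inner ℝ ν y / τ)) :=
    dchi_cont.comp (hlinm.div_const τ)
  have hdFa : ∀ y ∈ NN D u, y ∈ ann δ 1 → |fderiv ℝ F y (gr u y - ν)| ≤ M * ‖gr u y - ν‖ :=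
    fun y _ _ => (le_op _ _).trans (mul_le_mul_of_nonneg_right (hFg y) (norm_nonneg _))
  -- three integrals
  have i1 : IntegrableOn (fun y => hol δ y * fderiv ℝ F y (gr u y - ν)) (NN D u ∩ ann δ 1) := by
    apply hc.sol.int_bdd (ann_meas _ _) (ann_fin _ _) (C := M * (L + 1))
    · exact (hol_smooth δ (n := 0)).continuous.continuousOn.mul
        (hdFc.continuousOn.clm_apply (hc.sol.a_cont ν))
    · intro y hy hya
      rw [abs_mul, abs_of_nonneg (hol_nonneg _ _)]
      calc hol δ y * |fderiv ℝ F y (gr u y - ν)| ≤ 1 * (M * (L + 1)) := by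
            apply mul_le_mul (hol_le_one _ _) _ (abs_nonneg _) zero_le_one
            exact (hdFa y hy hya).trans (mul_le_mul_of_nonneg_left (hc.a_le hν hy hya) hM)
        _ = _ := one_mul _
  have i2 : IntegrableOn (fun y => hol δ y * (1 - η y) * fderiv ℝ F y (gr u y - ν))
      (NN D u ∩ ann δ 1) := by
    apply hc.sol.int_bdd (ann_meas _ _) (ann_fin _ _) (C := M * (L + 1))
    · exact ((hol_smooth δ (n := 0)).continuous.mul (continuous_const.sub hηc)).continuousOn.mul
        (hdFc.continuousOn.clm_apply (hc.sol.a_cont ν))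
    · intro y hy hya
      rw [abs_mul]
      have h5 : |hol δ y * (1 - η y)| ≤ 1 := by
        have a1 := hol_nonneg δ y
        have a2 := hol_le_one δ y
        have a3 : 0 ≤ 1 - η y := by have := chi_le_one (inner ℝ ν y / τ); simp only [hη]; linarith
        have a4 : 1 - η y ≤ 1 := by have := chi_nonneg (inner ℝ ν y / τ); simp only [hη]; linarith
        rw [abs_of_nonneg (mul_nonneg a1 a3)]
        exact mul_le_one₀ a2 a3 a4
      calc |hol δ y * (1 - η y)| * |fderiv ℝ F y (gr u y - ν)| ≤ 1 * (M * (L + 1)) := by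
            apply mul_le_mul h5 _ (abs_nonneg _) zero_le_one
            exact (hdFa y hy hya).trans (mul_le_mul_of_nonneg_left (hc.a_le hν hy hya) hM)
        _ = _ := one_mul _
  -- pointwise bounds for the second and third
  have p2 : ∀ y ∈ NN D u ∩ ann δ 1, |hol δ y * (1 - η y) * fderiv ℝ F y (gr u y - ν)| ≤
      S.indicator (fun y => M * ‖gr u y - ν‖) y := by
    intro y hy
    by_cases hyS : y ∈ S
    · rw [indicator_of_mem hyS, abs_mul]
      have h5 : |hol δ y * (1 - η y)| ≤ 1 := by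
        have a1 := hol_nonneg δ y
        have a2 := hol_le_one δ y
        have a3 : 0 ≤ 1 - η y := by have := chi_le_one (inner ℝ ν y / τ); simp only [hη]; linarith
        have a4 : 1 - η y ≤ 1 := by have := chi_nonneg (inner ℝ ν y / τ); simp only [hη]; linarith
        rw [abs_of_nonneg (mul_nonneg a1 a3)]
        exact mul_le_one₀ a2 a3 a4
      calc |hol δ y * (1 - η y)| * |fderiv ℝ F y (gr u y - ν)| ≤ 1 * (M * ‖gr u y - ν‖) :=
            mul_le_mul h5 (hdFa y hy.1 hy.2) (abs_nonneg _) zero_le_one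
        _ = _ := one_mul _
    · rw [indicator_of_notMem hyS]
      by_cases h1 : 1 / 2 < ‖y‖
      · rw [hdF0 y h1]; simp
      · push Not at h1
        have h2 : 2 * τ ≤ inner ℝ ν y := by
          by_contra hn
          push Not at hn
          exact hyS ⟨hy.1, ⟨hy.2.1, by linarith⟩, hn⟩
        have h3 : η y = 1 := chi_one ((le_div_iff₀ hτ0).2 h2)
        rw [h3]; simp
  have p3 : ∀ y ∈ NN D u ∩ ann δ 1,
      |vv u ν c' y * (deriv chi (inner ℝ ν y / τ) / τ) * fderiv ℝ F y ν| ≤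
      S.indicator (fun y => 2 * Cχ * M * |vv u ν c' y|) y := by
    intro y hy
    by_cases hyS : y ∈ S
    · rw [indicator_of_mem hyS, abs_mul, abs_mul]
      have h2 : inner ℝ ν y < 2 * τ := hyS.2.2
      by_cases h3 : inner ℝ ν y ≤ τ
      · rw [dchi_zero ((div_le_one hτ0).2 h3)]
        simp
        positivity
      · push Not at h3
        have h4 : |fderiv ℝ F y ν| ≤ M * (2 * τ) := by
          refine (hFν y).trans (mul_le_mul_of_nonneg_left ?_ hM)
          rw [abs_of_pos (by linarith)]; exact h2.le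
        have h5 : |deriv chi (inner ℝ ν y / τ) / τ| ≤ Cχ / τ := by
          rw [abs_div, abs_of_pos hτ0]
          exact div_le_div_of_nonneg_right (hdchi _) hτ0.le
        calc |vv u ν c' y| * |deriv chi (inner ℝ ν y / τ) / τ| * |fderiv ℝ F y ν|
            ≤ |vv u ν c' y| * (Cχ / τ) * (M * (2 * τ)) := by gcongr
          _ = 2 * Cχ * M * |vv u ν c' y| := by field_simp
    · rw [indicator_of_notMem hyS]
      by_cases h1 : 1 / 2 < ‖y‖
      · rw [hdF0 y h1]; simp
      · push Not at h1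
        have h2 : 2 * τ ≤ inner ℝ ν y := by
          by_contra hn
          push Not at hn
          exact hyS ⟨hy.1, ⟨hy.2.1, by linarith⟩, hn⟩
        rw [dchi_zero' ((le_div_iff₀ hτ0).2 h2)]; simp
  have i3 : IntegrableOn (fun y => vv u ν c' y * (deriv chi (inner ℝ ν y / τ) / τ) *
      fderiv ℝ F y ν) (NN D u ∩ ann δ 1) := by
    apply hc.sol.int_bdd (ann_meas _ _) (ann_fin _ _) (C := 2 * Cχ * M * (L + 1 + |c'|))
    · exact (((vv_cont hc.sol ν c').mono fun x hx => hx.1).mul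
        (hdηc.div_const τ).continuousOn).mul (hdFc.clm_apply continuous_const).continuousOn
    · intro y hy hya
      refine (p3 y ⟨hy, hya⟩).trans ?_
      have h6 := hc.vv_bd1 (c' := c') (by linarith) hν hya
      by_cases hyS : y ∈ S
      · rw [indicator_of_mem hyS]; gcongr
      · rw [indicator_of_notMem hyS]
        have := abs_nonneg c'
        positivity
  -- the decomposition of the integral
  have e1 : ∫ y, fderiv ℝ F y (gr P y) =
      (∫ y in NN D u ∩ ann δ 1, hol δ y * fderiv ℝ F y (gr u y - ν)) -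
      ((∫ y in NN D u ∩ ann δ 1, hol δ y * (1 - η y) * fderiv ℝ F y (gr u y - ν)) -
        ∫ y in NN D u ∩ ann δ 1, vv u ν c' y * (deriv chi (inner ℝ ν y / τ) / τ) *
          fderiv ℝ F y ν) := by
    have i23 : IntegrableOn (fun y => hol δ y * (1 - η y) * fderiv ℝ F y (gr u y - ν) -
        vv u ν c' y * (deriv chi (inner ℝ ν y / τ) / τ) * fderiv ℝ F y ν) (NN D u ∩ ann δ 1) :=
      i2.sub i3
    rw [← integral_sub i2 i3, ← integral_sub i1 i23,
      ← setIntegral_eq_integral_of_forall_compl_eq_zero hz]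
    exact setIntegral_congr_fun hSm hpt
  have e2 : ∫ y in NN D u ∩ ann δ 1, hol δ y * fderiv ℝ F y (gr u y - ν) =
      ∫ y in NN D u, hol δ y * fderiv ℝ F y (gr u y - ν) := by
    symm
    apply hc.int_eq
    intro y _ hyK
    have : Nx y < 2 * δ ∨ 7 / 8 < ‖y‖ := by
      by_contra hn
      push Not at hn
      exact hyK ⟨hn.1, hn.2⟩
    rcases this with h1 | h1
    · rw [hol_zero hδ h1.le, zero_mul]
    · rw [hdF0 y (by linarith)]; simp
  have b1 : |∫ y in NN D u, hol δ y * fderiv ℝ F y (gr u y - ν)| ≤ Cw * M * E :=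
    hweak δ D u ν c' h hc hν hcl F M hF hF0 hM hFM hFg
  have b2 : |∫ y in NN D u ∩ ann δ 1, hol δ y * (1 - η y) * fderiv ℝ F y (gr u y - ν)| ≤
      M * (Real.sqrt (3 * Cs * τ) * Real.sqrt (Ce * E)) := by
    refine abs_integral_le_integral_abs.trans ?_
    have j1 : IntegrableOn (S.indicator (fun y => M * ‖gr u y - ν‖)) (NN D u ∩ ann δ 1) :=
      (iA.const_mul M).indicator hSS
    refine (setIntegral_mono_on i2.abs j1 hSm p2).trans ?_
    rw [setIntegral_indicator hSS, inter_eq_right.2 hSsub, integral_const_mul]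
    apply mul_le_mul_of_nonneg_left _ hM
    have h7 := cs_int hSfin (iA.mono_set hSsub) (iA2.mono_set hSsub) (Real.sqrt_nonneg _)
      (Real.sqrt_nonneg (Ce * E)) hSvol (by
        rw [Real.sq_sqrt (by positivity)]
        refine le_trans ?_ (hen δ D u ν c' h hc hν hcl)
        have hsub2 : S ⊆ NN D u ∩ ann δ (3 / 4) := fun y hy => ⟨hy.1, hy.2.1⟩
        apply setIntegral_mono_set (iA2.mono_set fun y hy => ⟨hy.1, hy.2.1, by linarith [hy.2.2]⟩)
        · filter_upwards with x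
          positivity
        · exact hsub2.eventuallyLE)
    simpa using h7
  have b3 : |∫ y in NN D u ∩ ann δ 1, vv u ν c' y * (deriv chi (inner ℝ ν y / τ) / τ) *
          fderiv ℝ F y ν| ≤ 2 * Cχ * M * (Real.sqrt (3 * Cs * τ) * Real.sqrt E) := by
    refine abs_integral_le_integral_abs.trans ?_
    have j1 : IntegrableOn (S.indicator (fun y => 2 * Cχ * M * |vv u ν c' y|)) (NN D u ∩ ann δ 1) :=
      (iv.abs.const_mul _).indicator hSS
    refine (setIntegral_mono_on i3.abs j1 hSm p3).trans ?_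
    rw [setIntegral_indicator hSS, inter_eq_right.2 hSsub, integral_const_mul]
    apply mul_le_mul_of_nonneg_left _ (by positivity)
    apply cs_int hSfin (iv.mono_set hSsub) ((hc.exc_int (by linarith) hν).mono_set hSsub)
      (Real.sqrt_nonneg _) (Real.sqrt_nonneg _) hSvol
    rw [Real.sq_sqrt hE0.le]
    have : ∫ y in S, vv u ν c' y ^ 2 ≤ exc δ D u ν c' := by
      apply setIntegral_mono_set (hc.exc_int (by linarith) hν)
      · filter_upwards with x
        positivity
      · exact hSsub.eventuallyLE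
    have h5 : 0 ≤ h ^ 5 := by positivity
    linarith
  rw [e1, e2]
  have s1 : Real.sqrt (3 * Cs * τ) = Real.sqrt (3 * Cs) * Real.sqrt τ :=
    Real.sqrt_mul (by positivity) _
  have s2 : Real.sqrt (Ce * E) = Real.sqrt Ce * Real.sqrt E := Real.sqrt_mul hCe.le _
  rw [s1, s2] at b2
  rw [s1] at b3
  have t1 := abs_sub (∫ y in NN D u, hol δ y * fderiv ℝ F y (gr u y - ν))
    ((∫ y in NN D u ∩ ann δ 1, hol δ y * (1 - η y) * fderiv ℝ F y (gr u y - ν)) -
        ∫ y in NN D u ∩ ann δ 1, vv u ν c' y * (deriv chi (inner ℝ ν y / τ) / τ) *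
          fderiv ℝ F y ν)
  have t2 := abs_sub (∫ y in NN D u ∩ ann δ 1, hol δ y * (1 - η y) * fderiv ℝ F y (gr u y - ν))
        (∫ y in NN D u ∩ ann δ 1, vv u ν c' y * (deriv chi (inner ℝ ν y / τ) / τ) *
          fderiv ℝ F y ν)
  have q1 := Real.sqrt_nonneg τ
  have q2 := Real.sqrt_nonneg E
  have q3 := Real.sqrt_nonneg (3 * Cs)
  have q4 := Real.sqrt_nonneg Ce
  have u1 : 0 ≤ Cw * M * (Real.sqrt τ * Real.sqrt E) := by positivity
  have u2 : 0 ≤ (Real.sqrt (3 * Cs) * Real.sqrt Ce + 2 * Cχ * Real.sqrt (3 * Cs)) * M * E := by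
    positivity
  nlinarith

end

end Pool.Agent.D0H33.FC
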