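import Mathlib
import Pool.Agent.D0H33.FC.C19
import Pool.Agent.D0H33.FB.A20

set_option autoImplicit false

open Set Metric Filter Topology MeasureTheory
open ExtStar (lap)
open Pool.Agent.D0H33.FB

namespace Pool.Agent.D0H33.FC

noncomputable section

variable {D : Set V} {u : V → ℝ}

/-- approximation by affine functions at points away from the plane -/
theorem good_approx (L c κ : ℝ) (hL : 1 ≤ L) : ∃ C : ℝ, 0 < C ∧ ∀ s0 : ℝ, 0 < s0 → s0 ≤ 1 / 8 →
    ∃ M : ℝ, 0 < M ∧ ∀ (δ : ℝ) (D : Set V) (u : V → ℝ) (ν : V) (c' h τ : ℝ),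
      Cfg L c κ δ D u → ‖ν‖ = 1 → Cln h δ D u ν c' → 4 * h ≤ τ → 8 * τ ≤ s0 →
      ∃ (a0 : ℝ) (a1 : V), inner ℝ ν a1 = 0 ∧
        |a0| ≤ C * Real.sqrt (exc δ D u ν c' + δ + h ^ 5) ∧
        ‖a1‖ ≤ C * Real.sqrt (exc δ D u ν c' + δ + h ^ 5) ∧
        ∀ x : V, ‖x‖ ≤ 1 / 8 → s0 ≤ inner ℝ ν x →
          |vv u ν c' x - (a0 + inner ℝ a1 x)| ≤
            C * ‖x‖ ^ 2 * Real.sqrt (exc δ D u ν c' + δ + h ^ 5) +
            M * (exc δ D u ν c' + δ + h ^ 5 +
              Real.sqrt τ * Real.sqrt (exc δ D u ν c' + δ + h ^ 5)) := by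
  obtain ⟨Ck, hCk, hker⟩ := kernel_affine
  obtain ⟨Ce, hCe, heven⟩ := even_term L c κ hL
  have hκp := kap_pos
  have hom := om_pos
  refine ⟨Ck * Real.sqrt om / kap, by positivity, ?_⟩
  intro s0 hs0 hs08
  have hs : 0 < s0 / 2 := by positivity
  have hsT : s0 / 2 ≤ 1 / 8 := by linarith
  have hQfar : ∀ z : V, 1 / 8 ≤ ‖z‖ → Qs (s0 / 2) (1 / 8) z = 0 := fun z hz => Qs_far hs hsT hz
  obtain ⟨MQ, hMQ, n1, n2, n3, n4, n5⟩ := C2_bounds (Qs_C2 (s0 / 2) (1 / 8)) (supp_of_far hQfar)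
  refine ⟨Ce * (2 * MQ) / kap, by positivity, ?_⟩
  intro δ D u ν c' h τ hc hν hcl hhτ hτs
  have hδ := hc.δ0
  have hh0 := hcl.h0
  have hτ0 : 0 < τ := by linarith
  have hδτ : 3 * δ ≤ τ := by linarith [hcl.hδ]
  have hexc := exc_nonneg δ D u ν c'
  set E := exc δ D u ν c' + δ + h ^ 5 with hE
  have hE0 : 0 < E := by positivity
  have hin : ∀ x : V, |inner ℝ ν x| ≤ ‖x‖ := fun x => by
    have := abs_real_inner_le_norm ν x
    rwa [hν, one_mul] at this
  have hc' := abs_le.1 hcl.hc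
  have hNh : ∀ y : V, ‖y‖ < 7 / 8 → τ / 2 < inner ℝ ν y → y ∈ NN D u := by
    intro y hy1 hy2
    apply hcl.pos y hy1
    linarith [hc'.1]
  have hN : ∀ y : V, ‖y‖ ≤ 3 / 4 → τ ≤ inner ℝ ν y → y ∈ NN D u := fun y h1 h2 =>
    hNh y (by linarith) (by linarith)
  obtain ⟨P, hP, P1, P2, P3, P4⟩ := cutP (v := vv u ν c') (ν := ν) hτ0
    ((vv_C1 hc.sol ν c').mono fun y hy => hNh y hy.1 hy.2)
  -- kernel part
  obtain ⟨b0, b1, hb1, hb0n, hb1n, hbx⟩ := hker P (Real.sqrt om * Real.sqrt (exc δ D u ν c')) ν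
    hP.continuous hν (by positivity) (by
      intro k B hk hB hkB hk0
      exact hc.Pint (by linarith) hν (fun y h1 h2 => (hcl.Nx_far hν hδ hhτ h1 h2).2) hN hP.continuous hB
        (fun y h1 h2 => (P1 y h1 h2).1)
        (fun y h1 h2 => by
          rw [(P3 y h1 h2).1, abs_mul, abs_of_nonneg (chi_nonneg _)]
          exact mul_le_of_le_one_left (abs_nonneg _) (chi_le_one _)) hk hkB hk0)
  have hI : Real.sqrt om * Real.sqrt (exc δ D u ν c') ≤ Real.sqrt om * Real.sqrt E := by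
    apply mul_le_mul_of_nonneg_left _ (Real.sqrt_nonneg _)
    apply Real.sqrt_le_sqrt
    have : 0 ≤ h ^ 5 := by positivity
    rw [hE]; linarith
  refine ⟨b0 / kap, (kap)⁻¹ • b1, ?_, ?_, ?_, ?_⟩
  · rw [inner_smul_right, hb1, mul_zero]
  · rw [abs_div, abs_of_pos hκp, div_le_iff₀ hκp]
    have h1 := hb0n.trans (mul_le_mul_of_nonneg_left hI hCk.le)
    refine h1.trans (le_of_eq ?_)
    field_simp
  · rw [norm_smul, Real.norm_eq_abs, abs_of_pos (by positivity), inv_mul_le_iff₀ hκp]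
    have h1 := hb1n.trans (mul_le_mul_of_nonneg_left hI hCk.le)
    refine h1.trans (le_of_eq ?_)
    field_simp
  intro x hx hxs
  -- the two representation formulas
  set Q := Qs (s0 / 2) (1 / 8) with hQ
  have hrx : ‖rf ν x‖ ≤ 1 / 8 := by rw [rf_norm hν]; exact hx
  have hrin : inner ℝ ν (rf ν x) = - inner ℝ ν x := rf_inner hν x
  have r1 := repr hP x hs hsT (by
    intro y hy
    rw [mem_closedBall, dist_eq_norm] at hy
    have h1 := hin (y - x)
    rw [inner_sub_right] at h1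
    have h2 := (abs_le.1 (h1.trans hy)).1
    have h3 : ‖y‖ ≤ 3 / 4 := by
      have := norm_add_le (y - x) x
      rw [sub_add_cancel] at this
      linarith
    have h4 : 2 * τ < inner ℝ ν y := by linarith
    rw [(P4 y h3 h4).2]
    exact lap_vv hc.sol ν c' (hN y h3 (by linarith)))
  have r2 := repr hP (rf ν x) hs hsT (by
    intro y hy
    rw [mem_closedBall, dist_eq_norm] at hy
    have h1 := hin (y - rf ν x)
    rw [inner_sub_right, hrin] at h1
    have h2 := (abs_le.1 (h1.trans hy)).2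
    have h3 : ‖y‖ ≤ 3 / 4 := by
      have := norm_add_le (y - rf ν x) (rf ν x)
      rw [sub_add_cancel] at this
      linarith
    exact (P1 y h3 (by linarith)).2.2)
  have hPx : P x = vv u ν c' x := (P4 x (by linarith) (by linarith)).1
  have hPrx : P (rf ν x) = 0 := (P1 (rf ν x) (by linarith) (by rw [hrin]; linarith)).1
  rw [hPx] at r1
  rw [hPrx, mul_zero] at r2
  -- the even function
  set F : V → ℝ := fun y => Q (y - x) + Q (y - rf ν x) with hF
  have hsubx : ∀ z : V, ContDiff ℝ 2 (fun y : V => y - z) := fun z => contDiff_id.sub contDiff_const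
  have hQx : ∀ z : V, ContDiff ℝ 2 (fun y => Q (y - z)) := fun z => (Qs_C2 _ _).comp (hsubx z)
  have hFs : ContDiff ℝ 2 F := (hQx x).add (hQx _)
  have hFd : ∀ y, fderiv ℝ F y = fderiv ℝ (fun y => Q (y - x)) y +
      fderiv ℝ (fun y => Q (y - rf ν x)) y := by
    intro y
    exact fderiv_fun_add ((hQx x).differentiable (by norm_num) y) ((hQx _).differentiable (by norm_num) y)
  have hQd : ∀ z y : V, fderiv ℝ (fun y => Q (y - z)) y = fderiv ℝ Q (y - z) := by
    intro z y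
    exact fderiv_comp_sub z
  have hfar2 : ∀ (z : V), ‖z‖ ≤ 1 / 8 → ∀ y : V, 1 / 4 ≤ ‖y‖ → Q (y - z) = 0 := by
    intro z hz y hy
    apply hQfar
    have := norm_sub_norm_le y z
    linarith
  have hFb : ∀ y, |F y| ≤ 2 * MQ := fun y => (abs_add_le _ _).trans (by
    have := n1 (y - x); have := n1 (y - rf ν x); linarith)
  have hFg : ∀ y, ‖fderiv ℝ F y‖ ≤ 2 * MQ := fun y => by
    rw [hFd, hQd, hQd]
    exact (norm_add_le _ _).trans (by
      have := n2 (y - x); have := n2 (y - rf ν x); linarith)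
  have hFν : ∀ y, |fderiv ℝ F y ν| ≤ 2 * MQ * |inner ℝ ν y| := fun y =>
    even_ker ((Qs_C2 _ _).differentiable (by norm_num)) (fun z w hzw => Qs_radial _ _ hzw) n3 hν x y
  have hterm := heven δ D u ν c' h τ hc hν hcl hhτ (by linarith) P F (2 * MQ) hP
    (fun y h1 h2 => (P1 y h1 h2).2.1) (fun y h1 h2 => (P3 y h1 h2).2) (hFs.of_le (by norm_num))
    (fun y hy => by
      simp only [hF]
      rw [hfar2 x hx y (by linarith), hfar2 _ hrx y (by linarith), add_zero])
    (by positivity) hFb hFg hFν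
  have hgP : Continuous (gr P) := gr_continuous (hP.of_le (by norm_num))
  have hi : ∀ z : V, ‖z‖ ≤ 1 / 8 → Integrable (fun y => fderiv ℝ (fun y => Q (y - z)) y (gr P y)) := by
    intro z hz
    have h1 : Continuous (fun y => fderiv ℝ (fun y => Q (y - z)) y (gr P y)) :=
      (((hQx z).continuous_fderiv (by norm_num))).clm_apply hgP
    apply h1.integrable_of_hasCompactSupport
    apply HasCompactSupport.intro (isCompact_closedBall (0 : V) (1 / 4))
    intro y hy
    rw [mem_closedBall, dist_zero_right, not_le] at hy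
    rw [fderiv_far (hfar2 z hz) hy]; simp
  have hi2 : ∀ z : V, ‖z‖ ≤ 1 / 8 → Integrable (fun y => P y * qk (1 / 8) (y - z)) := by
    intro z hz
    have h1 : Continuous (fun y => P y * qk (1 / 8) (y - z)) :=
      hP.continuous.mul ((qk_C2 _).continuous.comp (hsubx z).continuous)
    apply h1.integrable_of_hasCompactSupport
    apply HasCompactSupport.intro (isCompact_closedBall (0 : V) (1 / 4))
    intro y hy
    rw [mem_closedBall, dist_zero_right, not_le] at hy
    rw [qk_far (by norm_num) (by have := norm_sub_norm_le y z; linarith), mul_zero]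
  have e1 : ∫ y, fderiv ℝ F y (gr P y) = (∫ y, fderiv ℝ (fun y => Q (y - x)) y (gr P y)) +
      ∫ y, fderiv ℝ (fun y => Q (y - rf ν x)) y (gr P y) := by
    rw [← integral_add (hi x hx) (hi _ hrx)]
    congr 1
    funext y
    rw [hFd, _root_.add_apply]
  have e2 : ∫ y, P y * (qk (1 / 8) (y - x) + qk (1 / 8) (y - rf ν x)) =
      (∫ y, P y * qk (1 / 8) (y - x)) + ∫ y, P y * qk (1 / 8) (y - rf ν x) := by
    rw [← integral_add (hi2 x hx) (hi2 _ hrx)]
    congr 1
    funext y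
    ring
  have hsum : kap * vv u ν c' x = (∫ y, P y * (qk (1 / 8) (y - x) + qk (1 / 8) (y - rf ν x))) +
      ∫ y, fderiv ℝ F y (gr P y) := by
    rw [e1, e2]; linarith
  have hb := hbx x hx
  rw [inner_smul_left]
  simp only [conj_trivial]
  have e3 : vv u ν c' x - (b0 / kap + kap⁻¹ * inner ℝ b1 x) =
      (((∫ y, P y * (qk (1 / 8) (y - x) + qk (1 / 8) (y - rf ν x))) - (b0 + inner ℝ b1 x)) +
        ∫ y, fderiv ℝ F y (gr P y)) / kap := by
    rw [eq_div_iff hκp.ne', ← add_sub_right_comm, ← hsum]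
    field_simp
  rw [e3, abs_div, abs_of_pos hκp, div_le_iff₀ hκp]
  refine (abs_add_le _ _).trans ?_
  have h5 : Ck * ‖x‖ ^ 2 * (Real.sqrt om * Real.sqrt (exc δ D u ν c')) ≤
      Ck * ‖x‖ ^ 2 * (Real.sqrt om * Real.sqrt E) := mul_le_mul_of_nonneg_left hI (by positivity)
  have h6 : (Ck * Real.sqrt om / kap * ‖x‖ ^ 2 * Real.sqrt E +
      Ce * (2 * MQ) / kap * (E + Real.sqrt τ * Real.sqrt E)) * kap =
      Ck * ‖x‖ ^ 2 * (Real.sqrt om * Real.sqrt E) +
        Ce * (2 * MQ) * (E + Real.sqrt τ * Real.sqrt E) := by field_simp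
  rw [h6]
  exact add_le_add (hb.trans h5) hterm

end

end Pool.Agent.D0H33.FC
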