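import Mathlib
import Pool.Agent.D0H33.FC.C21
import Pool.Agent.D0H33.FB.A22

set_option autoImplicit false

open Set Metric Filter Topology MeasureTheory
open ExtStar (lap)
open Pool.Agent.D0H33.FB

namespace Pool.Agent.D0H33.FC

noncomputable section

variable {D : Set V} {u : V → ℝ}

lemma ann_scl {r : ℝ} (hr : 0 < r) (a b : ℝ) (x : V) :
    x ∈ ann (a / r) (b / r) ↔ r • x ∈ ann a b := by
  unfold ann
  simp only [mem_ofPred_eq]
  rw [norm_rsmul hr, Nx_rsmul hr, div_lt_iff₀ hr, lt_div_iff₀ hr, mul_comm r, mul_comm r]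

/-- rescaling of configurations -/
lemma Cfg.scale {L c κ δ : ℝ} (h : Cfg L c κ δ D u) (hκ : 0 < κ) {r : ℝ} (hr : 0 < r) (hr1 : r ≤ 1) :
    Cfg L c κ (δ / r) (sclD 0 r D) (scl 0 r u) := by
  have key : ∀ x : V, δ / r < Nx x → ‖x‖ < 1 → δ < Nx (r • x) ∧ ‖r • x‖ < 1 := by
    intro x h1 h2
    rw [norm_rsmul hr, Nx_rsmul hr]
    rw [div_lt_iff₀ hr] at h1
    exact ⟨by linarith, by nlinarith [norm_nonneg x]⟩
  refine ⟨h.sol.scale 0 hr, div_pos h.δ0 hr, ?_, ?_, ?_, ?_⟩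
  · intro x h1 h2
    obtain ⟨k1, k2⟩ := key x h1 h2
    show 0 + r • x ∈ D
    rw [zero_add]
    exact h.sub _ k1 k2
  · intro x hx h1 h2
    obtain ⟨k1, k2⟩ := key x h1 h2
    rw [NN_scl 0 hr] at hx
    rw [gr_scl h.sol 0 hr hx]
    have hx' : (0 : V) + r • x ∈ NN D u := hx
    rw [zero_add] at hx' ⊢
    exact h.lip _ hx' k1 k2
  · intro x h1 h2
    obtain ⟨k1, k2⟩ := key x h1 h2
    unfold scl
    rw [zero_add, div_le_iff₀ hr]
    refine (h.bd _ k1 k2).trans (le_of_eq ?_)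
    rw [Nx_rsmul hr]; ring
  · intro z t hz ht1 ht2
    have h1 : NN (sclD 0 r D) (scl 0 r u) ∩ loc z (t / κ) t =
        {x | (0 : V) + r • x ∈ NN D u ∩ loc (r * z) (r * t / κ) (r * t)} := by
      rw [NN_scl 0 hr]
      ext x
      have e1 : x ∈ loc z (t / κ) t ↔ r • x ∈ loc (r * z) (r * t / κ) (r * t) := by
        unfold loc
        simp only [mem_ofPred_eq]
        have a1 : r • x - (r * z) • ax = r • (x - z • ax) := by module
        rw [a1, norm_rsmul hr, Nx_rsmul hr, mul_div_assoc]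
        rw [mul_lt_mul_iff_right₀ hr, mul_lt_mul_iff_right₀ hr]
      constructor
      · rintro ⟨a, b⟩
        refine ⟨a, ?_⟩
        rw [zero_add]
        exact e1.1 b
      · rintro ⟨a, b⟩
        rw [zero_add] at b
        exact ⟨a, e1.2 b⟩
    rw [h1, vol_scl 0 hr]
    have ht0 : 0 ≤ t := le_trans (by have := h.δ0; positivity) ht1
    have h2 := h.dens (r * z) (r * t) (by
      rw [abs_mul, abs_of_pos hr]
      nlinarith [abs_nonneg z]) (by
      have : κ * (δ / r) * r ≤ t * r := mul_le_mul_of_nonneg_right ht1 hr.le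
      have e : κ * (δ / r) * r = κ * δ := by field_simp
      linarith) (by nlinarith)
    have h3 : (r ^ 3)⁻¹ * (c * (r * t) ^ 3) = c * t ^ 3 := by field_simp
    rw [← h3]
    exact mul_le_mul_of_nonneg_left h2 (by positivity)

/-- rescaling of the excess -/
lemma exc_scl {δ : ℝ} (h : Sol D u) {r : ℝ} (hr : 0 < r) (ν : V) (c : ℝ) :
    exc (δ / r) (sclD 0 r D) (scl 0 r u) ν (c / r) =
      (r ^ 5)⁻¹ * ∫ x in NN D u ∩ ann δ r, vv u ν c x ^ 2 := by
  unfold exc
  have h1 : NN (sclD 0 r D) (scl 0 r u) ∩ ann (δ / r) 1 =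
      {x | (0 : V) + r • x ∈ NN D u ∩ ann δ r} := by
    rw [NN_scl 0 hr]
    ext x
    have e1 : x ∈ ann (δ / r) 1 ↔ r • x ∈ ann δ r := by
      rw [← ann_scl hr]
      rw [div_self hr.ne']
    constructor
    · rintro ⟨a, b⟩
      refine ⟨a, ?_⟩
      rw [zero_add]
      exact e1.1 b
    · rintro ⟨a, b⟩
      rw [zero_add] at b
      exact ⟨a, e1.2 b⟩
  rw [h1]
  have h2 : ∀ x : V, vv (scl 0 r u) ν (c / r) x ^ 2 =
      (fun z => (r ^ 2)⁻¹ * vv u ν c z ^ 2) (0 + r • x) := by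
    intro x
    unfold vv scl
    simp only [zero_add, inner_smul_right]
    field_simp
  simp_rw [h2]
  rw [int_scl 0 hr (h.meas_NN.inter (ann_meas _ _)) (fun z => (r ^ 2)⁻¹ * vv u ν c z ^ 2),
    integral_const_mul]
  field_simp

end

end Pool.Agent.D0H33.FC
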