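import Mathlib
import Pool.Agent.D0H33.FC.C08
import Pool.Agent.D0H33.FB.A25
import Pool.Agent.D0H33.FB.A27

set_option autoImplicit false

open Set Metric Filter Topology MeasureTheory
open ExtStar (lap)
open Pool.Agent.D0H33.FB

namespace Pool.Agent.D0H33.FC

noncomputable section

variable {D : Set V} {u : V → ℝ}

/-- a unit vector orthogonal to `x` and the axis and in the half space of `p` -/
lemma exists_orth_c (x p : V) : ∃ q : V, ‖q‖ = 1 ∧ inner ℝ x q = 0 ∧ inner ℝ ax q = 0 ∧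
    0 ≤ inner ℝ q p := by
  have h1 : ∃ q : V, q ≠ 0 ∧ inner ℝ x q = 0 ∧ inner ℝ ax q = 0 := by
    classical
    have hfr : Module.finrank ℝ (Submodule.span ℝ (({x, ax} : Finset V) : Set V) : Submodule ℝ V) ≤ 2 := by
      have h2 := finrank_span_finset_le_card (R := ℝ) ({x, ax} : Finset V)
      have h3 : ({x, ax} : Finset V).card ≤ 2 := Finset.card_le_two
      exact h2.trans h3
    have h2 : 0 < Module.finrank ℝ
        ((Submodule.span ℝ (({x, ax} : Finset V) : Set V))ᗮ : Submodule ℝ V) := by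
      have h3 := Submodule.finrank_add_finrank_orthogonal
        (Submodule.span ℝ (({x, ax} : Finset V) : Set V) : Submodule ℝ V)
      have h4 : Module.finrank ℝ V = 3 := finrank_euclideanSpace_fin
      omega
    obtain ⟨q, hq⟩ := Module.finrank_pos_iff_exists_ne_zero.1 h2
    have hq2 := (Submodule.mem_orthogonal _ _).1 q.2
    refine ⟨q, fun h => hq (Subtype.ext h), ?_, ?_⟩
    · exact hq2 x (Submodule.subset_span (by simp))
    · exact hq2 ax (Submodule.subset_span (by simp))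
  obtain ⟨q, hq0, hq, hqa⟩ := h1
  have hqn : 0 < ‖q‖ := norm_pos_iff.2 hq0
  by_cases hs : 0 ≤ inner ℝ q p
  · refine ⟨‖q‖⁻¹ • q, ?_, ?_, ?_, ?_⟩
    · rw [norm_smul, Real.norm_eq_abs, abs_of_pos (by positivity), inv_mul_cancel₀ hqn.ne']
    · rw [inner_smul_right, hq, mul_zero]
    · rw [inner_smul_right, hqa, mul_zero]
    · rw [inner_smul_left]; simp only [conj_trivial]; positivity
  · push Not at hs
    refine ⟨(-‖q‖⁻¹) • q, ?_, ?_, ?_, ?_⟩
    · rw [norm_smul, Real.norm_eq_abs, abs_neg, abs_of_pos (by positivity), inv_mul_cancel₀ hqn.ne']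
    · rw [inner_smul_right, hq, mul_zero]
    · rw [inner_smul_right, hqa, mul_zero]
    · rw [inner_smul_left]
      simp only [conj_trivial]
      have : 0 < ‖q‖⁻¹ := by positivity
      nlinarith

lemma seg_ax {a b z : V} (ha : inner ℝ ax a = 0) (hb : inner ℝ ax b = 0) (hz : z ∈ segment ℝ a b) :
    inner ℝ ax z = 0 := by
  obtain ⟨s, t, hs, ht, hst, rfl⟩ := hz
  rw [inner_add_right, inner_smul_right, inner_smul_right, ha, hb]; ring

/-- Lipschitz bound on the unit circle -/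
lemma lip_unit_c : ∃ L : ℝ, 1 ≤ L ∧ ∀ (D : Set V) (u : V → ℝ) (p x : V), Sol D u →
    (∀ z : V, inner ℝ ax z = 0 → 7 / 10 ≤ ‖z‖ → ‖z‖ ≤ 1 → closedBall z (1 / 16) ⊆ D) →
    p ∈ FF D u → ‖p‖ = 1 → inner ℝ ax p = 0 → ‖x‖ = 1 → inner ℝ ax x = 0 →
    u x ≤ L ∧ (x ∈ NN D u → ‖gr u x‖ ≤ L) := by
  obtain ⟨Cs, hCs, hseg⟩ := seg_bound
  obtain ⟨Ct, hCt, htouch⟩ := touch
  obtain ⟨Cg, hCg, hgrad⟩ := ExtStar.grad_harnack 3 0 (le_refl 0)
  set B := Cs * (Cs * (0 + 1) + 1) with hB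
  have hB1 : 1 ≤ B := by nlinarith
  refine ⟨B + 16 * Cg * B + Cg * Ct, by nlinarith [mul_pos hCg hCt, mul_pos hCg (by linarith : 0 < B)], ?_⟩
  intro D u p x h hcb hp hp1 hpa hx1 hxa
  obtain ⟨q, hq1, hxq, hqa, hqp⟩ := exists_orth_c x p
  have hpN : p ∉ NN D u := by
    have := hp.2
    rw [h.isOpen_NN.frontier_eq] at this
    exact this.2
  have hne : ((NN D u)ᶜ).Nonempty := ⟨p, hpN⟩
  have hn2 : ∀ a b : V, ‖a‖ = 1 → ‖b‖ = 1 → ‖a - b‖ ≤ 2 := by
    intro a b ha hb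
    have := norm_sub_le a b
    linarith
  have h1 := hseg D u q p 0 h (fun z hz => hcb z (seg_ax hqa hpa hz) (seg_norm hq1 hp1 hqp hz).1
      (seg_norm hq1 hp1 hqp hz).2)
    (hn2 _ _ hq1 hp1) hne (le_refl _) (h.zero_of_FF hp).le
  have h2 := hseg D u x q (Cs * (0 + 1)) h
    (fun z hz => hcb z (seg_ax hxa hqa hz) (seg_norm hx1 hq1 hxq.ge hz).1 (seg_norm hx1 hq1 hxq.ge hz).2)
    (hn2 _ _ hx1 hq1) hne (by positivity) h1
  have hux : u x ≤ B := h2
  refine ⟨by nlinarith [mul_pos hCg hCt, mul_pos hCg (by linarith : 0 < B)], ?_⟩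
  intro hxN
  have hd0 : 0 < dN D u x := by
    unfold dN
    rw [← h.isOpen_NN.isClosed_compl.notMem_iff_infDist_pos hne]
    exact fun hn => hn hxN
  rw [gr_norm]
  by_cases hd : dN D u x ≤ 1 / 16
  · have h3 := htouch D u x (1 / 16) h (by norm_num) (hcb x hxa (by rw [hx1]; norm_num) hx1.le) hxN hne hd
    have h4 := hgrad u x (dN D u x) hd0 (hd.trans (by norm_num)) (h.quasi (h.ball_dN (le_refl _)))
    have h5 : Cg / dN D u x * u x ≤ Cg * Ct := by
      rw [div_mul_eq_mul_div, div_le_iff₀ hd0]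
      have := mul_le_mul_of_nonneg_left h3 hCg.le
      linarith
    nlinarith [mul_pos hCg (by linarith : 0 < B)]
  · push Not at hd
    have h4 := hgrad u x (1 / 16) (by norm_num) (by norm_num) (h.quasi (h.ball_dN hd.le))
    have h5 : Cg / (1 / 16) * u x ≤ 16 * Cg * B := by
      have : Cg / (1 / 16) = 16 * Cg := by ring
      rw [this]
      exact mul_le_mul_of_nonneg_left hux (by positivity)
    nlinarith [mul_pos hCg hCt]

lemma dec_ax (x : V) : (inner ℝ ax x) • ax + (x - (inner ℝ ax x) • ax) = x := by abel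

lemma perp_ax (x : V) : inner ℝ ax (x - (inner ℝ ax x) • ax) = 0 := by
  rw [inner_sub_right, inner_smul_right, real_inner_self_eq_norm_sq, ax_norm]; ring

lemma Nx_perp {x : V} (hx : inner ℝ ax x = 0) : Nx x = ‖x‖ := by
  unfold Nx; rw [hx, zero_smul, sub_zero]

lemma norm_add_perp {z : ℝ} {x : V} (hx : inner ℝ ax x = 0) : ‖z • ax + x‖ ^ 2 = z ^ 2 + ‖x‖ ^ 2 := by
  rw [norm_add_sq_real, inner_smul_left, hx, norm_smul, ax_norm, mul_one, Real.norm_eq_abs, sq_abs]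
  simp

/-- Lipschitz bound near the cylinder -/
theorem lip_cyl : ∃ L : ℝ, 1 ≤ L ∧ ∀ (D : Set V) (u : V → ℝ) (δ : ℝ), Sol D u → 0 < δ →
    ann δ 1 ⊆ D →
    (∀ ρ z : ℝ, δ < ρ → ρ ^ 2 + z ^ 2 < 1 → ∃ p ∈ FF D u, Nx p = ρ ∧ inner ℝ ax p = z) →
    ∀ x : V, 2 * δ < Nx x → ‖x‖ < 1 / 2 → u x ≤ L * Nx x ∧ (x ∈ NN D u → ‖gr u x‖ ≤ L) := by
  obtain ⟨L, hL, hunit⟩ := lip_unit_c
  refine ⟨L, hL, ?_⟩
  intro D u δ h hδ hD hF x hx1 hx2
  set ρ := Nx x with hρ
  set z := inner ℝ ax x with hz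
  have hρ0 : 0 < ρ := by linarith
  have hsq : ρ ^ 2 + z ^ 2 = ‖x‖ ^ 2 := by
    have := Nx_sq x
    rw [← hρ, ← hz] at this; linarith
  have hx4 : ‖x‖ ^ 2 < 1 / 4 := by nlinarith [norm_nonneg x]
  obtain ⟨p, hp, hpn, hpz⟩ := hF ρ z (by linarith) (by linarith)
  have hsc := h.scale (z • ax) hρ0
  have hback : ∀ y : V, inner ℝ ax y = z → z • ax + ρ • (ρ⁻¹ • (y - z • ax)) = y := by
    intro y _
    rw [smul_smul, mul_inv_cancel₀ hρ0.ne', one_smul]; abel
  have hperp : ∀ y : V, inner ℝ ax y = z → inner ℝ ax (ρ⁻¹ • (y - z • ax)) = 0 := by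
    intro y hy
    rw [inner_smul_right, ← hy, perp_ax, mul_zero]
  have hnorm : ∀ y : V, inner ℝ ax y = z → Nx y = ρ → ‖ρ⁻¹ • (y - z • ax)‖ = 1 := by
    intro y hy hy2
    have h1 : ‖y - z • ax‖ = ρ := by rw [← hy2, ← hy]; rfl
    rw [norm_rsmul (by positivity), h1, inv_mul_cancel₀ hρ0.ne']
  have h1 := hunit (sclD (z • ax) ρ D) (scl (z • ax) ρ u) (ρ⁻¹ • (p - z • ax)) (ρ⁻¹ • (x - z • ax)) hsc
    (by
      intro w hwa hw1 hw2 y hy
      show z • ax + ρ • y ∈ D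
      rw [mem_closedBall, dist_eq_norm] at hy
      apply hD
      constructor
      · rw [Nx_add_ax, Nx_rsmul hρ0]
        have h3 := Nx_tri w y
        rw [Nx_perp hwa, norm_sub_rev] at h3
        nlinarith
      · have e : z • ax + ρ • y = (z • ax + ρ • w) + ρ • (y - w) := by rw [smul_sub]; abel
        rw [e]
        have h3 : ‖z • ax + ρ • w‖ ≤ 1 / 2 := by
          have h4 : ‖z • ax + ρ • w‖ ^ 2 = z ^ 2 + ‖ρ • w‖ ^ 2 :=
            norm_add_perp (by rw [inner_smul_right, hwa, mul_zero])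
          have h5 : ‖ρ • w‖ ≤ ρ := by rw [norm_rsmul hρ0]; nlinarith
          have h6 : ‖ρ • w‖ ^ 2 ≤ ρ ^ 2 := pow_le_pow_left₀ (norm_nonneg _) h5 2
          have h7 : ‖z • ax + ρ • w‖ ^ 2 ≤ (1 / 2) ^ 2 := by rw [h4]; nlinarith
          exact (pow_le_pow_iff_left₀ (norm_nonneg _) (by norm_num) (by norm_num)).1 h7
        have h4 : ‖ρ • (y - w)‖ ≤ 1 / 16 := by
          rw [norm_rsmul hρ0]
          have h5 : ρ < 1 := by nlinarith [sq_nonneg z]
          nlinarith [norm_nonneg (y - w)]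
        exact (norm_add_le _ _).trans_lt (by linarith))
    (by
      rw [FF_scl _ hρ0]
      show z • ax + ρ • ρ⁻¹ • (p - z • ax) ∈ FF D u
      rw [hback p hpz]; exact hp)
    (hnorm p hpz hpn) (hperp p hpz) (hnorm x rfl rfl) (hperp x rfl)
  have e1 : z • ax + ρ • ρ⁻¹ • (x - z • ax) = x := hback x rfl
  constructor
  · have h2 := h1.1
    unfold scl at h2
    rw [e1, div_le_iff₀ hρ0] at h2
    exact h2
  · intro hxN
    have hxN' : z • ax + ρ • ρ⁻¹ • (x - z • ax) ∈ NN D u := by rw [e1]; exact hxN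
    have h2 := h1.2 (by rw [NN_scl _ hρ0]; exact hxN')
    rw [gr_scl h _ hρ0 hxN', e1] at h2
    exact h2

/-- configurations from solutions -/
theorem cfg_consts (L : ℝ) (hL : 1 ≤ L) : ∃ c κ : ℝ, 0 < c ∧ 8 ≤ κ ∧
    (∀ (D : Set V) (u : V → ℝ) (δ : ℝ), Sol D u → 0 < δ → ann δ 1 ⊆ D →
      (∀ ρ z : ℝ, δ < ρ → ρ ^ 2 + z ^ 2 < 1 → ∃ p ∈ FF D u, Nx p = ρ ∧ inner ℝ ax p = z) →
      (∀ x : V, δ < Nx x → ‖x‖ < 1 → u x ≤ L * Nx x ∧ (x ∈ NN D u → ‖gr u x‖ ≤ L)) →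
      Cfg L c κ δ D u) := by
  obtain ⟨c0, hc0, hdens⟩ := density L (by linarith)
  refine ⟨c0 / 64, 8, by positivity, le_refl _, ?_⟩
  intro D u δ h hδ hD hF hlip
  refine ⟨h, hδ, fun x h1 h2 => hD ⟨h1, h2⟩, fun x hx h1 h2 => (hlip x h1 h2).2 hx,
    fun x h1 h2 => (hlip x h1 h2).1, ?_⟩
  intro z t hz ht1 ht2
  have ht0 : 0 < t := by linarith
  have hz' := abs_le.1 hz
  obtain ⟨p, hp, hpn, hpz⟩ := hF (t / 2) z (by linarith) (by nlinarith)
  have hpz1 : ‖p - z • ax‖ = t / 2 := by rw [← hpn, ← hpz]; rfl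
  have hpnorm : ‖p‖ ≤ 7 / 8 + t / 2 := by
    have : ‖p‖ ≤ ‖z • ax‖ + ‖p - z • ax‖ := by
      have := norm_add_le (z • ax) (p - z • ax)
      rwa [add_sub_cancel] at this
    rw [norm_smul, ax_norm, mul_one, Real.norm_eq_abs, hpz1] at this
    linarith
  have hcl : closedBall p (t / 4) ⊆ ann δ 1 := by
    intro x hx
    rw [mem_closedBall, dist_eq_norm] at hx
    have h3 : Nx p ≤ Nx x + ‖x - p‖ := by
      have := Nx_tri p x
      rwa [norm_sub_rev] at this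
    have h4 : ‖x‖ ≤ ‖p‖ + ‖x - p‖ := by
      have := norm_add_le p (x - p)
      simpa using this
    exact ⟨by linarith, by linarith⟩
  have h1 := hdens D u p (t / 4) h (by linarith) (hcl.trans hD)
    (fun x hx hxb => (hlip x (hcl hxb).1 (hcl hxb).2).2 hx)
    (frontier_subset_closure hp.2)
  have h2 : ball p (t / 4) ⊆ loc z (t / 8) t := by
    intro x hx
    rw [mem_ball, dist_eq_norm] at hx
    have h3 : Nx p ≤ Nx x + ‖x - p‖ := by
      have := Nx_tri p x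
      rwa [norm_sub_rev] at this
    have h4 : ‖x - z • ax‖ ≤ ‖p - z • ax‖ + ‖x - p‖ := by
      have e : x - z • ax = (p - z • ax) + (x - p) := by abel
      rw [e]; exact norm_add_le _ _
    exact ⟨by linarith, by linarith⟩
  have h3 : (volume : Measure V).real (NN D u ∩ ball p (t / 4)) ≤
      (volume : Measure V).real (NN D u ∩ loc z (t / 8) t) := by
    have hsb : loc z (t / 8) t ⊆ ball (z • ax) t := fun x hx => by
      rw [mem_ball, dist_eq_norm]; exact hx.2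
    exact measureReal_mono (inter_subset_inter_right _ h2)
      ((measure_mono (inter_subset_right.trans hsb)).trans_lt measure_ball_lt_top).ne
  refine le_trans (le_of_eq ?_) (h1.trans h3)
  ring

/-- from a solution outside the cylinder to configurations centred at points of the axis -/
theorem cfg_main : ∃ L c κ : ℝ, 1 ≤ L ∧ 0 < c ∧ 8 ≤ κ ∧
    (∀ (D : Set V) (u : V → ℝ) (δ z0 : ℝ), Sol D u → 0 < δ → ann δ 1 ⊆ D → |z0| ≤ 1 / 4 →
      (∀ ρ z : ℝ, δ < ρ → ρ ^ 2 + z ^ 2 < 1 → ∃ p ∈ FF D u, Nx p = ρ ∧ inner ℝ ax p = z) →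
      Cfg L c κ (8 * δ) (sclD (z0 • ax) (1 / 4) D) (scl (z0 • ax) (1 / 4) u)) := by
  obtain ⟨L, hL, hlip⟩ := lip_cyl
  obtain ⟨c, κ, hc, hκ, h1⟩ := cfg_consts L hL
  refine ⟨L, c, κ, hL, hc, hκ, ?_⟩
  intro D u δ z0 h hδ hD hz0 hF
  have hh : (0 : ℝ) < 1 / 4 := by norm_num
  have hz0n : ‖z0 • ax‖ ≤ 1 / 4 := by rw [norm_smul, ax_norm, mul_one, Real.norm_eq_abs]; exact hz0
  have hn : ∀ x : V, ‖z0 • ax + (1 / 4 : ℝ) • x‖ ≤ 1 / 4 + ‖x‖ / 4 := by
    intro x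
    refine (norm_add_le _ _).trans ?_
    rw [norm_rsmul hh]; linarith
  have hN : ∀ x : V, Nx (z0 • ax + (1 / 4 : ℝ) • x) = Nx x / 4 := by
    intro x
    rw [Nx_add_ax, Nx_rsmul hh]; ring
  apply h1 _ _ _ (h.scale _ hh) (by linarith)
  · intro x hx
    apply hD
    exact ⟨by rw [hN]; linarith [hx.1], by linarith [hn x, hx.2]⟩
  · intro ρ z hρ1 hρ2
    have hz0' := abs_le.1 hz0
    have hρlt : ρ < 1 := by nlinarith [sq_nonneg z]
    have hzz : z ^ 2 < 1 := by nlinarith [sq_nonneg ρ]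
    have hz1 : |z| < 1 := by rw [← sq_lt_one_iff_abs_lt_one]; exact hzz
    have hz2 := abs_lt.1 hz1
    obtain ⟨p, hp, hpn, hpz⟩ := hF (ρ / 4) (z0 + z / 4) (by linarith) (by nlinarith)
    refine ⟨(4 : ℝ) • (p - z0 • ax), ?_, ?_, ?_⟩
    · rw [FF_scl _ hh]
      show z0 • ax + (1 / 4 : ℝ) • (4 : ℝ) • (p - z0 • ax) ∈ FF D u
      rw [smul_smul]
      norm_num
      exact hp
    · rw [Nx_rsmul (by norm_num)]
      have := Nx_add_ax z0 (p - z0 • ax)
      rw [add_sub_cancel] at this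
      rw [← this, hpn]; ring
    · rw [inner_smul_right, inner_sub_right, inner_smul_right, real_inner_self_eq_norm_sq, ax_norm, hpz]
      ring
  · intro x hx1 hx2
    have h3 := hlip D u δ h hδ hD hF (z0 • ax + (1 / 4 : ℝ) • x) (by rw [hN]; linarith)
      (by linarith [hn x])
    rw [hN] at h3
    constructor
    · unfold scl
      have := h3.1
      rw [div_le_iff₀ hh]
      linarith
    · intro hx
      rw [NN_scl _ hh] at hx
      rw [gr_scl h _ hh hx]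
      exact h3.2 hx

end

end Pool.Agent.D0H33.FC
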