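import Mathlib
import Pool.Agent.Helper133.Brouwer
import Pool.Agent.D0H33.FC.C25
import Pool.Agent.D0H33.FB.A34

set_option autoImplicit false

open Set Metric Filter Topology MeasureTheory
open ExtStar (lap)
open Pool.Agent.D0H33.FB

namespace Pool.Agent.D0H33.FC

noncomputable section

variable {D : Set V} {u : V → ℝ}

lemma pr_cont : Continuous (pr : V → W) := by
  unfold pr
  fun_prop

lemma pr_norm (x : V) : ‖pr x‖ = Nx x := by
  have h1 : ‖pr x‖ ^ 2 = Nx x ^ 2 := by
    rw [Nx_sq, ax, ee_inner, EuclideanSpace.norm_sq_eq, EuclideanSpace.norm_sq_eq,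
      Fin.sum_univ_three, Fin.sum_univ_two]
    simp only [Real.norm_eq_abs, sq_abs]
    show x 0 ^ 2 + x 1 ^ 2 = _
    ring
  exact (sq_eq_sq₀ (norm_nonneg _) (Nx_nonneg _)).1 h1

lemma pr_li (y : W) (t : ℝ) : pr (li y t) = y := by
  ext i
  fin_cases i
  · show (li y t) 0 = y 0
    exact li_zero y t
  · show (li y t) 1 = y 1
    exact li_one y t

lemma Nx_li (y : W) (t : ℝ) : Nx (li y t) = ‖y‖ := by
  rw [← pr_norm, pr_li]

lemma ax_li (y : W) (t : ℝ) : inner ℝ ax (li y t) = t := by
  unfold ax; exact li_inner y t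

lemma li_cont_left (t : ℝ) : Continuous (fun y : W => li y t) := by
  unfold li; fun_prop

/-- a contractible set avoiding the axis contains no circle around the axis -/
theorem no_circle {X : Set V} (hX : ∀ x ∈ X, Nx x ≠ 0) [hc : ContractibleSpace X] {ρ z0 : ℝ} (hρ : 0 < ρ)
    (hS : ∀ x : V, Nx x = ρ → inner ℝ ax x = z0 → x ∈ X) : False := by
  obtain ⟨y, ⟨H⟩⟩ := id_nullhomotopic X
  -- H : Homotopy id (const y)
  set s : W → X := fun x => if h : x ≠ 0 then
    ⟨li ((ρ / ‖x‖) • x) z0, hS _ (by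
      have h0 : 0 < ‖x‖ := norm_pos_iff.2 h
      rw [Nx_li, norm_smul, Real.norm_of_nonneg (by positivity)]
      field_simp) (ax_li _ _)⟩ else y with hs
  have hsval : ∀ x : W, x ≠ 0 → ((s x : X) : V) = li ((ρ / ‖x‖) • x) z0 := by
    intro x hx
    simp only [hs]
    rw [dif_pos hx]
  have hscont : ∀ x : W, x ≠ 0 → ContinuousAt s x := by
    intro x hx
    rw [Topology.IsInducing.subtypeVal.continuousAt_iff]
    have h1 : ContinuousAt (fun z : W => (ρ / ‖z‖) • z) x := by
      have h2 : ContinuousAt (fun z : W => ρ / ‖z‖) x :=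
        continuousAt_const.div continuous_norm.continuousAt (norm_ne_zero_iff.2 hx)
      exact h2.smul continuousAt_id
    have h3 : ContinuousAt (fun z : W => li ((ρ / ‖z‖) • z) z0) x :=
      ContinuousAt.comp (g := fun y : W => li y z0) (li_cont_left z0).continuousAt h1
    apply h3.congr
    filter_upwards [isOpen_ne.mem_nhds hx] with z hz
    exact (hsval z hz).symm
  set τ : W → unitInterval := fun x => Set.projIcc 0 1 zero_le_one (2 - 2 * ‖x‖) with hτ
  have hτc : Continuous τ := continuous_projIcc.comp (by fun_prop)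
  set f : W → X := fun x => if ‖x‖ < 1 / 2 then y else H (τ x, s x) with hf
  have hτ1 : ∀ x : W, ‖x‖ ≤ 1 / 2 → τ x = 1 := by
    intro x hx
    simp only [hτ]
    exact Set.projIcc_of_right_le _ (by linarith)
  have hτ0 : ∀ x : W, 1 ≤ ‖x‖ → τ x = 0 := by
    intro x hx
    simp only [hτ]
    exact Set.projIcc_of_le_left _ (by linarith)
  have hfc : Continuous f := by
    rw [continuous_iff_continuousAt]
    intro x
    by_cases hx : ‖x‖ < 1 / 2
    · have h1 : ContinuousAt (fun _ : W => y) x := continuousAt_const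
      apply h1.congr
      filter_upwards [(isOpen_lt continuous_norm continuous_const).mem_nhds hx] with z hz
      have hz' : ‖z‖ < 1 / 2 := hz
      simp only [hf]
      rw [if_pos hz']
    · push Not at hx
      have hx0 : x ≠ 0 := by
        intro h0
        rw [h0, norm_zero] at hx
        linarith
      have h1 : ContinuousAt (fun z : W => H (τ z, s z)) x := by
        have h2 : ContinuousAt (fun z : W => (τ z, s z)) x := hτc.continuousAt.prodMk (hscont x hx0)
        exact H.continuous.continuousAt.comp h2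
      apply h1.congr
      filter_upwards [isOpen_ne.mem_nhds hx0] with z hz
      simp only [hf]
      split_ifs with hz2
      · rw [hτ1 z hz2.le]
        simp
      · rfl
  have hne : ∀ x : W, pr ((f x : X) : V) ≠ 0 := by
    intro x h0
    have h1 := hX _ (f x).2
    rw [← pr_norm, h0, norm_zero] at h1
    exact h1 rfl
  set F : W → W := fun x => -((‖pr ((f x : X) : V)‖)⁻¹ • pr ((f x : X) : V)) with hF
  have hFc : Continuous F := by
    have h1 : Continuous (fun x : W => pr ((f x : X) : V)) :=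
      pr_cont.comp (continuous_subtype_val.comp hfc)
    have h2 : Continuous (fun x : W => (‖pr ((f x : X) : V)‖)⁻¹) :=
      h1.norm.inv₀ (fun x => norm_ne_zero_iff.2 (hne x))
    exact (h2.smul h1).neg
  have hFn : ∀ x, ‖F x‖ = 1 := by
    intro x
    simp only [hF]
    rw [norm_neg, norm_smul, norm_inv, norm_norm]
    exact inv_mul_cancel₀ (norm_ne_zero_iff.2 (hne x))
  obtain ⟨x, hx⟩ := Pool.Agent.Helper133.Brouwer.brouwer_euclidean 2 F hFc 1 (fun x => (hFn x).le)
  have hx1 : ‖x‖ = 1 := by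
    rw [← hx]
    exact hFn x
  have hx0 : x ≠ 0 := by
    intro h0
    rw [h0, norm_zero] at hx1
    norm_num at hx1
  have hfx : pr ((f x : X) : V) = ρ • x := by
    simp only [hf]
    rw [if_neg (by rw [hx1]; norm_num), hτ0 x hx1.ge]
    rw [H.apply_zero]
    rw [ContinuousMap.id_apply, hsval x hx0, hx1, div_one, pr_li]
  have hFx : F x = -x := by
    simp only [hF]
    rw [hfx, norm_smul, hx1, Real.norm_of_nonneg hρ.le, mul_one, smul_smul, inv_mul_cancel₀ hρ.ne', one_smul]
  rw [hFx] at hx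
  apply hx0
  have h2 : (2 : ℝ) • x = 0 := by
    rw [two_smul]
    nth_rewrite 1 [← hx]
    simp
  exact (smul_eq_zero.1 h2).resolve_left (by norm_num)

/-- if both phases are contractible then every circle around the axis meets the free boundary -/
theorem circle_meets {D : Set V} {u : V → ℝ} {δ : ℝ} (h : Sol D u) (hδ : 0 < δ) (hD : ann δ 1 ⊆ D)
    {X Y : Set V} (hX0 : ∀ x ∈ X, Nx x ≠ 0) (hY0 : ∀ x ∈ Y, Nx x ≠ 0) (hX : ∀ x ∈ D, 0 < u x → x ∈ X)
    (hY : ∀ x ∈ D, u x = 0 → x ∈ Y) (hcX : ContractibleSpace X) (hcY : ContractibleSpace Y) :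
    ∀ ρ z : ℝ, δ < ρ → ρ ^ 2 + z ^ 2 < 1 → ∃ p ∈ FF D u, Nx p = ρ ∧ inner ℝ ax p = z := by
  intro ρ z hρ1 hρ2
  by_contra hcon
  push Not at hcon
  have hrk : 1 < Module.rank ℝ W := by
    rw [← Module.finrank_eq_rank, finrank_euclideanSpace]
    norm_num
  have hS0 : IsPreconnected (sphere (0 : W) ρ) := isPreconnected_sphere hrk 0 ρ
  have hS : IsPreconnected ((fun y : W => li y z) '' sphere (0 : W) ρ) :=
    hS0.image _ (li_cont_left z).continuousOn
  have hmem : ∀ x : V, Nx x = ρ → inner ℝ ax x = z → x ∈ (fun y : W => li y z) '' sphere (0 : W) ρ := by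
    intro x h1 h2
    refine ⟨pr x, ?_, ?_⟩
    · rw [mem_sphere_zero_iff_norm, pr_norm, h1]
    · show li (pr x) z = x
      have : z = x 2 := by rw [← h2]; unfold ax; rw [ee_inner]
      rw [this, li_pr]
  have hmem2 : ∀ x ∈ (fun y : W => li y z) '' sphere (0 : W) ρ, Nx x = ρ ∧ inner ℝ ax x = z := by
    rintro x ⟨y, hy, rfl⟩
    rw [mem_sphere_zero_iff_norm] at hy
    exact ⟨by show Nx (li y z) = ρ; rw [Nx_li, hy], ax_li y z⟩
  have hSD : (fun y : W => li y z) '' sphere (0 : W) ρ ⊆ D := by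
    intro x hx
    apply hD
    obtain ⟨h1, h2⟩ := hmem2 x hx
    refine ⟨by rw [h1]; exact hρ1, ?_⟩
    have h3 := Nx_sq x
    rw [h1, h2] at h3
    nlinarith [norm_nonneg x]
  rcases h.clean hS hSD (fun x hx hxF => hcon x hxF (hmem2 x hx).1 (hmem2 x hx).2) with h1 | h1
  · exact no_circle hX0 (hδ.trans hρ1) (fun x hx hx2 => by
      have := h1 (hmem x hx hx2)
      exact hX x this.1 this.2)
  · exact no_circle hY0 (hδ.trans hρ1) (fun x hx hx2 => by
      have h2 := h1 x (hmem x hx hx2)
      have h3 := hSD (hmem x hx hx2)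
      exact hY x h3 (h.eq_zero_of_not_mem h3 h2))

end

end Pool.Agent.D0H33.FC
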