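import Mathlib
import Pool.Agent.D0H33.FC.C30
import Pool.Agent.D0H33.FB.A31

set_option autoImplicit false

open Set Metric Filter Topology MeasureTheory
open ExtStar (lap)
open Pool.Agent.D0H33.FB

namespace Pool.Agent.D0H33.FC

noncomputable section



/-- flat solutions have small excess at a small scale -/
theorem init_step (L c κ : ℝ) (hL : 1 ≤ L) (hκ : 0 < κ) : ∀ η : ℝ, 0 < η →
    ∃ r ε : ℝ, 0 < r ∧ r ≤ 1 ∧ 0 < ε ∧
    ∀ (δ : ℝ) (D : Set V) (u : V → ℝ) (ν : V), Cfg L c κ δ D u → ‖ν‖ = 1 → inner ℝ ν ax = 0 → δ ≤ ε →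
      (∀ x ∈ ann δ 1, ε < inner ℝ ν x → x ∈ NN D u) →
      (∀ x ∈ ann δ 1, inner ℝ ν x < -ε → x ∉ NN D u) →
      exc (δ / r) (sclD 0 r D) (scl 0 r u) ν 0 + δ / r ≤ η := by
  obtain ⟨C, hC, hrep⟩ := init_rep L c κ hL
  obtain ⟨Cs, hCs, hslab⟩ := slab_vol
  have hom := om_pos
  intro η hη
  set B : ℝ := 4 * om + 2 * (L + 1) ^ 2 * Cs + 1 with hB
  have hB0 : 0 < B := by positivity
  set t : ℝ := min 1 (η / B) with ht
  have ht0 : 0 < t := by positivity
  have ht1 : t ≤ 1 := min_le_left _ _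
  have htB : B * t ≤ η := by
    have : t ≤ η / B := min_le_right _ _
    rw [le_div_iff₀ hB0] at this
    linarith
  clear_value t
  obtain ⟨s, γ, hs0, hs32, hst, hγ0, hγt, hslope⟩ := slope_one L c κ C hL hC t ht0 ht1
  set r : ℝ := min (1 / 8) (γ / (2 * C)) with hr
  have hr0 : 0 < r := by positivity
  have hr8 : r ≤ 1 / 8 := min_le_left _ _
  have hrC : C * r ≤ γ / 2 := by
    have : r ≤ γ / (2 * C) := min_le_right _ _
    rw [le_div_iff₀ (by positivity)] at this
    linarith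
  clear_value r
  obtain ⟨ε1, hε1, hmain⟩ := hrep (s * r) (by positivity) (by nlinarith) (γ * r / 2) (by positivity)
  refine ⟨r, min ε1 (s * r / 2), hr0, by linarith, by positivity, ?_⟩
  intro δ D u ν hc hν hνa hδε hpos hneg
  have hδ := hc.δ0
  have hε1' : min ε1 (s * r / 2) ≤ ε1 := min_le_left _ _
  have hε2' : min ε1 (s * r / 2) ≤ s * r / 2 := min_le_right _ _
  generalize min ε1 (s * r / 2) = ε at hδε hpos hneg hε1' hε2'
  have hδr : 2 * (δ / r) ≤ s := by
    rw [mul_div_assoc', div_le_iff₀ hr0]; linarith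
  obtain ⟨α, hα, hαx⟩ := hmain δ D u ν hc hν hνa (by linarith)
    (fun x hx h1 => hpos x hx (by linarith)) (fun x hx h1 => hneg x hx (by linarith))
  have hc2 := hc.scale hκ hr0 (by linarith)
  have hin : ∀ x : V, |inner ℝ ν x| ≤ ‖x‖ := fun x => by
    have := abs_real_inner_le_norm ν x
    rwa [hν, one_mul] at this
  have happ : ∀ x : V, ‖x‖ ≤ 1 → s ≤ inner ℝ ν x → |scl 0 r u x - α * inner ℝ ν x| ≤ γ := by
    intro x hx1 hx2
    have h1 := hαx ((0 : V) + r • x) (by rw [zero_add, norm_rsmul hr0]; nlinarith) (by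
      rw [zero_add, inner_smul_right]; nlinarith)
    rw [zero_add, norm_rsmul hr0, inner_smul_right] at h1
    have h2 : scl 0 r u x - α * inner ℝ ν x = (u (r • x) - α * (r * inner ℝ ν x)) / r := by
      unfold scl
      rw [zero_add, eq_div_iff hr0.ne', sub_mul, div_mul_cancel₀ _ hr0.ne']
      ring
    rw [h2, abs_div, abs_of_pos hr0, div_le_iff₀ hr0]
    refine h1.trans ?_
    have h3 : (r * ‖x‖) ^ 2 ≤ r ^ 2 := by
      have : r * ‖x‖ ≤ r := by nlinarith
      exact pow_le_pow_left₀ (by positivity) this 2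
    nlinarith
  have hann : ∀ x : V, x ∈ ann (δ / r) 1 → r • x ∈ ann δ 1 := by
    intro x hx
    have h1 := hx.1
    rw [div_lt_iff₀ hr0] at h1
    refine ⟨by rw [Nx_rsmul hr0]; linarith, ?_⟩
    rw [norm_rsmul hr0]
    nlinarith [hx.2, norm_nonneg x]
  have hpos2 : ∀ x ∈ ann (δ / r) 1, s < inner ℝ ν x → x ∈ NN (sclD 0 r D) (scl 0 r u) := by
    intro x hx h1
    rw [NN_scl 0 hr0]
    show (0 : V) + r • x ∈ NN D u
    rw [zero_add]
    apply hpos _ (hann x hx)
    rw [inner_smul_right]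
    nlinarith
  have hneg2 : ∀ x ∈ ann (δ / r) 1, inner ℝ ν x < -s → x ∉ NN (sclD 0 r D) (scl 0 r u) := by
    intro x hx h1
    rw [NN_scl 0 hr0]
    show ¬ (0 : V) + r • x ∈ NN D u
    rw [zero_add]
    apply hneg _ (hann x hx)
    rw [inner_smul_right]
    nlinarith
  have hα1 := hslope (δ / r) (sclD 0 r D) (scl 0 r u) ν α hc2 hν hνa hα hδr hpos2 hneg2 happ
  -- the excess
  set D' := sclD 0 r D with hD'
  set u' := scl 0 r u with hu'
  set W := NN D' u' ∩ ann (δ / r) 1 with hW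
  set T : Set V := {x | s ≤ inner ℝ ν x} with hT
  have hTm : MeasurableSet T := (isClosed_le continuous_const (by fun_prop)).measurableSet
  have hWm : MeasurableSet W := hc2.sol.meas_NN.inter (ann_meas _ _)
  have hWf : volume W < ⊤ := (measure_mono inter_subset_right).trans_lt (ann_fin _ _)
  have hi : IntegrableOn (fun x => vv u' ν 0 x ^ 2) W := hc2.exc_int (by linarith) hν
  have hsp : exc (δ / r) D' u' ν 0 = (∫ x in W ∩ T, vv u' ν 0 x ^ 2) + ∫ x in W \ T, vv u' ν 0 x ^ 2 :=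
    (integral_inter_add_sdiff hTm hi).symm
  have h1 : ∫ x in W ∩ T, vv u' ν 0 x ^ 2 ≤ 4 * t * om := by
    have a1 : ∫ x in W ∩ T, vv u' ν 0 x ^ 2 ≤ ∫ x in W ∩ T, 4 * t := by
      apply setIntegral_mono_on (hi.mono_set inter_subset_left)
      · exact integrableOn_const (hs := ((measure_mono inter_subset_left).trans_lt hWf).ne)
      · exact hWm.inter hTm
      · intro x hx
        show vv u' ν 0 x ^ 2 ≤ 4 * t
        have hxn : ‖x‖ ≤ 1 := hx.1.2.2.le
        have h2 := happ x hxn hx.2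
        have h3 : |vv u' ν 0 x| ≤ 2 * t := by
          have h4 : vv u' ν 0 x = (u' x - α * inner ℝ ν x) + (α - 1) * inner ℝ ν x := by
            unfold vv; ring
          rw [h4]
          refine (abs_add_le _ _).trans ?_
          rw [abs_mul]
          have h5 : |α - 1| * |inner ℝ ν x| ≤ t * 1 :=
            mul_le_mul hα1 ((hin x).trans hxn) (abs_nonneg _) ht0.le
          linarith
        rw [← sq_abs]
        have h6 := abs_nonneg (vv u' ν 0 x)
        nlinarith
    refine a1.trans ?_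
    rw [setIntegral_const, smul_eq_mul]
    have a2 : (volume : Measure V).real (W ∩ T) ≤ om :=
      (measureReal_mono inter_subset_left hWf.ne).trans (hc2.vol_le univ)
    nlinarith
  have h2 : ∫ x in W \ T, vv u' ν 0 x ^ 2 ≤ (L + 1) ^ 2 * (Cs * (2 * s)) := by
    have a1 : ∫ x in W \ T, vv u' ν 0 x ^ 2 ≤ ∫ x in W \ T, (L + 1) ^ 2 := by
      apply setIntegral_mono_on (hi.mono_set sdiff_subset)
      · exact integrableOn_const (hs := ((measure_mono sdiff_subset).trans_lt hWf).ne)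
      · exact hWm.diff hTm
      · intro x hx
        show vv u' ν 0 x ^ 2 ≤ (L + 1) ^ 2
        have h3 := hc2.vv_bd1 (c' := 0) (by linarith) hν hx.1.2
        rw [abs_zero, add_zero] at h3
        rw [← sq_abs]
        exact pow_le_pow_left₀ (abs_nonneg _) h3 2
    refine a1.trans ?_
    rw [setIntegral_const, smul_eq_mul, mul_comm]
    apply mul_le_mul_of_nonneg_left _ (by positivity)
    have h3 := hslab ν (-s) s hν (by linarith)
    have h4 : W \ T ⊆ {x | ‖x‖ < 1 ∧ -s ≤ inner ℝ ν x ∧ inner ℝ ν x ≤ s} := by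
      intro x hx
      refine ⟨hx.1.2.2, ?_, ?_⟩
      · by_contra hn
        exact hneg2 x hx.1.2 (not_le.1 hn) hx.1.1
      · exact (not_le.1 hx.2).le
    refine (measureReal_mono h4 ?_).trans (h3.trans (le_of_eq (by ring)))
    have : {x : V | ‖x‖ < 1 ∧ -s ≤ inner ℝ ν x ∧ inner ℝ ν x ≤ s} ⊆ ball (0 : V) 1 :=
      fun x hx => by rw [mem_ball, dist_zero_right]; exact hx.1
    exact ((measure_mono this).trans_lt measure_ball_lt_top).ne
  rw [hsp]
  have h3 : (L + 1) ^ 2 * (Cs * (2 * s)) ≤ (L + 1) ^ 2 * (Cs * (2 * t)) := by gcongr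
  have h4 : δ / r ≤ t := by linarith
  have h5 : B * t = 4 * t * om + (L + 1) ^ 2 * (Cs * (2 * t)) + t := by rw [hB]; ring
  linarith

end

end Pool.Agent.D0H33.FC
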