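import Mathlib
import Pool.Agent.D0H33.FC.C33
import Pool.Agent.D0H33.FC.C26
import Pool.Agent.D0H33.FB.A35

set_option autoImplicit false

open Set Metric Filter Topology MeasureTheory
open ExtStar (lap)
open Pool.Agent.D0H33.FB

namespace Pool.Agent.D0H33.FC

noncomputable section

/-- the embedding of the plane `x_1 = 0` -/
def jo : W →L[ℝ] V := LinearMap.toContinuousLinearMap
  { toFun := fun y => !₂[0, y 0, y 1]
    map_add' := by intro x y; ext i; fin_cases i <;> simp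
    map_smul' := by intro c x; ext i; fin_cases i <;> simp }

lemma jo_apply (y : W) : jo y = !₂[0, y 0, y 1] := rfl

/-- the projection to the plane -/
def pj (x : V) : W := !₂[x 1, x 2]

/-- lines in the direction of `x_1` -/
def lj (y : W) (t : ℝ) : V := jo y + t • ee 0

lemma lj_zero (y : W) (t : ℝ) : (lj y t) 0 = t := by
  unfold lj ee
  rw [jo_apply]
  simp

lemma lj_one (y : W) (t : ℝ) : (lj y t) 1 = y 0 := by
  unfold lj ee
  rw [jo_apply]
  simp

lemma lj_two (y : W) (t : ℝ) : (lj y t) 2 = y 1 := by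
  unfold lj ee
  rw [jo_apply]
  simp

lemma lj_pj (x : V) : lj (pj x) (x 0) = x := by
  ext i
  fin_cases i
  · show (lj (pj x) (x 0)) 0 = x 0
    rw [lj_zero]
  · show (lj (pj x) (x 0)) 1 = x 1
    rw [lj_one]; rfl
  · show (lj (pj x) (x 0)) 2 = x 2
    rw [lj_two]; rfl

lemma lj_norm (y : W) (t : ℝ) : ‖lj y t‖ ^ 2 = ‖y‖ ^ 2 + t ^ 2 := by
  rw [EuclideanSpace.norm_sq_eq, EuclideanSpace.norm_sq_eq, Fin.sum_univ_three, Fin.sum_univ_two,
    lj_zero, lj_one, lj_two]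
  simp only [Real.norm_eq_abs, sq_abs]
  ring

lemma Nx_sq' (x : V) : Nx x ^ 2 = x 0 ^ 2 + x 1 ^ 2 := by
  rw [Nx_sq, ax, ee_inner, EuclideanSpace.norm_sq_eq, Fin.sum_univ_three]
  simp only [Real.norm_eq_abs, sq_abs]
  ring

lemma Nx_lj (y : W) (t : ℝ) : Nx (lj y t) ^ 2 = t ^ 2 + |y 0| ^ 2 := by
  rw [Nx_sq', lj_zero, lj_one, sq_abs]

lemma y0_le (y : W) : |y 0| ≤ ‖y‖ := by
  have h : |y 0| ^ 2 ≤ ‖y‖ ^ 2 := by
    rw [EuclideanSpace.norm_sq_eq, Fin.sum_univ_two]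
    simp only [Real.norm_eq_abs, sq_abs]
    nlinarith [sq_nonneg (y 1)]
  exact (pow_le_pow_iff_left₀ (abs_nonneg _) (norm_nonneg _) (by norm_num)).1 h

lemma jo_norm (y : W) : ‖jo y‖ = ‖y‖ := by
  have h := lj_norm y 0
  unfold lj at h
  rw [zero_smul, add_zero] at h
  have h2 : ‖jo y‖ ^ 2 = ‖y‖ ^ 2 := by rw [h]; ring
  exact (sq_eq_sq₀ (norm_nonneg _) (norm_nonneg _)).1 h2

lemma lj_inner (y : W) (t : ℝ) : inner ℝ (ee 0) (lj y t) = t := by
  rw [ee_inner, lj_zero]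

lemma lj_ge (y : W) (t : ℝ) : |y 0| ≤ Nx (lj y t) := by
  have h := Nx_lj y t
  have : |y 0| ^ 2 ≤ Nx (lj y t) ^ 2 := by rw [h]; nlinarith [sq_nonneg t]
  exact (pow_le_pow_iff_left₀ (abs_nonneg _) (Nx_nonneg _) (by norm_num)).1 this

lemma lj_ge' (y : W) (t : ℝ) : ‖y‖ ≤ ‖lj y t‖ := by
  have h := lj_norm y t
  have : ‖y‖ ^ 2 ≤ ‖lj y t‖ ^ 2 := by rw [h]; nlinarith [sq_nonneg t]
  exact (pow_le_pow_iff_left₀ (norm_nonneg _) (norm_nonneg _) (by norm_num)).1 this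

lemma lj_le {y : W} {t : ℝ} (ht : |t| ≤ |y 0|) : Nx (lj y t) ≤ 2 * |y 0| := by
  have h := Nx_lj y t
  have h2 : t ^ 2 ≤ |y 0| ^ 2 := by
    rw [← sq_abs]; exact pow_le_pow_left₀ (abs_nonneg _) ht 2
  have : Nx (lj y t) ^ 2 ≤ (2 * |y 0|) ^ 2 := by rw [h]; nlinarith [sq_nonneg |y 0|]
  exact (pow_le_pow_iff_left₀ (Nx_nonneg _) (by positivity) (by norm_num)).1 this

lemma lj_le' {y : W} {t : ℝ} (ht : |t| ≤ |y 0|) : ‖lj y t‖ ≤ 2 * ‖y‖ := by
  have h := lj_norm y t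
  have h3 := y0_le y
  have h2 : t ^ 2 ≤ ‖y‖ ^ 2 := by
    rw [← sq_abs]; exact pow_le_pow_left₀ (abs_nonneg _) (ht.trans h3) 2
  have : ‖lj y t‖ ^ 2 ≤ (2 * ‖y‖) ^ 2 := by rw [h]; nlinarith [sq_nonneg ‖y‖]
  exact (pow_le_pow_iff_left₀ (norm_nonneg _) (by positivity) (by norm_num)).1 this

lemma lj_cont (y : W) : Continuous (lj y) := by
  unfold lj; fun_prop

lemma lj_shift (y : W) (s t : ℝ) : lj y (s + t) = lj y s + t • ee 0 := by
  unfold lj
  rw [add_smul]; abel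

/-- cone and normal conditions outside a cylinder -/
structure Cone (η a b : ℝ) (D : Set V) (u : V → ℝ) : Prop where
  sol : Sol D u
  a0 : 0 < a
  η0 : 0 < η
  η1 : η ≤ 1 / 100
  sub : ann a b ⊆ D
  pos : ∀ x ∈ ann a b, η * Nx x < x 0 → x ∈ NN D u
  neg : ∀ x ∈ ann a b, x 0 < -(η * Nx x) → x ∉ NN D u
  nor : ∀ x ∈ ann a b, x ∈ FF D u → ∀ G, Gd u G x → ‖gr G x - ee 0‖ ≤ η

section cone

variable {η a b : ℝ} {D : Set V} {u : V → ℝ}

lemma Cone.F_abs (h : Cone η a b D u) {x : V} (hx : x ∈ ann a b) (hF : x ∈ FF D u) :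
    |x 0| ≤ η * Nx x := by
  rw [abs_le]
  have hfr := hF.2
  rw [h.sol.isOpen_NN.frontier_eq] at hfr
  constructor
  · by_contra hn
    push Not at hn
    have hc1 : Continuous (fun z : V => z 0) := by fun_prop
    have hopen : IsOpen (ann a b ∩ {z : V | z 0 < -(η * Nx z)}) :=
      (ann_open a b).inter (isOpen_lt hc1 (continuous_const.mul Nx_cont).neg)
    obtain ⟨z, hz1, hz2⟩ := mem_closure_iff.1 hfr.1 _ hopen ⟨hx, hn⟩
    exact h.neg z hz1.1 hz1.2 hz2
  · by_contra hn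
    push Not at hn
    exact hfr.2 (h.pos x hx hn)

/-- sign of the extension along the vertical direction -/
lemma Cone.local_sign (h : Cone η a b D u) {x : V} (hx : x ∈ ann a b) (hF : x ∈ FF D u) :
    ∃ r : ℝ, 0 < r ∧ ∀ s : ℝ, 0 < s → s < r → x + s • ee 0 ∈ NN D u ∧ x + (-s) • ee 0 ∉ NN D u := by
  obtain ⟨G, hG⟩ := h.sol.bdry x hF
  have hGd : Gd u G x := hG
  have hn := h.nor x hx hF G hGd
  obtain ⟨hG1, hG0, hGn, hGu⟩ := hG
  have hη1 := h.η1
  -- normal component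
  have hcomp : 99 / 100 ≤ fderiv ℝ G x (ee 0) := by
    rw [← gr_inner]
    have h1 : inner ℝ (gr G x) (ee 0) = 1 + inner ℝ (gr G x - ee 0) (ee 0) := by
      rw [inner_sub_left, real_inner_self_eq_norm_sq, ee_norm]; ring
    rw [h1]
    have h2 := abs_real_inner_le_norm (gr G x - ee 0) (ee 0)
    rw [ee_norm, mul_one] at h2
    have := (abs_le.1 (h2.trans hn)).1
    linarith
  have hGd : HasFDerivAt G (fderiv ℝ G x) x := (hG1.differentiableAt (by norm_num)).hasFDerivAt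
  have hGl : ∀ᶠ y in 𝓝 x, ‖G y - G x - fderiv ℝ G x (y - x)‖ ≤ 1 / 2 * ‖y - x‖ := by
    have h1 := hGd.isLittleO
    rw [Asymptotics.isLittleO_iff] at h1
    exact h1 (by norm_num : (0:ℝ) < 1 / 2)
  have hD : ∀ᶠ y in 𝓝 x, y ∈ D := h.sol.op.mem_nhds hF.1
  obtain ⟨r, hr, hball⟩ := Metric.eventually_nhds_iff_ball.1 (hGl.and (hGu.and hD))
  refine ⟨r, hr, ?_⟩
  intro s hs hsr
  have key : ∀ σ : ℝ, |σ| < r → |G (x + σ • ee 0) - σ * fderiv ℝ G x (ee 0)| ≤ 1 / 2 * |σ| ∧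
      (0 < u (x + σ • ee 0) ↔ 0 < G (x + σ • ee 0)) ∧ x + σ • ee 0 ∈ D := by
    intro σ hσ
    have h1 : ‖x + σ • ee 0 - x‖ = |σ| := by
      rw [add_sub_cancel_left, norm_smul, ee_norm, mul_one, Real.norm_eq_abs]
    obtain ⟨h2, h3, h4⟩ := hball (x + σ • ee 0) (by rw [mem_ball, dist_eq_norm, h1]; exact hσ)
    rw [h1, hG0, sub_zero, add_sub_cancel_left, map_smul, smul_eq_mul, Real.norm_eq_abs] at h2
    exact ⟨h2, h3.1, h4⟩
  have hs1 : |s| = s := abs_of_pos hs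
  constructor
  · obtain ⟨h1, h2, h3⟩ := key s (by rw [hs1]; exact hsr)
    refine ⟨h3, h2.2 ?_⟩
    rw [hs1] at h1
    have := (abs_le.1 h1).1
    nlinarith
  · obtain ⟨h1, h2, h3⟩ := key (-s) (by rw [abs_neg, hs1]; exact hsr)
    intro hN
    have h4 := h2.1 hN.2
    rw [abs_neg, hs1] at h1
    have := (abs_le.1 h1).2
    nlinarith

lemma Cone.lj_ann (h : Cone η a b D u) {y : W} (hy : a < |y 0|) (hy2 : ‖y‖ < b / 2) {t : ℝ}
    (ht : |t| ≤ |y 0|) : lj y t ∈ ann a b :=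
  ⟨lt_of_lt_of_le hy (lj_ge y t), lt_of_le_of_lt (lj_le' ht) (by linarith)⟩

/-- the positive phase is an upper set on vertical segments -/
lemma Cone.upper (h : Cone η a b D u) {y : W} (hy : a < |y 0|) (hy2 : ‖y‖ < b / 2) {s t : ℝ}
    (hs : -|y 0| ≤ s) (hst : s ≤ t) (ht : t ≤ |y 0|) (hN : lj y s ∈ NN D u) : lj y t ∈ NN D u := by
  by_contra hn
  set S : Set ℝ := Icc s t ∩ {r | lj y r ∉ NN D u} with hS
  have hcl : IsClosed {r : ℝ | lj y r ∉ NN D u} := by
    have : IsOpen (lj y ⁻¹' (NN D u)) := h.sol.isOpen_NN.preimage (lj_cont y)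
    exact this.isClosed_compl
  have hScomp : IsCompact S := isCompact_Icc.inter_right hcl
  have hSne : S.Nonempty := ⟨t, ⟨hst, le_refl _⟩, hn⟩
  obtain ⟨r, hr1, hr2⟩ := hScomp.exists_isLeast hSne
  have hrs : s < r := by
    rcases hr1.1.1.eq_or_lt with h1 | h1
    · rw [← h1] at hr1
      exact absurd hN hr1.2
    · exact h1
  have hbelow : ∀ q : ℝ, s ≤ q → q < r → lj y q ∈ NN D u := by
    intro q hq1 hq2
    by_contra hnq
    have := hr2 (show q ∈ S from ⟨⟨hq1, by linarith [hr1.1.2]⟩, hnq⟩)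
    linarith
  have hra : lj y r ∈ ann a b := h.lj_ann hy hy2 (abs_le.2 ⟨by linarith, by linarith [hr1.1.2]⟩)
  have hrF : lj y r ∈ FF D u := by
    apply h.sol.mem_FF (h.sub hra)
    · have h1 : r ∈ closure (Ico s r) := by
        rw [closure_Ico hrs.ne]
        exact ⟨hrs.le, le_refl _⟩
      have h2 : MapsTo (lj y) (Ico s r) (NN D u) := fun q hq => hbelow q hq.1 hq.2
      exact h2.closure (lj_cont y) h1
    · intro h0
      exact hr1.2 ⟨h.sub hra, h0⟩
  obtain ⟨r0, hr0, hsign⟩ := h.local_sign hra hrF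
  set e := min (r0 / 2) ((r - s) / 2) with he
  have he0 : 0 < e := by
    have : 0 < r - s := by linarith
    positivity
  have he1 : e ≤ r0 / 2 := min_le_left _ _
  have he2 : e ≤ (r - s) / 2 := min_le_right _ _
  have h1 := (hsign e he0 (by linarith)).2
  rw [← lj_shift] at h1
  exact h1 (hbelow (r + -e) (by linarith) (by linarith))

/-- the height function -/
lemma Cone.height (h : Cone η a b D u) {y : W} (hy : a < |y 0|) (hy2 : ‖y‖ < b / 2) :
    ∃ g : ℝ, |g| ≤ 2 * η * |y 0| ∧ (∀ t : ℝ, |t| ≤ |y 0| → (lj y t ∈ NN D u ↔ g < t)) ∧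
      lj y g ∈ FF D u ∧ ∀ t : ℝ, |t| ≤ |y 0| → lj y t ∈ FF D u → t = g := by
  have ha := h.a0
  have hη0 := h.η0
  have hη1 := h.η1
  have hy0 : 0 < |y 0| := by linarith
  set S : Set ℝ := Icc (-|y 0|) (|y 0|) ∩ {r | lj y r ∉ NN D u} with hS
  have hcl : IsClosed {r : ℝ | lj y r ∉ NN D u} := by
    have : IsOpen (lj y ⁻¹' (NN D u)) := h.sol.isOpen_NN.preimage (lj_cont y)
    exact this.isClosed_compl
  have hScomp : IsCompact S := isCompact_Icc.inter_right hcl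
  have hab : |(|y 0|)| ≤ |y 0| := by rw [abs_of_pos hy0]
  have habn : |(-|y 0|)| ≤ |y 0| := by rw [abs_neg, abs_of_pos hy0]
  have hSne : S.Nonempty := by
    refine ⟨-|y 0|, ⟨le_refl _, by linarith⟩, ?_⟩
    show lj y (-|y 0|) ∉ NN D u
    apply h.neg _ (h.lj_ann hy hy2 habn)
    rw [lj_zero]
    have := lj_le habn
    nlinarith
  obtain ⟨g, hg1, hg2⟩ := hScomp.exists_isGreatest hSne
  have htop : lj y (|y 0|) ∈ NN D u := by
    apply h.pos _ (h.lj_ann hy hy2 hab)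
    rw [lj_zero]
    have := lj_le hab
    nlinarith
  have hgt : g < |y 0| := by
    rcases hg1.1.2.eq_or_lt with h1 | h1
    · rw [h1] at hg1
      exact absurd htop hg1.2
    · exact h1
  have hg : |g| ≤ |y 0| := abs_le.2 ⟨hg1.1.1, hg1.1.2⟩
  have hga := h.lj_ann hy hy2 hg
  have hiff : ∀ t : ℝ, |t| ≤ |y 0| → (lj y t ∈ NN D u ↔ g < t) := by
    intro t ht
    have ht' := abs_le.1 ht
    constructor
    · intro h1
      by_contra hn
      push Not at hn
      exact hg1.2 (h.upper hy hy2 ht'.1 hn hg1.1.2 h1)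
    · intro h1
      by_contra hn
      have := hg2 (show t ∈ S from ⟨ht', hn⟩)
      linarith
  have hgF : lj y g ∈ FF D u := by
    apply h.sol.mem_FF (h.sub hga)
    · have h1 : g ∈ closure (Ioc g (|y 0|)) := by
        rw [closure_Ioc hgt.ne]
        exact ⟨le_refl _, hgt.le⟩
      have h2 : MapsTo (lj y) (Ioc g (|y 0|)) (NN D u) := fun q hq =>
        (hiff q (abs_le.2 ⟨by linarith [hg1.1.1, hq.1], hq.2⟩)).2 hq.1
      exact h2.closure (lj_cont y) h1
    · intro h0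
      exact hg1.2 ⟨h.sub hga, h0⟩
  refine ⟨g, ?_, hiff, hgF, ?_⟩
  · have h1 := h.F_abs hga hgF
    rw [lj_zero] at h1
    have h2 := lj_le hg
    nlinarith
  · intro t ht htF
    have ht' := abs_le.1 ht
    have hta := h.lj_ann hy hy2 ht
    have htN : lj y t ∉ NN D u := by
      have h1 := htF.2
      rw [h.sol.isOpen_NN.frontier_eq] at h1
      exact h1.2
    have htg : t ≤ g := by
      by_contra hn
      exact htN ((hiff t ht).2 (not_le.1 hn))
    rcases htg.eq_or_lt with h1 | h1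
    · exact h1
    · exfalso
      obtain ⟨r0, hr0, hsign⟩ := h.local_sign hta htF
      set e := min (r0 / 2) ((g - t) / 2) with he
      have he0 : 0 < e := by
        have : 0 < g - t := by linarith
        positivity
      have he1 : e ≤ r0 / 2 := min_le_left _ _
      have he2 : e ≤ (g - t) / 2 := min_le_right _ _
      have h2 := (hsign e he0 (by linarith)).1
      rw [← lj_shift] at h2
      have h3 := (hiff (t + e) (abs_le.2 ⟨by linarith, by linarith⟩)).1 h2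
      linarith

end cone

end

end Pool.Agent.D0H33.FC
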