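import Mathlib
import Pool.Agent.D0H33.FC.C34

set_option autoImplicit false

open Set Metric Filter Topology MeasureTheory
open ExtStar (lap)
open Pool.Agent.D0H33.FB

namespace Pool.Agent.D0H33.FC

noncomputable section

/-- `g` is the height function of the free boundary -/
structure Hgt (η a b : ℝ) (D : Set V) (u : V → ℝ) (g : W → ℝ) : Prop extends Cone η a b D u where
  gabs : ∀ y : W, a < |y 0| → ‖y‖ < b / 2 → |g y| ≤ 2 * η * |y 0|
  giff : ∀ y : W, a < |y 0| → ‖y‖ < b / 2 → ∀ t : ℝ, |t| ≤ |y 0| → (lj y t ∈ NN D u ↔ g y < t)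
  gF : ∀ y : W, a < |y 0| → ‖y‖ < b / 2 → lj y (g y) ∈ FF D u
  guniq : ∀ y : W, a < |y 0| → ‖y‖ < b / 2 → ∀ t : ℝ, |t| ≤ |y 0| → lj y t ∈ FF D u → t = g y

section

variable {η a b : ℝ} {D : Set V} {u : V → ℝ} {g : W → ℝ}

lemma Cone.exists_hgt (h : Cone η a b D u) : ∃ g : W → ℝ, Hgt η a b D u g := by
  have h1 : ∀ y : W, ∃ g : ℝ, (a < |y 0| → ‖y‖ < b / 2 → |g| ≤ 2 * η * |y 0| ∧
      (∀ t : ℝ, |t| ≤ |y 0| → (lj y t ∈ NN D u ↔ g < t)) ∧
      lj y g ∈ FF D u ∧ ∀ t : ℝ, |t| ≤ |y 0| → lj y t ∈ FF D u → t = g) := by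
    intro y
    by_cases hy : a < |y 0| ∧ ‖y‖ < b / 2
    · obtain ⟨g, hg⟩ := h.height hy.1 hy.2
      exact ⟨g, fun _ _ => hg⟩
    · exact ⟨0, fun h1 h2 => absurd ⟨h1, h2⟩ hy⟩
  choose g hg using h1
  exact ⟨g, h, fun y h1 h2 => (hg y h1 h2).1, fun y h1 h2 => (hg y h1 h2).2.1,
    fun y h1 h2 => (hg y h1 h2).2.2.1, fun y h1 h2 => (hg y h1 h2).2.2.2⟩

lemma Hgt.lt (h : Hgt η a b D u g) {y : W} (hy : a < |y 0|) (hy2 : ‖y‖ < b / 2) :
    |g y| < |y 0| := by
  have h1 := h.gabs y hy hy2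
  have h2 := h.a0
  have h3 := h.η0
  have h4 := h.η1
  nlinarith

lemma Hgt.mem (h : Hgt η a b D u g) {y : W} (hy : a < |y 0|) (hy2 : ‖y‖ < b / 2) :
    lj y (g y) ∈ ann a b := h.toCone.lj_ann hy hy2 (h.lt hy hy2).le

lemma ev_dom {y : W} (hy : a < |y 0|) (hy2 : ‖y‖ < b / 2) :
    ∀ᶠ z in 𝓝 y, a < |z 0| ∧ ‖z‖ < b / 2 := by
  have hz0c : Continuous (fun z : W => |z 0|) := by fun_prop
  exact ((isOpen_lt continuous_const hz0c).inter
    (isOpen_lt continuous_norm continuous_const)).mem_nhds ⟨hy, hy2⟩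

/-- continuity of the height function -/
lemma Hgt.contAt (h : Hgt η a b D u g) {y : W} (hy : a < |y 0|) (hy2 : ‖y‖ < b / 2) :
    ContinuousAt g y := by
  have hp := h.gF y hy hy2
  obtain ⟨G, hG⟩ := h.sol.bdry _ hp
  have hGd : Gd u G (lj y (g y)) := hG
  rw [Metric.continuousAt_iff']
  intro ε hε
  -- a small admissible height
  obtain ⟨r, hr, hsign⟩ := h.toCone.local_sign (h.mem hy hy2) hp
  have hlt := h.lt hy hy2
  set e := min (min (r / 2) (ε / 2)) ((|y 0| - |g y|) / 2) with he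
  have he0 : 0 < e := by
    have : 0 < |y 0| - |g y| := by linarith
    positivity
  have he1 : e ≤ r / 2 := (min_le_left _ _).trans (min_le_left _ _)
  have he2 : e ≤ ε / 2 := (min_le_left _ _).trans (min_le_right _ _)
  have he3 : e ≤ (|y 0| - |g y|) / 2 := min_le_right _ _
  have hgy := abs_le.1 (le_refl |g y|)
  -- above
  have h1 : lj y (g y + e) ∈ NN D u := by
    rw [h.giff y hy hy2 _ (abs_le.2 ⟨by linarith, by linarith⟩)]; linarith
  have hli : Continuous (fun z : W => lj z (g y + e)) := by unfold lj; fun_prop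
  have h1' : ∀ᶠ z in 𝓝 y, lj z (g y + e) ∈ NN D u :=
    hli.continuousAt.eventually_mem (h.sol.isOpen_NN.mem_nhds h1)
  -- below: not in the closure of the positive phase
  have h2 : lj y (g y - e) ∉ closure (NN D u) := by
    intro hcl
    have hab : |g y - e| ≤ |y 0| := abs_le.2 ⟨by linarith, by linarith⟩
    have h3 : lj y (g y - e) ∈ FF D u := by
      apply h.sol.mem_FF (h.sub (h.toCone.lj_ann hy hy2 hab)) hcl
      intro h4
      have h5 : lj y (g y - e) ∈ NN D u := ⟨h.sub (h.toCone.lj_ann hy hy2 hab), h4⟩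
      rw [h.giff y hy hy2 _ hab] at h5
      linarith
    have := h.guniq y hy hy2 _ hab h3
    linarith
  have hli2 : Continuous (fun z : W => lj z (g y - e)) := by unfold lj; fun_prop
  have h2' : ∀ᶠ z in 𝓝 y, lj z (g y - e) ∈ (closure (NN D u))ᶜ :=
    hli2.continuousAt.eventually_mem (isClosed_closure.isOpen_compl.mem_nhds h2)
  have hz0c : Continuous (fun z : W => |z 0|) := by fun_prop
  have h3' : ∀ᶠ z : W in 𝓝 y, |g y| + e < |z 0| :=
    (isOpen_lt continuous_const hz0c).mem_nhds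
      (show |g y| + e < |y 0| by linarith)
  filter_upwards [h1', h2', h3', ev_dom hy hy2] with z hz1 hz2 hz3 hz4
  rw [h.giff z hz4.1 hz4.2 _ (abs_le.2 ⟨by linarith, by linarith⟩)] at hz1
  have h5 : g y - e ≤ g z := by
    by_contra hn
    push Not at hn
    have := (h.giff z hz4.1 hz4.2 (g y - e) (abs_le.2 ⟨by linarith, by linarith⟩)).2 hn
    exact hz2 (subset_closure this)
  rw [Real.dist_eq, abs_lt]
  exact ⟨by linarith, by linarith⟩

/-- the gradient of the height function in terms of the normal -/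
def dg (n : V →L[ℝ] ℝ) : W →L[ℝ] ℝ := -((n (ee 0))⁻¹) • (n.comp jo)

lemma Cone.vert (h : Cone η a b D u) {x : V} (hx : x ∈ ann a b) (hF : x ∈ FF D u) {G : V → ℝ}
    (hG : Gd u G x) : 99 / 100 ≤ fderiv ℝ G x (ee 0) := by
  have hn := h.nor x hx hF G hG
  have hη1 := h.η1
  rw [← gr_inner]
  have h1 : inner ℝ (gr G x) (ee 0) = 1 + inner ℝ (gr G x - ee 0) (ee 0) := by
    rw [inner_sub_left, real_inner_self_eq_norm_sq, ee_norm]; ring
  rw [h1]
  have h2 := abs_real_inner_le_norm (gr G x - ee 0) (ee 0)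
  rw [ee_norm, mul_one] at h2
  have := (abs_le.1 (h2.trans hn)).1
  linarith

lemma Hgt.hasF (h : Hgt η a b D u g) {y : W} (hy : a < |y 0|) (hy2 : ‖y‖ < b / 2) {G : V → ℝ}
    (hG : Gd u G (lj y (g y))) : HasFDerivAt g (dg (fderiv ℝ G (lj y (g y)))) y := by
  set p := lj y (g y) with hp
  have hpF : p ∈ FF D u := h.gF y hy hy2
  have hpa := h.mem hy hy2
  set n := fderiv ℝ G p with hn
  have hν := h.toCone.vert hpa hpF hG
  rw [← hn] at hν
  have hn1 : ‖n‖ = 1 := hG.2.2.1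
  have hGd : HasFDerivAt G n p := (hG.1.differentiableAt (by norm_num)).hasFDerivAt
  have hcont := h.contAt hy hy2
  -- the points on the graph converge to `p`
  have hq : Tendsto (fun z : W => lj z (g z)) (𝓝 y) (𝓝 p) := by
    have h1 : ContinuousAt (fun z : W => lj z (g z)) y := by
      unfold lj
      have h2 : ContinuousAt (fun z : W => jo z) y := jo.continuous.continuousAt
      have h3 : ContinuousAt (fun z : W => g z • ee 0) y := hcont.smul continuousAt_const
      exact h2.add h3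
    exact h1
  rw [hasFDerivAt_iff_isLittleO, Asymptotics.isLittleO_iff]
  intro ε hε
  -- small parameter
  set θ : ℝ := min (1 / 4) (ε / 8) with hθ
  have hθ0 : 0 < θ := by positivity
  have hθ1 : θ ≤ 1 / 4 := min_le_left _ _
  have hθ2 : θ ≤ ε / 8 := min_le_right _ _
  have hGl := hGd.isLittleO
  rw [Asymptotics.isLittleO_iff] at hGl
  filter_upwards [hq.eventually (hGl hθ0), hq.eventually (hG.zero_near h.sol), ev_dom hy hy2]
    with z hz1 hz2 hz3
  have hzF : lj z (g z) ∈ FF D u := h.gF z hz3.1 hz3.2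
  rw [hz2 hzF, hG.2.1, sub_zero, zero_sub, norm_neg] at hz1
  have e1 : lj z (g z) - p = jo (z - y) + (g z - g y) • ee 0 := by
    rw [hp]; unfold lj; rw [map_sub, sub_smul]; abel
  rw [e1, map_add, map_smul, smul_eq_mul, Real.norm_eq_abs] at hz1
  have h2 : ‖jo (z - y) + (g z - g y) • ee 0‖ ≤ ‖z - y‖ + |g z - g y| := by
    refine (norm_add_le _ _).trans ?_
    rw [jo_norm, norm_smul, ee_norm, mul_one, Real.norm_eq_abs]
  have h3 : |n (jo (z - y))| ≤ ‖z - y‖ := by
    have := le_op n (jo (z - y))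
    rwa [hn1, one_mul, jo_norm] at this
  set m := n (ee 0) with hm
  set A := n (jo (z - y)) with hA
  set B := g z - g y with hB
  set Z := ‖z - y‖ with hZ
  have hZ0 : 0 ≤ Z := norm_nonneg _
  have h4 : |A + B * m| ≤ θ * (Z + |B|) := hz1.trans (mul_le_mul_of_nonneg_left h2 hθ0.le)
  have h5 : |B| ≤ 3 * Z := by
    have h6 : |B * m| ≤ |A| + θ * (Z + |B|) := by
      have : B * m = (A + B * m) - A := by ring
      rw [this]
      refine (abs_sub _ _).trans ?_
      linarith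
    rw [abs_mul, abs_of_pos (by linarith : 0 < m)] at h6
    have h7 : |B| * (99 / 100) ≤ |B| * m := mul_le_mul_of_nonneg_left hν (abs_nonneg _)
    have h8 : θ * (Z + |B|) ≤ 1 / 4 * (Z + |B|) :=
      mul_le_mul_of_nonneg_right hθ1 (by positivity)
    linarith
  have e2 : B - (dg n) (z - y) = (A + B * m) / m := by
    unfold dg
    rw [_root_.smul_apply, ContinuousLinearMap.comp_apply, smul_eq_mul, ← hA, ← hm]
    field_simp
    ring
  rw [Real.norm_eq_abs, e2, abs_div, abs_of_pos (by linarith : 0 < m), div_le_iff₀ (by linarith)]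
  refine h4.trans ?_
  have h9 : θ * (Z + |B|) ≤ ε / 8 * (4 * Z) :=
    mul_le_mul hθ2 (by linarith) (by positivity) (by positivity)
  have h10 : ε * Z * (99 / 100) ≤ ε * Z * m := mul_le_mul_of_nonneg_left hν (by positivity)
  have h11 : 0 ≤ ε * Z := by positivity
  linarith

lemma dg_norm {n : V →L[ℝ] ℝ} {η : ℝ} (hη : 0 ≤ η) (h1 : 99 / 100 ≤ n (ee 0))
    (h2 : ∀ y : W, |n (jo y)| ≤ η * ‖y‖) : ‖dg n‖ ≤ 2 * η := by
  apply ContinuousLinearMap.opNorm_le_bound _ (by positivity)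
  intro y
  unfold dg
  rw [_root_.smul_apply, ContinuousLinearMap.comp_apply, smul_eq_mul, Real.norm_eq_abs, abs_mul,
    abs_neg, abs_inv, abs_of_pos (by linarith : 0 < n (ee 0)), inv_mul_le_iff₀ (by linarith)]
  refine (h2 y).trans ?_
  have : 0 ≤ η * ‖y‖ := by positivity
  nlinarith

lemma jo_inner (y : W) : inner ℝ (ee 0) (jo y) = 0 := by
  have := lj_inner y 0
  unfold lj at this
  rwa [zero_smul, add_zero] at this

/-- bound for the gradient of the height function -/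
lemma Hgt.grad_le (h : Hgt η a b D u g) {y : W} (hy : a < |y 0|) (hy2 : ‖y‖ < b / 2) :
    ‖fderiv ℝ g y‖ ≤ 2 * η := by
  obtain ⟨G, hG⟩ := h.sol.bdry _ (h.gF y hy hy2)
  have hGd : Gd u G (lj y (g y)) := hG
  rw [(h.hasF hy hy2 hGd).fderiv]
  apply dg_norm h.η0.le (h.toCone.vert (h.mem hy hy2) (h.gF y hy hy2) hGd)
  intro z
  have hn := h.nor _ (h.mem hy hy2) (h.gF y hy hy2) G hGd
  rw [← gr_inner]
  have e1 : inner ℝ (gr G (lj y (g y))) (jo z) = inner ℝ (gr G (lj y (g y)) - ee 0) (jo z) := by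
    rw [inner_sub_left, jo_inner, sub_zero]
  rw [e1]
  refine (abs_real_inner_le_norm _ _).trans ?_
  rw [jo_norm]
  exact mul_le_mul_of_nonneg_right hn (norm_nonneg _)

/-- the height function is continuously differentiable -/
lemma Hgt.C1 (h : Hgt η a b D u g) {y : W} (hy : a < |y 0|) (hy2 : ‖y‖ < b / 2) :
    ContDiffAt ℝ 1 g y := by
  have hpF := h.gF y hy hy2
  obtain ⟨G, hG⟩ := h.sol.bdry _ hpF
  have hGd : Gd u G (lj y (g y)) := hG
  set p := lj y (g y) with hp
  have hν := h.toCone.vert (h.mem hy hy2) hpF hGd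
  -- near `p` the same extension can be used
  have hqc : ∀ z : W, a < |z 0| → ‖z‖ < b / 2 → ContinuousAt (fun z : W => lj z (g z)) z := by
    intro z hz1 hz2
    unfold lj
    have h2 : ContinuousAt (fun z : W => jo z) z := jo.continuous.continuousAt
    have h3 : ContinuousAt (fun z : W => g z • ee 0) z := (h.contAt hz1 hz2).smul continuousAt_const
    exact h2.add h3
  have hc : ∀ᶠ q in 𝓝 p, ContDiffAt ℝ 1 G q := hGd.1.eventually (by simp)
  have hu : ∀ᶠ q in 𝓝 p, ∀ᶠ x in 𝓝 q, 0 < u x → u x = G x := by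
    have := hGd.2.2.2.eventually_nhds
    filter_upwards [this] with q hq
    filter_upwards [hq] with x hx
    exact hx.2
  have hpos : ∀ᶠ q in 𝓝 p, 1 / 2 < fderiv ℝ G q (ee 0) := by
    have h1 : ContinuousAt (fun q => fderiv ℝ G q (ee 0)) p :=
      ((hGd.1.fderiv_right (m := 0) (by norm_num)).continuousAt).clm_apply continuousAt_const
    exact h1.eventually_const_lt (by linarith)
  have hev : ∀ᶠ z in 𝓝 y, (a < |z 0| ∧ ‖z‖ < b / 2) ∧ ContDiffAt ℝ 1 G (lj z (g z)) ∧
      (∀ᶠ x in 𝓝 (lj z (g z)), 0 < u x → u x = G x) ∧ 1 / 2 < fderiv ℝ G (lj z (g z)) (ee 0) := by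
    have h1 : Tendsto (fun z : W => lj z (g z)) (𝓝 y) (𝓝 p) := hqc y hy hy2
    filter_upwards [ev_dom hy hy2, h1.eventually hc, h1.eventually hu, h1.eventually hpos]
      with z h1 h2 h3 h4
    exact ⟨h1, h2, h3, h4⟩
  rw [_root_.eventually_nhds_iff] at hev
  obtain ⟨t, ht, hto, hyt⟩ := hev
  rw [contDiffAt_one_iff]
  refine ⟨fun z => dg (fderiv ℝ G (lj z (g z))), t, hto.mem_nhds hyt, ?_, ?_⟩
  · intro z hz
    apply ContinuousAt.continuousWithinAt
    obtain ⟨h1, h2, h3, h4⟩ := ht z hz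
    have hf : ContinuousAt (fun z : W => fderiv ℝ G (lj z (g z))) z :=
      ((h2.fderiv_right (m := 0) (by norm_num)).continuousAt (f := fderiv ℝ G)).comp_of_eq
        (hqc z h1.1 h1.2) rfl
    unfold dg
    have hm : ContinuousAt (fun z : W => fderiv ℝ G (lj z (g z)) (ee 0)) z :=
      hf.clm_apply continuousAt_const
    have h5 : ContinuousAt (fun z : W => -(fderiv ℝ G (lj z (g z)) (ee 0))⁻¹) z :=
      (hm.inv₀ (by linarith)).neg
    have h6 : ContinuousAt (fun z : W => (fderiv ℝ G (lj z (g z))).comp jo) z :=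
      hf.clm_comp continuousAt_const
    exact h5.smul h6
  · intro z hz
    obtain ⟨h1, h2, h3, h4⟩ := ht z hz
    have hzF := h.gF z h1.1 h1.2
    obtain ⟨G', hG'⟩ := h.sol.bdry _ hzF
    have hGd' : Gd u G' (lj z (g z)) := hG'
    have h5 := h.hasF h1.1 h1.2 hGd'
    have h6 : fderiv ℝ G (lj z (g z)) = fderiv ℝ G' (lj z (g z)) :=
      Gd.grad_eq h.sol hzF h2 h3 hGd'.1 (by
        filter_upwards [hGd'.2.2.2] with x hx
        exact hx.2)
    show HasFDerivAt g (dg (fderiv ℝ G (lj z (g z)))) z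
    rw [h6]; exact h5

end

end

end Pool.Agent.D0H33.FC
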