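import Mathlib
import Pool.Agent.D0H33.FC.C35
import Pool.Agent.D0H33.FB.A36

set_option autoImplicit false

open Set Metric Filter Topology MeasureTheory
open ExtStar (lap)
open Pool.Agent.D0H33.FB

namespace Pool.Agent.D0H33.FC

noncomputable section

/-- cut off in the first coordinate of the plane -/
def r1 (A : ℝ) (y : W) : ℝ := chi ((y 0) ^ 2 / A ^ 2)

lemma r1_smooth (A : ℝ) {n : ℕ∞} : ContDiff ℝ n (r1 A) := by
  unfold r1
  have h : ContDiff ℝ n (fun y : W => (y 0) ^ 2 / A ^ 2) := by fun_prop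
  exact chi_smooth.comp h

lemma r1_zero {A : ℝ} (hA : 0 < A) {y : W} (hy : |y 0| ≤ A) : r1 A y = 0 := by
  unfold r1
  apply chi_zero
  rw [div_le_one (by positivity), ← sq_abs]
  exact pow_le_pow_left₀ (abs_nonneg _) hy 2

lemma r1_one {A : ℝ} (hA : 0 < A) {y : W} (hy : 2 * A ^ 2 ≤ |y 0| ^ 2) : r1 A y = 1 := by
  unfold r1
  apply chi_one
  rw [sq_abs] at hy
  rwa [le_div_iff₀ (by positivity)]

lemma r1_nonneg (A : ℝ) (y : W) : 0 ≤ r1 A y := chi_nonneg _

lemma r1_le_one (A : ℝ) (y : W) : r1 A y ≤ 1 := chi_le_one _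

lemma r1_grad : ∃ C : ℝ, 0 < C ∧ ∀ (A : ℝ) (y : W), 0 < A → 0 < |y 0| →
    ‖fderiv ℝ (r1 A) y‖ ≤ C / |y 0| := by
  obtain ⟨C, hC, hd⟩ := dchi_bd
  refine ⟨4 * C, by positivity, ?_⟩
  intro A y hA hy
  set pr0 : W →L[ℝ] ℝ := EuclideanSpace.proj 0 with hpr0
  have h1 : HasFDerivAt (fun y : W => (y 0) ^ 2 / A ^ 2) ((A ^ 2)⁻¹ • ((2 * y 0) • pr0)) y := by
    have h2 : HasFDerivAt (fun y : W => y 0) pr0 y := pr0.hasFDerivAt
    have h3 := (h2.pow 2).mul_const (A ^ 2)⁻¹
    simpa [div_eq_mul_inv] using h3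
  have h3 : HasFDerivAt (r1 A) _ y := (chi_diff ((y 0) ^ 2 / A ^ 2)).hasDerivAt.comp_hasFDerivAt y h1
  rw [h3.fderiv]
  apply ContinuousLinearMap.opNorm_le_bound _ (by positivity)
  intro w
  have e1 : (deriv chi ((y 0) ^ 2 / A ^ 2) • ((A ^ 2)⁻¹ • ((2 * y 0) • pr0))) w =
      deriv chi ((y 0) ^ 2 / A ^ 2) * (2 * (A ^ 2)⁻¹ * (y 0 * w 0)) := by
    simp only [_root_.smul_apply, smul_eq_mul]
    have : pr0 w = w 0 := rfl
    rw [this]
    ring
  rw [e1, Real.norm_eq_abs, abs_mul, abs_mul, abs_mul]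
  have h4 : |y 0 * w 0| ≤ |y 0| * ‖w‖ := by
    rw [abs_mul]; exact mul_le_mul_of_nonneg_left (y0_le w) (abs_nonneg _)
  by_cases h5 : 2 ≤ (y 0) ^ 2 / A ^ 2
  · rw [dchi_zero' h5, abs_zero, zero_mul]; positivity
  · push Not at h5
    have h6 := hd ((y 0) ^ 2 / A ^ 2)
    rw [abs_of_pos (by norm_num : (0:ℝ) < 2), abs_of_pos (by positivity : 0 < (A ^ 2)⁻¹)]
    rw [div_lt_iff₀ (by positivity), ← sq_abs] at h5
    have h7 : (A ^ 2)⁻¹ ≤ 2 / |y 0| ^ 2 := by
      rw [inv_eq_one_div, div_le_div_iff₀ (by positivity) (by positivity)]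
      linarith
    calc |deriv chi ((y 0) ^ 2 / A ^ 2)| * (2 * (A ^ 2)⁻¹ * |y 0 * w 0|)
        ≤ C * (2 * (2 / |y 0| ^ 2) * (|y 0| * ‖w‖)) := by gcongr
      _ = 4 * C / |y 0| * ‖w‖ := by field_simp; ring

/-- the graph theorem -/
theorem graph : ∃ η : ℝ, 0 < η ∧ η ≤ 1 / 100 ∧ ∀ (a b : ℝ) (D : Set V) (u : V → ℝ), 0 < b → Cone η a b D u →
    ∃ g : W → ℝ, ContDiff ℝ 1 g ∧ (∀ y, ‖fderiv ℝ g y‖ ≤ 1 / 100) ∧
      ∀ x : V, 4 * a < Nx x → ‖x‖ < b / 4 → (x ∈ FF D u ↔ x 0 = g (pj x)) := by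
  obtain ⟨C1, hC1, hrc⟩ := rc_grad
  obtain ⟨C2, hC2, hr1⟩ := r1_grad
  set C := C1 + C2 with hC'
  have hC : 0 < C := by positivity
  set η : ℝ := 1 / (100 * (2 + 4 * C)) with hη
  have hη0 : 0 < η := by positivity
  have hη1 : η ≤ 1 / 100 := by
    rw [hη]
    apply one_div_le_one_div_of_le (by norm_num)
    linarith
  have hη2 : (2 + 4 * C) * η = 1 / 100 := by rw [hη]; field_simp
  clear_value η
  refine ⟨η, hη0, hη1, ?_⟩
  intro a b D u hb hcone
  obtain ⟨g, h⟩ := hcone.exists_hgt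
  have ha := h.a0
  set ζ : W → ℝ := fun y => r1 (2 * a) y * (1 - rc (b / 4) y) with hζ
  set gt : W → ℝ := fun y => ζ y * g y with hgt
  have hζs : ContDiff ℝ 1 ζ := (r1_smooth _ (n := 1)).mul (contDiff_const.sub (rc_smooth _ (n := 1)))
  have hζ0 : ∀ y, 0 ≤ ζ y := fun y => mul_nonneg (r1_nonneg _ _) (by linarith [rc_le_one (b / 4) y])
  have hζ1 : ∀ y, ζ y ≤ 1 := fun y => by
    have h1 := r1_le_one (2 * a) y
    have h2 := r1_nonneg (2 * a) y
    have h3 := rc_nonneg (b / 4) y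
    have h4 := rc_le_one (b / 4) y
    simp only [hζ]
    nlinarith
  -- three cases
  have hcase : ∀ y : W, (gt =ᶠ[𝓝 y] fun _ => 0) ∨ (a < |y 0| ∧ ‖y‖ < b / 2 ∧ 2 * a ≤ |y 0|) := by
    intro y
    have hz0c : Continuous (fun z : W => |z 0|) := by fun_prop
    by_cases h1 : |y 0| < 2 * a
    · left
      filter_upwards [(isOpen_lt hz0c continuous_const).mem_nhds h1] with z hz
      have hz' : |z 0| < 2 * a := hz
      simp only [hgt, hζ]
      rw [r1_zero (by positivity) hz'.le]; ring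
    · push Not at h1
      by_cases h2 : ‖y‖ < b / 2
      · exact Or.inr ⟨by linarith, h2, h1⟩
      · left
        push Not at h2
        have h3 : b / 2 * (9 / 10) < ‖y‖ := by linarith
        filter_upwards [(isOpen_lt continuous_const continuous_norm).mem_nhds h3] with z hz
        have hz' : b / 2 * (9 / 10) < ‖z‖ := hz
        simp only [hgt, hζ]
        rw [rc_one (A := b / 4) (by positivity) (by nlinarith)]; ring
  refine ⟨gt, ?_, ?_, ?_⟩
  · rw [contDiff_iff_contDiffAt]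
    intro y
    rcases hcase y with h1 | ⟨h1, h2, -⟩
    · exact contDiffAt_const.congr_of_eventuallyEq h1
    · exact hζs.contDiffAt.mul (h.C1 h1 h2)
  · intro y
    rcases hcase y with h1 | ⟨h1, h2, -⟩
    · rw [h1.fderiv_eq]
      simp
    · have hy0 : 0 < |y 0| := by linarith
      have hyn : 0 < ‖y‖ := lt_of_lt_of_le hy0 (y0_le y)
      have hgd : HasFDerivAt g (fderiv ℝ g y) y := ((h.C1 h1 h2).differentiableAt (by norm_num)).hasFDerivAt
      have hζd : HasFDerivAt ζ (fderiv ℝ ζ y) y := (hζs.differentiable (by norm_num) y).hasFDerivAt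
      have hprod : HasFDerivAt gt (ζ y • fderiv ℝ g y + g y • fderiv ℝ ζ y) y := hζd.mul hgd
      rw [hprod.fderiv]
      have d1 : HasFDerivAt (r1 (2 * a)) (fderiv ℝ (r1 (2 * a)) y) y :=
        ((r1_smooth (2 * a) (n := 1)).differentiable (by norm_num) y).hasFDerivAt
      have d2 : HasFDerivAt (rc (b / 4)) (fderiv ℝ (rc (b / 4)) y) y :=
        ((rc_smooth (b / 4) (n := 1)).differentiable (by norm_num) y).hasFDerivAt
      have d3 : HasFDerivAt ζ (r1 (2 * a) y • (-fderiv ℝ (rc (b / 4)) y) +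
          (1 - rc (b / 4) y) • fderiv ℝ (r1 (2 * a)) y) y := d1.mul (d2.const_sub 1)
      have hζg : ‖fderiv ℝ ζ y‖ ≤ 2 * C / |y 0| := by
        rw [d3.fderiv]
        refine (norm_add_le _ _).trans ?_
        rw [norm_smul, norm_smul, norm_neg, Real.norm_eq_abs, Real.norm_eq_abs,
          abs_of_nonneg (r1_nonneg _ _), abs_of_nonneg (by linarith [rc_le_one (b / 4) y])]
        have e1 := hr1 (2 * a) y (by positivity) hy0
        have e2 : ‖fderiv ℝ (rc (b / 4)) y‖ ≤ C1 / |y 0| := by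
          refine (hrc (b / 4) y (by positivity) hyn).trans ?_
          exact div_le_div_of_nonneg_left hC1.le hy0 (y0_le y)
        have e3 := r1_le_one (2 * a) y
        have e4 := rc_nonneg (b / 4) y
        have e5 := norm_nonneg (fderiv ℝ (r1 (2 * a)) y)
        have e6 := norm_nonneg (fderiv ℝ (rc (b / 4)) y)
        have e7 : 2 * C / |y 0| = (C1 / |y 0| + C2 / |y 0|) + (C1 / |y 0| + C2 / |y 0|) := by
          rw [hC']; ring
        have e8 : 0 ≤ C1 / |y 0| := by positivity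
        have e9 : 0 ≤ C2 / |y 0| := by positivity
        rw [e7]
        nlinarith [r1_nonneg (2 * a) y, rc_le_one (b / 4) y]
      refine (norm_add_le _ _).trans ?_
      rw [norm_smul, norm_smul, Real.norm_eq_abs, Real.norm_eq_abs, abs_of_nonneg (hζ0 y)]
      have f1 := h.grad_le h1 h2
      have f2 := h.gabs y h1 h2
      have f3 : |g y| * ‖fderiv ℝ ζ y‖ ≤ (2 * η * |y 0|) * (2 * C / |y 0|) :=
        mul_le_mul f2 hζg (norm_nonneg _) (by positivity)
      have f4 : (2 * η * |y 0|) * (2 * C / |y 0|) = 4 * C * η := by field_simp; ring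
      have f5 : ζ y * ‖fderiv ℝ g y‖ ≤ 1 * (2 * η) := mul_le_mul (hζ1 y) f1 (norm_nonneg _) (by norm_num)
      linarith
  · intro x hx1 hx2
    have hgb : ∀ y : W, a < |y 0| → ‖y‖ < b / 2 → |g y| ≤ 2 * η * |y 0| := h.gabs
    have hx10 : (pj x) 0 = x 1 := rfl
    have key : |x 0| ≤ 1 / 10 * Nx x → (a < |(pj x) 0| ∧ ‖pj x‖ < b / 2) ∧ gt (pj x) = g (pj x) ∧
        |x 0| ≤ |(pj x) 0| := by
      intro h1
      have h2 : Nx x ^ 2 = x 0 ^ 2 + |(pj x) 0| ^ 2 := by
        rw [Nx_sq', hx10, sq_abs]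
      have h3 : (x 0) ^ 2 ≤ 1 / 100 * Nx x ^ 2 := by
        rw [← sq_abs]
        have := pow_le_pow_left₀ (abs_nonneg (x 0)) h1 2
        linarith
      have hx0 : 0 < Nx x := by linarith
      have h4 : 9 / 10 * Nx x ≤ |(pj x) 0| := by
        have : (9 / 10 * Nx x) ^ 2 ≤ |(pj x) 0| ^ 2 := by nlinarith
        exact (pow_le_pow_iff_left₀ (by positivity) (abs_nonneg _) (by norm_num)).1 this
      have h5 : ‖pj x‖ ≤ ‖x‖ := by
        have := lj_ge' (pj x) (x 0)
        rwa [lj_pj] at this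
      refine ⟨⟨by linarith, by linarith⟩, ?_, by linarith⟩
      simp only [hgt, hζ]
      rw [r1_one (A := 2 * a) (by positivity) (by nlinarith), rc_zero (A := b / 4) (by positivity)
        (by linarith)]
      ring
    have hxa : x ∈ ann a b := ⟨by linarith, by linarith⟩
    constructor
    · intro hF
      have h1 := h.toCone.F_abs hxa hF
      obtain ⟨h2, h3, h4⟩ := key (h1.trans (mul_le_mul_of_nonneg_right (by linarith) (Nx_nonneg _)))
      rw [h3]
      apply h.guniq (pj x) h2.1 h2.2 _ h4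
      rwa [lj_pj]
    · intro hxg
      have h1 : |x 0| ≤ 1 / 10 * Nx x := by
        have hN := Nx_nonneg x
        rw [hxg]
        rcases hcase (pj x) with h1 | ⟨h1, h2, -⟩
        · rw [h1.self_of_nhds, abs_zero]; positivity
        · simp only [hgt]
          rw [abs_mul, abs_of_nonneg (hζ0 _)]
          have h3 := hgb _ h1 h2
          have h4 : |(pj x) 0| ≤ Nx x := by
            have := lj_ge (pj x) (x 0)
            rwa [lj_pj] at this
          have h5 := hζ1 (pj x)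
          have h6 := hζ0 (pj x)
          have h7 := abs_nonneg (g (pj x))
          nlinarith
      obtain ⟨h2, h3, h4⟩ := key h1
      have h5 := h.gF (pj x) h2.1 h2.2
      rw [h3] at hxg
      rw [← hxg, lj_pj] at h5
      exact h5

end

end Pool.Agent.D0H33.FC
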