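import Mathlib
import Pool.Agent.D0H33.FC.C26
import Pool.Agent.D0H33.FC.C31
import Pool.Agent.D0H33.FC.C36

set_option autoImplicit false

open Set Metric Filter Topology MeasureTheory
open ExtStar (lap)
open Pool.Agent.D0H33.FB

namespace Pool.Agent.D0H33.FC

noncomputable section

variable {D : Set V} {u : V → ℝ}

lemma scl_scl' (p : V) {s r : ℝ} (hs : 0 < s) (hr : 0 < r) :
    scl 0 r (scl p s u) = scl p (s * r) u := by
  funext x
  unfold scl
  rw [zero_add, smul_smul]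
  field_simp

lemma sclD_sclD' (p : V) (s r : ℝ) : sclD 0 r (sclD p s D) = sclD p (s * r) D := by
  ext x
  unfold sclD
  simp only [mem_ofPred_eq, zero_add, smul_smul]

/-- flat solutions outside a cylinder, all of whose circles meet the free boundary, are graphs -/
theorem main_sol : ∃ δ0 ε C : ℝ, 0 < δ0 ∧ δ0 < 1 ∧ 0 < ε ∧ ε < 1 / 2 ∧ 1 ≤ C ∧
    ∀ (δ : ℝ) (D : Set V) (u : V → ℝ), 0 < δ → δ ≤ δ0 → Sol D u → ann δ 1 ⊆ D →
      (∀ ρ z : ℝ, δ < ρ → ρ ^ 2 + z ^ 2 < 1 → ∃ p ∈ FF D u, Nx p = ρ ∧ inner ℝ ax p = z) →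
      (∀ x ∈ ann δ 1, ε < x 0 → x ∈ NN D u) → (∀ x ∈ ann δ 1, x 0 < -ε → x ∉ NN D u) →
      ∃ g : W → ℝ, ContDiff ℝ 1 g ∧ (∀ y, ‖fderiv ℝ g y‖ ≤ 1 / 100) ∧
        ∀ x : V, C * δ < Nx x → ‖x‖ < 1 / C → (x ∈ FF D u ↔ x 0 = g (pj x)) := by
  obtain ⟨L, c, κ, hL, hc, hκ, hcfg⟩ := cfg_main
  obtain ⟨c2, κ2, hc2, hκ2, -, hart⟩ := FB.cfg_consts L hL
  obtain ⟨η, hη0, hη1, hgraph⟩ := graph
  obtain ⟨ε1, K, hε1, hK, hcn⟩ := cone_normals L c κ hL hc (by linarith) c2 κ2 hc2 (by linarith) hart η hη0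
  obtain ⟨r, ε2, hr0, hr1, hε2, hinit⟩ := init_step L c κ hL (by linarith) ε1 hε1
  refine ⟨min (ε2 / 8) (1 / 2), min (ε2 / 4) (1 / 4), max (8 * K) (32 / r), by positivity,
    lt_of_le_of_lt (min_le_right _ _) (by norm_num), by positivity,
    lt_of_le_of_lt (min_le_right _ _) (by norm_num),
    le_trans (by linarith) (le_max_left _ _), ?_⟩
  intro δ D u hδ hδ0 hsol hD hF hpos hneg
  have hδε : δ ≤ ε2 / 8 := hδ0.trans (min_le_left _ _)
  have hεε : min (ε2 / 4) (1 / 4) ≤ ε2 / 4 := min_le_left _ _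
  have hh : (0 : ℝ) < 1 / 4 := by norm_num
  have hax0 : (ax : V) 0 = 0 := by unfold ax ee; simp
  have hinn0 : inner ℝ (ee 0) ax = 0 := by rw [ee_inner, hax0]
  set s : ℝ := 1 / 4 * r with hs
  have hs0 : 0 < s := by positivity
  have hs1 : s ≤ 1 / 4 := by linarith
  -- the cone conditions around points of the axis
  have hmain : ∀ z0 : ℝ, |z0| ≤ 1 / 4 → ∀ x : V, inner ℝ ax x = 0 → K * (8 * δ / r) < ‖x‖ →
      ‖x‖ < 1 / 2 →
      (η * ‖x‖ < inner ℝ (ee 0) x → x ∈ NN (sclD (z0 • ax) s D) (scl (z0 • ax) s u)) ∧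
      (inner ℝ (ee 0) x < -(η * ‖x‖) → x ∉ NN (sclD (z0 • ax) s D) (scl (z0 • ax) s u)) ∧
      (x ∈ FF (sclD (z0 • ax) s D) (scl (z0 • ax) s u) →
        ∀ G, Gd (scl (z0 • ax) s u) G x → ‖gr G x - ee 0‖ ≤ η) := by
    intro z0 hz0
    have hz0n : ‖z0 • ax‖ ≤ 1 / 4 := by
      rw [norm_smul, ax_norm, mul_one, Real.norm_eq_abs]; exact hz0
    have hc1 := hcfg D u δ z0 hsol hδ hD hz0 hF
    have hann : ∀ x : V, x ∈ ann (8 * δ) 1 → z0 • ax + (1 / 4 : ℝ) • x ∈ ann δ 1 := by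
      intro x hx
      constructor
      · rw [Nx_add_ax, Nx_rsmul hh]; linarith [hx.1]
      · refine lt_of_le_of_lt (norm_add_le _ _) ?_
        rw [norm_rsmul hh]; linarith [hx.2]
    have hcoord : ∀ x : V, (z0 • ax + (1 / 4 : ℝ) • x) 0 = 1 / 4 * x 0 := by
      intro x
      show z0 * (ax : V) 0 + 1 / 4 * x 0 = 1 / 4 * x 0
      rw [hax0]; ring
    have hexc := hinit (8 * δ) (sclD (z0 • ax) (1 / 4) D) (scl (z0 • ax) (1 / 4) u) (ee 0) hc1
      (ee_norm 0) hinn0 (by linarith)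
      (by
        intro x hx h1
        rw [ee_inner] at h1
        rw [NN_scl _ hh]
        show z0 • ax + (1 / 4 : ℝ) • x ∈ NN D u
        apply hpos _ (hann x hx)
        rw [hcoord]
        linarith)
      (by
        intro x hx h1
        rw [ee_inner] at h1
        rw [NN_scl _ hh]
        show ¬ z0 • ax + (1 / 4 : ℝ) • x ∈ NN D u
        apply hneg _ (hann x hx)
        rw [hcoord]
        linarith)
    have hc3 := hc1.scale (by linarith) hr0 hr1
    rw [scl_scl' _ hh hr0, sclD_sclD'] at hexc hc3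
    exact hcn (8 * δ / r) _ _ (ee 0) hc3 (ee_norm 0) hexc
  -- the cone conditions in the original variables
  have hres : ∀ x : V, (inner ℝ ax x) • ax + s • (s⁻¹ • (x - (inner ℝ ax x) • ax)) = x := by
    intro x
    rw [smul_smul, mul_inv_cancel₀ hs0.ne', one_smul]; abel
  have hsx : ∀ x : V, ‖s⁻¹ • (x - (inner ℝ ax x) • ax)‖ * s = Nx x := by
    intro x
    rw [norm_smul, Real.norm_of_nonneg (by positivity)]
    unfold Nx
    field_simp
  have hsub : ann (2 * K * δ) (r / 8) ⊆ ann δ 1 := by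
    intro x hx
    refine ⟨?_, by linarith [hx.2]⟩
    have := hx.1
    nlinarith
  have hx' : ∀ x ∈ ann (2 * K * δ) (r / 8), |inner ℝ ax x| ≤ 1 / 4 ∧
      inner ℝ ax (s⁻¹ • (x - (inner ℝ ax x) • ax)) = 0 ∧
      K * (8 * δ / r) < ‖s⁻¹ • (x - (inner ℝ ax x) • ax)‖ ∧
      ‖s⁻¹ • (x - (inner ℝ ax x) • ax)‖ < 1 / 2 := by
    intro x hx
    refine ⟨(ax_inner_le x).trans (by linarith [hx.2]), ?_, ?_, ?_⟩
    · rw [inner_smul_right, perp_ax, mul_zero]
    · have h1 : K * (8 * δ / r) * s < ‖s⁻¹ • (x - (inner ℝ ax x) • ax)‖ * s := by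
        rw [hsx, hs]
        have := hx.1
        refine lt_of_le_of_lt (le_of_eq ?_) this
        field_simp
        ring
      exact lt_of_mul_lt_mul_right h1 hs0.le
    · have h1 : ‖s⁻¹ • (x - (inner ℝ ax x) • ax)‖ * s < 1 / 2 * s := by
        rw [hsx, hs]
        have := hx.2
        have h2 := Nx_le x
        linarith
      exact lt_of_mul_lt_mul_right h1 hs0.le
  have hinn : ∀ x : V, inner ℝ (ee 0) (s⁻¹ • (x - (inner ℝ ax x) • ax)) * s = x 0 := by
    intro x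
    rw [inner_smul_right, inner_sub_right, inner_smul_right, hinn0, ee_inner]
    field_simp
    ring
  have hcone : Cone η (2 * K * δ) (r / 8) D u := by
    refine ⟨hsol, by positivity, hη0, hη1, hsub.trans hD, ?_, ?_, ?_⟩
    · intro x hx h1
      obtain ⟨h0, h00, h2, h3⟩ := hx' x hx
      obtain ⟨h4, -, -⟩ := hmain _ h0 _ h00 h2 h3
      have h5 : s⁻¹ • (x - (inner ℝ ax x) • ax) ∈ NN (sclD ((inner ℝ ax x) • ax) s D)
          (scl ((inner ℝ ax x) • ax) s u) := by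
        apply h4
        have : η * ‖s⁻¹ • (x - (inner ℝ ax x) • ax)‖ * s <
            inner ℝ (ee 0) (s⁻¹ • (x - (inner ℝ ax x) • ax)) * s := by
          rw [hinn, mul_assoc, hsx]; exact h1
        exact lt_of_mul_lt_mul_right this hs0.le
      rw [NN_scl _ hs0] at h5
      have h6 : (inner ℝ ax x) • ax + s • (s⁻¹ • (x - (inner ℝ ax x) • ax)) ∈ NN D u := h5
      rwa [hres] at h6
    · intro x hx h1 hxN
      obtain ⟨h0, h00, h2, h3⟩ := hx' x hx
      obtain ⟨-, h4, -⟩ := hmain _ h0 _ h00 h2 h3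
      refine h4 ?_ ?_
      · have : inner ℝ (ee 0) (s⁻¹ • (x - (inner ℝ ax x) • ax)) * s <
            -(η * ‖s⁻¹ • (x - (inner ℝ ax x) • ax)‖) * s := by
          rw [hinn, neg_mul, mul_assoc, hsx]; exact h1
        exact lt_of_mul_lt_mul_right this hs0.le
      · rw [NN_scl _ hs0]
        show (inner ℝ ax x) • ax + s • (s⁻¹ • (x - (inner ℝ ax x) • ax)) ∈ NN D u
        rwa [hres]
    · intro x hx hxF G hG
      obtain ⟨h0, h00, h2, h3⟩ := hx' x hx
      obtain ⟨-, -, h4⟩ := hmain _ h0 _ h00 h2 h3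
      have hG' : Gd u G ((inner ℝ ax x) • ax + s • (s⁻¹ • (x - (inner ℝ ax x) • ax))) := by
        rw [hres]; exact hG
      obtain ⟨h5, h6⟩ := hG'.scl hs0
      rw [hres] at h6
      rw [← h6]
      apply h4 _ _ h5
      rw [FF_scl _ hs0]
      show (inner ℝ ax x) • ax + s • (s⁻¹ • (x - (inner ℝ ax x) • ax)) ∈ FF D u
      rwa [hres]
  obtain ⟨g, hg1, hg2, hg3⟩ := hgraph (2 * K * δ) (r / 8) D u (by positivity) hcone
  refine ⟨g, hg1, hg2, ?_⟩
  intro x hx1 hx2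
  apply hg3 x
  · have h1 : 8 * K * δ ≤ max (8 * K) (32 / r) * δ :=
      mul_le_mul_of_nonneg_right (le_max_left _ _) hδ.le
    linarith
  · have h1 : 1 / max (8 * K) (32 / r) ≤ r / 32 := by
      rw [div_le_div_iff₀ (by positivity) (by norm_num)]
      have h2 : 32 / r ≤ max (8 * K) (32 / r) := le_max_right _ _
      have h3 : 32 / r * r = 32 := by field_simp
      nlinarith
    linarith

end

end Pool.Agent.D0H33.FC
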