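import Mathlib
import Pool.Agent.D0H33.FC.C37

set_option autoImplicit false

open Set Metric Filter Topology MeasureTheory
open ExtStar (lap)
open Pool.Agent.D0H33.FB

namespace Pool.Agent.D0H33.FC

noncomputable section

lemma pj_cont : Continuous (pj : V → W) := by
  unfold pj
  fun_prop

lemma pj_lj (y : W) (t : ℝ) : pj (lj y t) = y := by
  ext i
  fin_cases i
  · show (lj y t) 1 = y 0
    exact lj_one y t
  · show (lj y t) 2 = y 1
    exact lj_two y t

lemma lj_cont_left (t : ℝ) : Continuous (fun y : W => lj y t) := by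
  unfold lj; fun_prop

/-- a contractible set avoiding an axis contains no circle around the axis -/
theorem no_circle_gen {X : Set V} (p : V → W) (q : W → V) (hp : Continuous p) (hq : Continuous q)
    (hpq : ∀ y, p (q y) = y) (hX : ∀ x ∈ X, p x ≠ 0) [hc : ContractibleSpace X] {ρ : ℝ} (hρ : 0 < ρ)
    (hS : ∀ y : W, ‖y‖ = ρ → q y ∈ X) : False := by
  obtain ⟨y, ⟨H⟩⟩ := id_nullhomotopic X
  set s : W → X := fun x => if h : x ≠ 0 then
    ⟨q ((ρ / ‖x‖) • x), hS _ (by
      have h0 : 0 < ‖x‖ := norm_pos_iff.2 h
      rw [norm_smul, Real.norm_of_nonneg (by positivity)]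
      field_simp)⟩ else y with hs
  have hsval : ∀ x : W, x ≠ 0 → ((s x : X) : V) = q ((ρ / ‖x‖) • x) := by
    intro x hx
    simp only [hs]
    rw [dif_pos hx]
  have hscont : ∀ x : W, x ≠ 0 → ContinuousAt s x := by
    intro x hx
    rw [Topology.IsInducing.subtypeVal.continuousAt_iff]
    have h1 : ContinuousAt (fun z : W => (ρ / ‖z‖) • z) x := by
      have h2 : ContinuousAt (fun z : W => ρ / ‖z‖) x :=
        continuousAt_const.div continuous_norm.continuousAt (norm_ne_zero_iff.2 hx)
      exact h2.smul continuousAt_id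
    have h3 : ContinuousAt (fun z : W => q ((ρ / ‖z‖) • z)) x :=
      ContinuousAt.comp (g := q) hq.continuousAt h1
    apply h3.congr
    filter_upwards [isOpen_ne.mem_nhds hx] with z hz
    exact (hsval z hz).symm
  set τ : W → unitInterval := fun x => Set.projIcc 0 1 zero_le_one (2 - 2 * ‖x‖) with hτ
  have hτc : Continuous τ := continuous_projIcc.comp (by fun_prop)
  set f : W → X := fun x => if ‖x‖ < 1 / 2 then y else H (τ x, s x) with hf
  have hτ1 : ∀ x : W, ‖x‖ ≤ 1 / 2 → τ x = 1 := by
    intro x hx
    simp only [hτ]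
    exact Set.projIcc_of_right_le _ (by linarith)
  have hτ0 : ∀ x : W, 1 ≤ ‖x‖ → τ x = 0 := by
    intro x hx
    simp only [hτ]
    exact Set.projIcc_of_le_left _ (by linarith)
  have hfc : Continuous f := by
    rw [continuous_iff_continuousAt]
    intro x
    by_cases hx : ‖x‖ < 1 / 2
    · have h1 : ContinuousAt (fun _ : W => y) x := continuousAt_const
      apply h1.congr
      filter_upwards [(isOpen_lt continuous_norm continuous_const).mem_nhds hx] with z hz
      have hz' : ‖z‖ < 1 / 2 := hz
      simp only [hf]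
      rw [if_pos hz']
    · push Not at hx
      have hx0 : x ≠ 0 := by
        intro h0
        rw [h0, norm_zero] at hx
        linarith
      have h1 : ContinuousAt (fun z : W => H (τ z, s z)) x := by
        have h2 : ContinuousAt (fun z : W => (τ z, s z)) x := hτc.continuousAt.prodMk (hscont x hx0)
        exact H.continuous.continuousAt.comp h2
      apply h1.congr
      filter_upwards [isOpen_ne.mem_nhds hx0] with z hz
      simp only [hf]
      split_ifs with hz2
      · rw [hτ1 z hz2.le]
        simp
      · rfl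
  have hne : ∀ x : W, p ((f x : X) : V) ≠ 0 := fun x => hX _ (f x).2
  set F : W → W := fun x => -((‖p ((f x : X) : V)‖)⁻¹ • p ((f x : X) : V)) with hF
  have hFc : Continuous F := by
    have h1 : Continuous (fun x : W => p ((f x : X) : V)) :=
      hp.comp (continuous_subtype_val.comp hfc)
    have h2 : Continuous (fun x : W => (‖p ((f x : X) : V)‖)⁻¹) :=
      h1.norm.inv₀ (fun x => norm_ne_zero_iff.2 (hne x))
    exact (h2.smul h1).neg
  have hFn : ∀ x, ‖F x‖ = 1 := by
    intro x
    simp only [hF]
    rw [norm_neg, norm_smul, norm_inv, norm_norm]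
    exact inv_mul_cancel₀ (norm_ne_zero_iff.2 (hne x))
  obtain ⟨x, hx⟩ := Pool.Agent.Helper133.Brouwer.brouwer_euclidean 2 F hFc 1 (fun x => (hFn x).le)
  have hx1 : ‖x‖ = 1 := by
    rw [← hx]
    exact hFn x
  have hx0 : x ≠ 0 := by
    intro h0
    rw [h0, norm_zero] at hx1
    norm_num at hx1
  have hfx : p ((f x : X) : V) = ρ • x := by
    simp only [hf]
    rw [if_neg (by rw [hx1]; norm_num), hτ0 x hx1.ge]
    rw [H.apply_zero]
    rw [ContinuousMap.id_apply, hsval x hx0, hx1, div_one, hpq]
  have hFx : F x = -x := by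
    simp only [hF]
    rw [hfx, norm_smul, hx1, Real.norm_of_nonneg hρ.le, mul_one, smul_smul, inv_mul_cancel₀ hρ.ne', one_smul]
  rw [hFx] at hx
  apply hx0
  have h2 : (2 : ℝ) • x = 0 := by
    rw [two_smul]
    nth_rewrite 1 [← hx]
    simp
  exact (smul_eq_zero.1 h2).resolve_left (by norm_num)

/-- a set avoiding the first axis and containing all points with a large first coordinate is not
contractible -/
theorem no_first {X : Set V} (hX : ∀ x ∈ X, pj x ≠ 0) [hc : ContractibleSpace X]
    (hS : ∀ y : W, ‖y‖ = 3 / 4 → lj y (1 / 2) ∈ X) : False :=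
  no_circle_gen pj (fun y => lj y (1 / 2)) pj_cont (lj_cont_left _) (fun y => pj_lj y _) hX
    (by norm_num : (0 : ℝ) < 3 / 4) hS

end

end Pool.Agent.D0H33.FC
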